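import Mathlib
set_option autoImplicit false

namespace Pool.Agent.H806.Noc2

open Finset

/-- N2. Rescaling a finite family: one sum becomes maximal, or only one member remains. -/
theorem balance2 {W : Type} [Fintype W] [Nonempty W] {q : ℕ} (J : Finset (Fin q))
    (a : W → Fin q → ℝ) (ha : ∀ w j, 0 ≤ a w j) (c th : W → ℝ) (hc : ∀ w, 0 ≤ c w)
    (hth : ∀ w, 0 ≤ th w) (hca : ∀ w, c w = 0 → (∀ j ∈ J, a w j = 0) ∧ th w = 0) (B : ℝ)
    (hB : ∑ w, c w ≤ B) (hu : ∀ j ∈ J, ∑ w, a w j ≤ 1) :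
    ∃ μ : W → ℝ, (∀ w, 0 ≤ μ w) ∧ ∑ w, μ w * c w ≤ B ∧ (∀ j ∈ J, ∑ w, μ w * a w j ≤ 1) ∧
      ∑ w, th w ≤ ∑ w, μ w * th w ∧
      ((∃ i ∈ J, ∑ w, μ w * a w i = 1) ∨ ∃ w0, ∀ w, w ≠ w0 → μ w = 0) := by
  classical
  have hC0 : 0 ≤ ∑ w, c w := Finset.sum_nonneg (fun w _ => hc w)
  by_cases hall : ∀ w, c w = 0
  · refine ⟨fun _ => 0, fun _ => le_refl 0, ?_, ?_, ?_, Or.inr ⟨Classical.arbitrary W, fun _ _ => rfl⟩⟩
    · simpa using hC0.trans hB
    · intro j _
      simp
    · have : ∑ w, th w = 0 := Finset.sum_eq_zero (fun w _ => (hca w (hall w)).2)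
      simp [this]
  · push Not at hall
    obtain ⟨w1, hw1⟩ := hall
    have hw1' : 0 < c w1 := lt_of_le_of_ne (hc w1) (Ne.symm hw1)
    obtain ⟨ws, hws, hmax⟩ := Finset.exists_max_image (Finset.univ.filter (fun w => 0 < c w))
      (fun w => th w / c w) ⟨w1, by simp [hw1']⟩
    have hcs : 0 < c ws := by simpa using hws
    obtain ⟨κ, hκ⟩ : ∃ κ : ℝ, κ = (∑ w, c w) / c ws := ⟨_, rfl⟩
    have hκ0 : 0 ≤ κ := by rw [hκ]; exact div_nonneg hC0 hcs.le
    have hκc : κ * c ws = ∑ w, c w := by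
      rw [hκ]; field_simp
    have hths : ∑ w, th w ≤ κ * th ws := by
      have h1 : ∀ w, th w ≤ (th ws / c ws) * c w := by
        intro w
        by_cases h0 : c w = 0
        · rw [(hca w h0).2, h0, mul_zero]
        · have hpos : 0 < c w := lt_of_le_of_ne (hc w) (Ne.symm h0)
          have := hmax w (by simp [hpos])
          calc th w = th w / c w * c w := by field_simp
            _ ≤ (th ws / c ws) * c w := mul_le_mul_of_nonneg_right this hpos.le
      calc ∑ w, th w ≤ ∑ w, (th ws / c ws) * c w := Finset.sum_le_sum (fun w _ => h1 w)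
        _ = (th ws / c ws) * ∑ w, c w := by rw [Finset.mul_sum]
        _ = κ * th ws := by rw [hκ]; ring
    have key : ∀ (t : ℝ) (f : W → ℝ), ∑ w, ((1 - t) + if w = ws then t * κ else 0) * f w =
        (1 - t) * ∑ w, f w + t * (κ * f ws) := by
      intro t f
      simp only [add_mul, Finset.sum_add_distrib, Finset.mul_sum]
      congr 1
      rw [Finset.sum_eq_single ws]
      · rw [if_pos rfl]; ring
      · intro w _ hw
        rw [if_neg hw, zero_mul]
      · intro h
        exact absurd (Finset.mem_univ ws) h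
    have main : ∀ t : ℝ, 0 ≤ t → t ≤ 1 →
        (∀ w, 0 ≤ (1 - t) + if w = ws then t * κ else 0) ∧
        ∑ w, ((1 - t) + if w = ws then t * κ else 0) * c w ≤ B ∧
        ∑ w, th w ≤ ∑ w, ((1 - t) + if w = ws then t * κ else 0) * th w := by
      intro t h0 h1
      refine ⟨?_, ?_, ?_⟩
      · intro w
        have : 0 ≤ t * κ := mul_nonneg h0 hκ0
        split_ifs <;> linarith
      · rw [key, hκc]
        linarith
      · rw [key]
        nlinarith
    by_cases hv : ∀ j ∈ J, κ * a ws j ≤ 1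
    · obtain ⟨m1, m2, m3⟩ := main 1 zero_le_one le_rfl
      refine ⟨_, m1, m2, ?_, m3, Or.inr ⟨ws, ?_⟩⟩
      · intro j hj
        rw [key 1 (fun w => a w j)]
        have := hv j hj
        linarith
      · intro w hw
        rw [if_neg hw]; ring
    · push Not at hv
      obtain ⟨j1, hj1, hv1⟩ := hv
      obtain ⟨i, hi, hmin⟩ := Finset.exists_min_image (J.filter (fun j => 1 < κ * a ws j))
        (fun j => (1 - ∑ w, a w j) / (κ * a ws j - ∑ w, a w j))
        ⟨j1, by simp [hj1, hv1]⟩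
      simp only [Finset.mem_filter] at hi hmin
      obtain ⟨hiJ, hvi⟩ := hi
      have hui := hu i hiJ
      have hd : 0 < κ * a ws i - ∑ w, a w i := by linarith
      obtain ⟨t, ht⟩ : ∃ t : ℝ, t = (1 - ∑ w, a w i) / (κ * a ws i - ∑ w, a w i) := ⟨_, rfl⟩
      have ht0 : 0 ≤ t := by rw [ht]; exact div_nonneg (by linarith) hd.le
      have ht1 : t ≤ 1 := by rw [ht, div_le_one hd]; linarith
      have hti : t * (κ * a ws i - ∑ w, a w i) = 1 - ∑ w, a w i := by
        rw [ht]; field_simp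
      obtain ⟨m1, m2, m3⟩ := main t ht0 ht1
      refine ⟨_, m1, m2, ?_, m3, Or.inl ⟨i, hiJ, ?_⟩⟩
      · intro j hj
        rw [key t (fun w => a w j)]
        have huj := hu j hj
        by_cases hvj : 1 < κ * a ws j
        · have h1 := hmin j ⟨hj, hvj⟩
          rw [← ht] at h1
          have hdj : 0 < κ * a ws j - ∑ w, a w j := by linarith
          rw [le_div_iff₀ hdj] at h1
          nlinarith
        · push Not at hvj
          nlinarith
      · rw [key t (fun w => a w i)]
        linarith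

end Pool.Agent.H806.Noc2
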