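import Mathlib

/-!
# N3: a lemma of Stolz with powers
-/

set_option autoImplicit false

namespace Pool.Agent.H784.Noc

open Filter Finset Asymptotics
open scoped Topology

/-- `((n+1)^(k+1) - n^(k+1)) / n^k → k + 1` -/
theorem diff_pow (k : ℕ) :
    Tendsto (fun n : ℕ => (((n : ℝ) + 1) ^ (k + 1) - (n : ℝ) ^ (k + 1)) / (n : ℝ) ^ k) atTop (𝓝 (k + 1)) := by
  have h1 := (hasDerivAt_pow (k + 1) (1 : ℝ)).tendsto_slope_zero
  have h2 : Tendsto (fun n : ℕ => ((n : ℝ))⁻¹) atTop (𝓝[≠] 0) := by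
    rw [tendsto_nhdsWithin_iff]
    refine ⟨tendsto_inv_atTop_nhds_zero_nat, ?_⟩
    filter_upwards [eventually_gt_atTop 0] with n hn
    have : (0 : ℝ) < n := by exact_mod_cast hn
    exact (inv_pos.mpr this).ne'
  have h3 := h1.comp h2
  have e1 : (((k + 1 : ℕ) : ℝ) * 1 ^ (k + 1 - 1)) = k + 1 := by push_cast; simp
  rw [e1] at h3
  refine h3.congr' ?_
  filter_upwards [eventually_gt_atTop 0] with n hn
  have hn0 : (n : ℝ) ≠ 0 := by
    have : (0 : ℝ) < n := by exact_mod_cast hn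
    exact this.ne'
  simp only [Function.comp, smul_eq_mul, inv_inv, one_pow]
  have e2 : (1 + (n : ℝ)⁻¹) = ((n : ℝ) + 1) / n := by field_simp
  rw [e2, div_pow]
  field_simp
  rw [pow_succ (n : ℝ) k]
  ring

/-- N3. A lemma of Stolz. -/
theorem stolz (f : ℕ → ℝ) (k : ℕ) (c : ℝ)
    (h : Tendsto (fun n : ℕ => (f (n + 1) - f n) / (n : ℝ) ^ k) atTop (𝓝 c)) :
    Tendsto (fun n : ℕ => f n / (n : ℝ) ^ (k + 1)) atTop (𝓝 (c / (k + 1))) := by
  have hk : (k : ℝ) + 1 ≠ 0 := by positivity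
  set u : ℕ → ℝ := fun n => f n - c / (k + 1) * (n : ℝ) ^ (k + 1) with hu
  set g : ℕ → ℝ := fun n => ((n : ℝ) + 1) ^ (k + 1) - (n : ℝ) ^ (k + 1) with hg
  have hgk : ∀ n : ℕ, (n : ℝ) ^ k ≤ g n := by
    intro n
    have h1 : (n : ℝ) ^ k ≤ ((n : ℝ) + 1) ^ k := pow_le_pow_left₀ (by positivity) (by linarith) k
    have h2 : ((n : ℝ) + 1) * (n : ℝ) ^ k ≤ ((n : ℝ) + 1) * ((n : ℝ) + 1) ^ k :=
      mul_le_mul_of_nonneg_left h1 (by positivity)
    show (n : ℝ) ^ k ≤ ((n : ℝ) + 1) ^ (k + 1) - (n : ℝ) ^ (k + 1)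
    rw [pow_succ', pow_succ' (n : ℝ) k]
    linarith
  have hg0 : 0 ≤ g := fun n => (by positivity : (0 : ℝ) ≤ (n : ℝ) ^ k).trans (hgk n)
  have hgsum : ∀ n, ∑ i ∈ range n, g i = (n : ℝ) ^ (k + 1) := by
    intro n
    have h1 := Finset.sum_range_sub (fun i : ℕ => (i : ℝ) ^ (k + 1)) n
    simp only [Nat.cast_add, Nat.cast_one, Nat.cast_zero] at h1
    rw [hg]
    simp only
    rw [h1]
    simp
  -- the differences of `u` are small
  have hd : (fun n : ℕ => u (n + 1) - u n) =o[atTop] g := by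
    have h1 : Tendsto (fun n : ℕ => (u (n + 1) - u n) / (n : ℝ) ^ k) atTop (𝓝 0) := by
      have h2 := h.sub ((diff_pow k).const_mul (c / (k + 1)))
      have e : c - c / (k + 1) * (k + 1) = 0 := by field_simp; ring
      rw [e] at h2
      refine h2.congr fun n => ?_
      simp only [hu]
      push_cast
      ring
    have h2 : (fun n : ℕ => u (n + 1) - u n) =o[atTop] fun n : ℕ => (n : ℝ) ^ k := by
      rw [isLittleO_iff_tendsto']
      · exact h1
      · filter_upwards [eventually_gt_atTop 0] with n hn h0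
        have : (0 : ℝ) < n := by exact_mod_cast hn
        exact absurd h0 (pow_pos this k).ne'
    refine h2.trans_isBigO (IsBigO.of_bound 1 (Eventually.of_forall fun n => ?_))
    rw [one_mul, Real.norm_of_nonneg (by positivity), Real.norm_of_nonneg (hg0 n)]
    exact hgk n
  have htop : Tendsto (fun n : ℕ => (n : ℝ) ^ (k + 1)) atTop atTop :=
    (tendsto_pow_atTop (Nat.succ_ne_zero k)).comp tendsto_natCast_atTop_atTop
  have hs := hd.sum_range hg0 (by simp only [hgsum]; exact htop)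
  simp only [hgsum, Finset.sum_range_sub] at hs
  have hu0 : (fun _ : ℕ => u 0) =o[atTop] fun n : ℕ => (n : ℝ) ^ (k + 1) := by
    rw [isLittleO_const_left]
    right
    exact tendsto_norm_atTop_atTop.comp htop
  have hfin := (hs.add hu0).tendsto_div_nhds_zero
  have h3 := hfin.add_const (c / (k + 1))
  rw [zero_add] at h3
  refine h3.congr' ?_
  filter_upwards [eventually_gt_atTop 0] with n hn
  have hn0 : (n : ℝ) ^ (k + 1) ≠ 0 := by
    have : (0 : ℝ) < n := by exact_mod_cast hn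
    exact (pow_pos this _).ne'
  simp only [hu]
  field_simp
  ring

end Pool.Agent.H784.Noc
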