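import Pool.Agent.H426.Noc.Defs
set_option autoImplicit false


namespace Pool.Agent.H806.Noc4

open Finset
open Pool.Agent.H426.Noc

theorem kth_bdd {ι : Type} {k : ℕ} (hk : 1 ≤ k) (J : Finset ι) (a : ι → ℝ) (ha : ∀ j, 0 ≤ a j) :
    BddAbove (insert 0 {t : ℝ | ∃ T ⊆ J, T.card = k ∧ ∀ j ∈ T, t ≤ a j}) := by
  refine ⟨∑ j ∈ J, a j, ?_⟩
  rintro t (rfl | ⟨T, hT, hc, h⟩)
  · exact Finset.sum_nonneg (fun j _ => ha j)
  · have hne : T.Nonempty := by
      rw [← Finset.card_pos]; omega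
    obtain ⟨j, hj⟩ := hne
    exact (h j hj).trans (Finset.single_le_sum (f := a) (fun j _ => ha j) (hT hj))

theorem le_kth {ι : Type} {k : ℕ} (hk : 1 ≤ k) (J : Finset ι) (a : ι → ℝ) (ha : ∀ j, 0 ≤ a j)
    {T : Finset ι} (hT : T ⊆ J) (hc : T.card = k) {t : ℝ} (h : ∀ j ∈ T, t ≤ a j) :
    t ≤ kth k J a := by
  unfold kth
  exact le_csSup (kth_bdd hk J a ha) (Or.inr ⟨T, hT, hc, h⟩)

/-- N4. -/
theorem kth_spec {ι : Type} {k : ℕ} (hk : 1 ≤ k) (J : Finset ι) (a : ι → ℝ) (ha : ∀ j, 0 ≤ a j) :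
    0 ≤ kth k J a ∧ (kth k J a = 0 ∨ ∃ T ⊆ J, T.card = k ∧ ∀ j ∈ T, kth k J a ≤ a j) := by
  have hb := kth_bdd hk J a ha
  constructor
  · unfold kth
    exact le_csSup hb (Or.inl rfl)
  · have hcl : IsClosed (insert 0 {t : ℝ | ∃ T ⊆ J, T.card = k ∧ ∀ j ∈ T, t ≤ a j}) := by
      have h1 : {t : ℝ | ∃ T ⊆ J, T.card = k ∧ ∀ j ∈ T, t ≤ a j} =
          ⋃ T ∈ (J.powersetCard k : Set (Finset ι)), ⋂ j ∈ (T : Set ι), Set.Iic (a j) := by
        ext t
        simp only [Set.mem_ofPred_eq, Set.mem_iUnion, Finset.mem_coe, Finset.mem_powersetCard,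
          Set.mem_iInter, Set.mem_Iic, exists_prop, and_assoc]
      rw [h1, Set.insert_eq]
      refine IsClosed.union isClosed_singleton ?_
      refine Set.Finite.isClosed_biUnion (Finset.finite_toSet _) ?_
      intro T _
      exact isClosed_biInter (fun j _ => isClosed_Iic)
    have hm := hcl.csSup_mem ⟨0, Or.inl rfl⟩ hb
    rcases hm with hm | hm
    · exact Or.inl hm
    · exact Or.inr hm

/-- N4. -/
theorem top_spec {ι : Type} (k : ℕ) (J : Finset ι) (a : ι → ℝ) :
    0 ≤ top k J a ∧ (∃ T ⊆ J, T.card ≤ k ∧ top k J a = ∑ j ∈ T, a j) ∧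
      ∀ T ⊆ J, T.card ≤ k → ∑ j ∈ T, a j ≤ top k J a := by
  have hfin : {t : ℝ | ∃ T ⊆ J, T.card ≤ k ∧ t = ∑ j ∈ T, a j}.Finite := by
    refine ((Finset.finite_toSet J.powerset).image (fun T => ∑ j ∈ T, a j)).subset ?_
    rintro t ⟨T, hT, _, rfl⟩
    exact ⟨T, by simpa using hT, rfl⟩
  have hle : ∀ T ⊆ J, T.card ≤ k → ∑ j ∈ T, a j ≤ top k J a := by
    intro T hT hc
    exact le_csSup hfin.bddAbove ⟨T, hT, hc, rfl⟩
  refine ⟨?_, ?_, hle⟩
  · have := hle ∅ (Finset.empty_subset J) (by simp)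
    simpa using this
  · have hne : {t : ℝ | ∃ T ⊆ J, T.card ≤ k ∧ t = ∑ j ∈ T, a j}.Nonempty :=
      ⟨0, ∅, Finset.empty_subset J, by simp, by simp⟩
    exact hne.csSup_mem hfin

/-- N4. -/
theorem top_mul {ι : Type} (k : ℕ) (J : Finset ι) (a : ι → ℝ) {c : ℝ} (hc : 0 ≤ c) :
    top k J (fun j => c * a j) = c * top k J a := by
  obtain ⟨_, ⟨T, hT, hTc, hTe⟩, hle⟩ := top_spec k J a
  obtain ⟨_, ⟨T', hT', hTc', hTe'⟩, hle'⟩ := top_spec k J (fun j => c * a j)
  apply le_antisymm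
  · rw [hTe', ← Finset.mul_sum]
    exact mul_le_mul_of_nonneg_left (hle T' hT' hTc') hc
  · rw [hTe, Finset.mul_sum]
    exact hle' T hT hTc

theorem sum_le_top_add {ι : Type} [DecidableEq ι] {m : ℕ} (hm : 1 ≤ m) (J : Finset ι) (a : ι → ℝ)
    (ha : ∀ j, 0 ≤ a j) (r : ℕ) : ∀ A ⊆ J, A.card ≤ m + r →
      ∑ j ∈ A, a j ≤ top m J a + (r : ℝ) * kth m J a := by
  induction r with
  | zero =>
    intro A hA hc
    have := (top_spec m J a).2.2 A hA (by omega)
    simpa using this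
  | succ r ih =>
    intro A hA hc
    have hg := (kth_spec hm J a ha).1
    push_cast
    by_cases h : A.card ≤ m + r
    · have := ih A hA h
      nlinarith
    · have hne : A.Nonempty := by
        rw [← Finset.card_pos]; omega
      obtain ⟨j0, hj0, hmin⟩ := Finset.exists_min_image A a hne
      have hc' : (A.erase j0).card = m + r := by
        rw [Finset.card_erase_of_mem hj0]; omega
      obtain ⟨T, hT, hTc⟩ := Finset.exists_subset_card_eq (s := A.erase j0) (n := m) (by omega)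
      have h1 : a j0 ≤ kth m J a := by
        refine le_kth hm J a ha (T := T) ?_ hTc ?_
        · exact (hT.trans (Finset.erase_subset _ _)).trans hA
        · intro j hj
          exact hmin j (Finset.mem_of_mem_erase (hT hj))
      have h2 := ih (A.erase j0) ((Finset.erase_subset _ _).trans hA) hc'.le
      have h3 := Finset.add_sum_erase A a hj0
      linarith

/-- N4. The combinatorial inequality. -/
theorem top_step {ι : Type} [DecidableEq ι] {k : ℕ} (J R : Finset ι) (hR : R ⊆ J) {i : ι}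
    (hi : i ∈ R) (hk : R.card < k) (a : ι → ℝ) (ha : ∀ j, 0 ≤ a j) :
    top k J a ≤ ∑ j ∈ R, a j + top (k - R.card) (J \ R) a + (max (a i) (kth k J a) - a i) +
      ((R.card : ℝ) - 1) * kth (k - R.card) (J \ R) a := by
  have hn : 1 ≤ R.card := Finset.card_pos.mpr ⟨i, hi⟩
  have hm : 1 ≤ k - R.card := by omega
  obtain ⟨_, ⟨T, hT, hTc, hTe⟩, _⟩ := top_spec k J a
  have hg' := (kth_spec hm (J \ R) a ha).1
  have hmax : 0 ≤ max (a i) (kth k J a) - a i := by
    have := le_max_left (a i) (kth k J a); linarith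
  have hsplit : ∑ j ∈ T, a j = ∑ j ∈ T ∩ R, a j + ∑ j ∈ T \ R, a j := by
    rw [← Finset.sum_inter_add_sum_sdiff T R a]
  have hcard : (T ∩ R).card + (T \ R).card = T.card := Finset.card_inter_add_card_sdiff T R
  have hsub : T \ R ⊆ J \ R := Finset.sdiff_subset_sdiff hT (Finset.Subset.refl R)
  have hRsum : ∑ j ∈ T ∩ R, a j ≤ ∑ j ∈ R, a j :=
    Finset.sum_le_sum_of_subset_of_nonneg Finset.inter_subset_right (fun j _ _ => ha j)
  have hcast : ((R.card - 1 : ℕ) : ℝ) = (R.card : ℝ) - 1 := by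
    rw [Nat.cast_sub hn]; simp
  rw [hTe]
  by_cases hs : 1 ≤ (T ∩ R).card
  · have h1 := sum_le_top_add hm (J \ R) a ha (R.card - 1) (T \ R) hsub (by omega)
    rw [hcast] at h1
    linarith
  · have hs0 : (T ∩ R).card = 0 := by omega
    have hz : ∑ j ∈ T ∩ R, a j = 0 := by
      rw [Finset.card_eq_zero.mp hs0]; simp
    have hai : a i ≤ ∑ j ∈ R, a j := Finset.single_le_sum (f := a) (fun j _ => ha j) hi
    by_cases hTk : T.card = k
    · have hne : T.Nonempty := by
        rw [← Finset.card_pos]; omega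
      obtain ⟨j0, hj0, hmin⟩ := Finset.exists_min_image T a hne
      have hg : a j0 ≤ kth k J a := le_kth (by omega) J a ha hT hTk hmin
      have hj0' : j0 ∈ T \ R := by
        rw [Finset.mem_sdiff]
        refine ⟨hj0, fun hr => ?_⟩
        have : j0 ∈ T ∩ R := Finset.mem_inter.mpr ⟨hj0, hr⟩
        rw [Finset.card_eq_zero.mp hs0] at this
        simp at this
      have hce : ((T \ R).erase j0).card = (T \ R).card - 1 := Finset.card_erase_of_mem hj0'
      have h1 := sum_le_top_add hm (J \ R) a ha (R.card - 1) ((T \ R).erase j0)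
        ((Finset.erase_subset _ _).trans hsub) (by omega)
      rw [hcast] at h1
      have h3 := Finset.add_sum_erase (T \ R) a hj0'
      have h4 := le_max_right (a i) (kth k J a)
      linarith
    · have h1 := sum_le_top_add hm (J \ R) a ha (R.card - 1) (T \ R) hsub (by omega)
      rw [hcast] at h1
      have := Finset.sum_nonneg (s := R) (f := a) (fun j _ => ha j)
      linarith

end Pool.Agent.H806.Noc4
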