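import Pool.Agent.H426.Two.Filt

/-!
N6: the levels of the filtration by the powers of a variable, with elements (helper345).
-/

set_option autoImplicit false

namespace Pool.Agent.H345.Noc

open MvPolynomial Finset Module
open Pool.Agent.TH875 (VM VM_finite exists_sec)
open Pool.Agent.H426.Ru (HG lt_add)
open Pool.Agent.H190.TW.TwoT2 (ext_step indep)
open Pool.Agent.H726.Two (exists_prime_colon)

/-- prime filtrations, with elements -/
theorem exists_filt_el {K : Type} [Field K] {q : ℕ} (I : Ideal (MvPolynomial (Fin q) K))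
    (hI : HG I) :
    ∃ (L : ℕ) (P : Fin L → Ideal (MvPolynomial (Fin q) K)) (t : Fin L → ℕ)
      (m : Fin L → MvPolynomial (Fin q) K),
      (∀ l, (P l).IsPrime ∧ HG (P l) ∧ I ≤ P l ∧ (m l).IsHomogeneous (t l)) ∧
      (∀ M, (∀ l, t l ≤ M) → finrank K (VM I M) = ∑ l, finrank K (VM (P l) (M - t l))) ∧
      ∀ (κ : Fin L → Type) [∀ l, Fintype (κ l)] (h : ∀ l, κ l → MvPolynomial (Fin q) K),
        (∀ l, LinearIndependent K (fun s => Ideal.Quotient.mkₐ K (P l) (h l s))) →
        LinearIndependent K (fun s : Σ l, κ l => Ideal.Quotient.mkₐ K I (m s.1 * h s.1 s.2)) := by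
  induction I using WellFoundedGT.induction with
  | ind I ih =>
    by_cases ht : I = ⊤
    · subst ht
      refine ⟨0, Fin.elim0, Fin.elim0, Fin.elim0, fun l => l.elim0, fun M _ => ?_,
        fun κ _ h _ => ?_⟩
      · have hfin : FiniteDimensional K (VM (⊤ : Ideal (MvPolynomial (Fin q) K)) M) := VM_finite _ M
        rw [Finset.univ_eq_empty, Finset.sum_empty, Submodule.finrank_eq_zero, eq_bot_iff]
        rintro _ ⟨p, -, rfl⟩
        exact Ideal.Quotient.eq_zero_iff_mem.2 trivial
      · exact linearIndependent_empty_type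
    · obtain ⟨m0, t0, P0, hm, hmI, hP0, hP0g, hP0m⟩ := exists_prime_colon hI ht
      obtain ⟨L, P, t, m, h1, h2, h3⟩ := ih _ (lt_add hmI) (hI.add hm)
      refine ⟨L + 1, Fin.cons P0 P, Fin.cons t0 t, Fin.cons m0 m, ?_, ?_, ?_⟩
      · intro l
        refine Fin.cases ?_ (fun l => ?_) l
        · simp only [Fin.cons_zero]
          exact ⟨hP0, hP0g, fun a ha => (hP0m a).2 (Ideal.mul_mem_left _ _ ha), hm⟩
        · simp only [Fin.cons_succ]
          exact ⟨(h1 l).1, (h1 l).2.1, le_sup_left.trans (h1 l).2.2.1, (h1 l).2.2.2⟩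
      · intro M hM
        have hM0 : t0 ≤ M := by simpa using hM 0
        have hM1 : ∀ l, t l ≤ M := fun l => by simpa using hM l.succ
        obtain ⟨h5, -⟩ := ext_step hI hm hP0m hM0
        rw [Fin.sum_univ_succ, h5, h2 M hM1, add_comm]
        rfl
      · intro κ _ h hh
        have h4 := h3 (fun l => κ l.succ) (fun l => h l.succ) (fun l => hh l.succ)
        have h5 := indep hP0m h4 (hh 0)
        rw [Fintype.linearIndependent_iff] at h5 ⊢
        intro c hc
        have h6 := h5 (Sum.elim (fun s => c ⟨s.1.succ, s.2⟩) (fun s => c ⟨0, s⟩)) (by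
          rw [← hc, Fintype.sum_sum_type, Fintype.sum_sigma, Fintype.sum_sigma,
            Fin.sum_univ_succ, add_comm]
          rfl)
        rintro ⟨l, s⟩
        revert s
        refine Fin.cases ?_ (fun l => ?_) l
        · intro s
          exact h6 (Sum.inr s)
        · intro s
          exact h6 (Sum.inl ⟨l, s⟩)

/-- N6. The levels of the filtration by the powers of a variable. -/
theorem prime_levels {K : Type} [Field K] {q : ℕ} {Q : Ideal (MvPolynomial (Fin q) K)} (hQ : HG Q)
    (hp : Q.IsPrime) {i : Fin q} (hi : X i ∉ Q) :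
    ∃ (L : ℕ) (P : Fin L → Ideal (MvPolynomial (Fin q) K)) (t : Fin L → ℕ)
      (m : Fin L → MvPolynomial (Fin q) K),
      (∀ l, (P l).IsPrime ∧ HG (P l) ∧ Q < P l ∧ X i ∈ P l ∧ (m l).IsHomogeneous (t l)) ∧
      (∀ M, 1 ≤ M → (∀ l, t l ≤ M) →
        finrank K (VM Q M) = finrank K (VM Q (M - 1)) + ∑ l, finrank K (VM (P l) (M - t l))) ∧
      ∀ (r : ℕ) (κ0 : Type) [Fintype κ0] (u : κ0 → MvPolynomial (Fin q) K)
        (κ : Fin r → Fin L → Type) [∀ n l, Fintype (κ n l)]
        (h : ∀ n l, κ n l → MvPolynomial (Fin q) K),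
        LinearIndependent K (fun s => Ideal.Quotient.mkₐ K Q (u s)) →
        (∀ n l, LinearIndependent K (fun s => Ideal.Quotient.mkₐ K (P l) (h n l s))) →
        LinearIndependent K (fun s : κ0 ⊕ (Σ n : Fin r, Σ l : Fin L, κ n l) =>
          Ideal.Quotient.mkₐ K Q (Sum.elim (fun s => X i ^ r * u s)
            (fun s => X i ^ (r - 1 - (s.1 : ℕ)) * (m s.2.1 * h s.1 s.2.1 s.2.2)) s)) := by
  have hX : (X i : MvPolynomial (Fin q) K).IsHomogeneous 1 := isHomogeneous_X K i
  obtain ⟨L, P, t, m, h1, h2, h3⟩ := exists_filt_el (Q ⊔ Ideal.span {X i}) (hQ.add hX)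
  have hP : ∀ a, a ∈ Q ↔ X i * a ∈ Q := fun a => by
    constructor
    · exact fun h => Ideal.mul_mem_left _ _ h
    · intro h
      rcases hp.mem_or_mem h with h | h
      · exact absurd h hi
      · exact h
  refine ⟨L, P, t, m, fun l => ⟨(h1 l).1, (h1 l).2.1, (lt_add hi).trans_le (h1 l).2.2.1,
    (h1 l).2.2.1 (Ideal.mem_sup_right (Ideal.subset_span rfl)), (h1 l).2.2.2⟩, ?_, ?_⟩
  · intro M hM hMt
    obtain ⟨h5, -⟩ := ext_step hQ hX hP hM
    rw [h5, h2 M hMt, add_comm]
  · intro r
    induction r with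
    | zero =>
      intro κ0 _ u κ _ h hu _
      rw [Fintype.linearIndependent_iff] at hu ⊢
      intro c hc
      have h6 := hu (fun s => c (Sum.inl s)) (by
        rw [← hc, Fintype.sum_sum_type, Fintype.sum_sigma, Finset.univ_eq_empty (α := Fin 0),
          Finset.sum_empty, add_zero]
        refine Finset.sum_congr rfl fun s _ => ?_
        rw [Sum.elim_inl, pow_zero, one_mul])
      rintro (s | ⟨n, -⟩)
      · exact h6 s
      · exact n.elim0
    | succ r ih =>
      intro κ0 _ u κ _ h hu hh
      have h4 := ih κ0 u (fun n l => κ n.castSucc l) (fun n l => h n.castSucc l) hu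
        (fun n l => hh n.castSucc l)
      have h5 := h3 (fun l => κ (Fin.last r) l) (fun l => h (Fin.last r) l)
        (fun l => hh (Fin.last r) l)
      have h6 := indep hP h5 h4
      rw [Fintype.linearIndependent_iff] at h6 ⊢
      intro c hc
      have h7 := h6 (Sum.elim (fun s => c (Sum.inr ⟨Fin.last r, s⟩))
        (Sum.elim (fun s => c (Sum.inl s)) (fun s => c (Sum.inr ⟨s.1.castSucc, s.2⟩)))) (by
          rw [← hc, Fintype.sum_sum_type, Fintype.sum_sum_type, Fintype.sum_sum_type,
            Fintype.sum_sigma (fun s : (Σ n : Fin (r + 1), Σ l : Fin L, κ n l) => _),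
            Fin.sum_univ_castSucc,
            Fintype.sum_sigma (fun s : (Σ n : Fin r, Σ l : Fin L, κ n.castSucc l) => _)]
          simp only [Sum.elim_inl, Sum.elim_inr]
          have e1 : ∀ s : κ0, X i * (X i ^ r * u s) = X i ^ (r + 1) * u s := fun s => by ring
          have e2 : ∀ (n : Fin r) (x : MvPolynomial (Fin q) K),
              X i * (X i ^ (r - 1 - (n : ℕ)) * x) =
                X i ^ (r + 1 - 1 - ((n.castSucc : Fin (r + 1)) : ℕ)) * x := fun n x => by
            have h8 : r + 1 - 1 - ((n.castSucc : Fin (r + 1)) : ℕ) = (r - 1 - (n : ℕ)) + 1 := by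
              have := n.2
              rw [Fin.val_castSucc]
              omega
            rw [h8, pow_succ]
            ring
          have e3 : ∀ x : MvPolynomial (Fin q) K,
              X i ^ (r + 1 - 1 - ((Fin.last r : Fin (r + 1)) : ℕ)) * x = x := fun x => by
            rw [Fin.val_last, Nat.add_sub_cancel, Nat.sub_self, pow_zero, one_mul]
          simp only [e1, e2, e3]
          abel)
      rintro (s | ⟨n, s⟩)
      · exact h7 (Sum.inr (Sum.inl s))
      · revert s
        refine Fin.lastCases ?_ (fun n => ?_) n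
        · intro s
          exact h7 (Sum.inl s)
        · intro s
          exact h7 (Sum.inr (Sum.inr ⟨n, s⟩))

end Pool.Agent.H345.Noc
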