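import Pool.Agent.H426.Noc.Defs
import Pool.Graph.R_seed8.TH875.Cm3

/-!
N8. The Hilbert function and the transcendence degree.
-/

set_option autoImplicit false

namespace Pool.Agent.H30.Noc8

open MvPolynomial Finset Module
open Pool.Agent.TH875 (VM)

/-- algebraically independent classes of variables -/
theorem exists_vars {K : Type} [Field K] {q ν : ℕ} {P : Ideal (MvPolynomial (Fin q) K)}
    (hP : P.IsPrime) (hν : (ν : Cardinal) + 1 ≤ Algebra.trdeg K (MvPolynomial (Fin q) K ⧸ P)) :
    ∃ k : Fin (ν + 1) → Fin q,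
      AlgebraicIndependent K (fun i => Ideal.Quotient.mkₐ K P (X (k i))) := by
  classical
  have : IsDomain (MvPolynomial (Fin q) K ⧸ P) := Ideal.Quotient.isDomain P
  have htop : Algebra.adjoin K (Set.range fun j : Fin q => Ideal.Quotient.mkₐ K P (X j)) = ⊤ := by
    have h1 : (Set.range fun j : Fin q => Ideal.Quotient.mkₐ K P (X j)) =
        (Ideal.Quotient.mkₐ K P) '' (Set.range (X : Fin q → MvPolynomial (Fin q) K)) := by
      rw [← Set.range_comp]
      rfl
    rw [h1, ← AlgHom.map_adjoin, MvPolynomial.adjoin_range_X, Algebra.map_top]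
    exact (AlgHom.range_eq_top _).2 (Ideal.Quotient.mkₐ_surjective K P)
  have : Algebra.IsAlgebraic
      (Algebra.adjoin K (Set.range fun j : Fin q => Ideal.Quotient.mkₐ K P (X j)))
      (MvPolynomial (Fin q) K ⧸ P) := by
    refine ⟨fun a => ?_⟩
    have ha : a ∈ Algebra.adjoin K (Set.range fun j : Fin q => Ideal.Quotient.mkₐ K P (X j)) := by
      rw [htop]
      exact Algebra.mem_top
    exact isAlgebraic_algebraMap (⟨a, ha⟩ :
      Algebra.adjoin K (Set.range fun j : Fin q => Ideal.Quotient.mkₐ K P (X j)))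
  have hfs : @FaithfulSMul K (MvPolynomial (Fin q) K ⧸ P) Algebra.toSMul :=
    (faithfulSMul_iff_algebraMap_injective K (MvPolynomial (Fin q) K ⧸ P)).2
      (algebraMap K (MvPolynomial (Fin q) K ⧸ P)).injective
  obtain ⟨t, ht, hb⟩ := exists_isTranscendenceBasis_subset (R := K)
    (Set.range fun j : Fin q => Ideal.Quotient.mkₐ K P (X j))
  have hfin : t.Finite := (Set.finite_range _).subset ht
  let _ : Fintype t := hfin.fintype
  rw [← hb.cardinalMk_eq_trdeg, Cardinal.mk_fintype] at hν
  have hcard : ν + 1 ≤ Fintype.card t := by exact_mod_cast hν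
  have hcard' : Fintype.card (Fin (ν + 1)) ≤ Fintype.card t := by
    rw [Fintype.card_fin]
    exact hcard
  obtain ⟨w⟩ := Function.Embedding.nonempty_of_card_le hcard'
  choose g hg using fun a : t => ht a.2
  refine ⟨fun i => g (w i), ?_⟩
  have h2 := hb.1.comp w w.injective
  have h3 : (fun i => Ideal.Quotient.mkₐ K P (X (g (w i)))) = ((↑) : t → _) ∘ w := by
    funext i
    exact hg (w i)
  rw [h3]
  exact h2

/-- N8. The Hilbert function and the transcendence degree. -/
theorem hilb_trdeg {K : Type} [Field K] {q ν : ℕ} {P : Ideal (MvPolynomial (Fin q) K)}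
    (hP : P.IsPrime) (hν : (ν : Cardinal) + 1 ≤ Algebra.trdeg K (MvPolynomial (Fin q) K ⧸ P))
    (M : ℕ) : (M : ℝ) ^ ν / (ν.factorial : ℝ) ≤ finrank K (VM P M) := by
  classical
  obtain ⟨k, hk⟩ := exists_vars hP hν
  have h1 := (MvPolynomial.basisMonomials (Fin (ν + 1)) K).linearIndependent.map'
    (aeval (fun i => Ideal.Quotient.mkₐ K P (X (k i)))).toLinearMap
    (LinearMap.ker_eq_bot.2 hk)
  -- the monomials of degree `M`
  have hval : ∀ m : Fin (ν + 1) →₀ ℕ, m ∈ finsuppAntidiag (univ : Finset (Fin (ν + 1))) M →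
      (aeval (fun i => Ideal.Quotient.mkₐ K P (X (k i)))) (basisMonomials (Fin (ν + 1)) K m) ∈
        VM P M := by
    intro m hm
    rw [mem_finsuppAntidiag] at hm
    have h2 : (aeval (fun i => Ideal.Quotient.mkₐ K P (X (k i))))
        (basisMonomials (Fin (ν + 1)) K m) =
        (Ideal.Quotient.mkₐ K P) (∏ i : Fin (ν + 1), (X (k i) : MvPolynomial (Fin q) K) ^ m i) := by
      rw [coe_basisMonomials, aeval_monomial, map_one, one_mul, map_prod,
        Finsupp.prod_fintype _ _ (fun i => pow_zero _)]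
      simp only [map_pow]
    rw [h2]
    refine Submodule.mem_map_of_mem (f := (Ideal.Quotient.mkₐ K P).toLinearMap) ?_
    rw [mem_homogeneousSubmodule]
    have h3 := IsHomogeneous.prod (univ : Finset (Fin (ν + 1)))
      (fun i => (X (k i) : MvPolynomial (Fin q) K) ^ m i) (fun i => 1 * m i)
      (fun i _ => (isHomogeneous_X K (k i)).pow (m i))
    have h4 : ∑ i : Fin (ν + 1), 1 * m i = M := by
      simp only [one_mul]
      exact hm.1
    rw [h4] at h3
    exact h3
  have := Pool.Agent.TH875.VM_finite P M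
  let F : (finsuppAntidiag (univ : Finset (Fin (ν + 1))) M) → VM P M := fun m => ⟨_, hval m.1 m.2⟩
  have hF : LinearIndependent K F := by
    apply LinearIndependent.of_comp (VM P M).subtype
    exact h1.comp (fun m : (finsuppAntidiag (univ : Finset (Fin (ν + 1))) M) => m.1)
      Subtype.val_injective
  have hcard := hF.fintype_card_le_finrank
  rw [Fintype.card_coe, card_finsuppAntidiag_nat_eq_choose, Finset.card_univ, Fintype.card_fin,
    show ν + 1 + M - 1 = M + ν by omega, Nat.choose_symm_add] at hcard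
  have hch : (M + 1).ascFactorial ν = ν.factorial * (M + ν).choose ν :=
    Nat.ascFactorial_eq_factorial_mul_choose M ν
  have h5 : M ^ ν ≤ ν.factorial * finrank K (VM P M) := by
    calc M ^ ν ≤ (M + 1) ^ ν := Nat.pow_le_pow_left (Nat.le_succ M) ν
      _ ≤ (M + 1).ascFactorial ν := Nat.pow_succ_le_ascFactorial (M + 1) ν
      _ = ν.factorial * (M + ν).choose ν := hch
      _ ≤ _ := Nat.mul_le_mul_left _ hcard
  rw [div_le_iff₀ (by exact_mod_cast ν.factorial_pos), mul_comm]
  exact_mod_cast h5

end Pool.Agent.H30.Noc8
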