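import Pool.Agent.H426.Noc.N1
import Pool.Agent.H426.Noc.N2
import Pool.Agent.H426.Noc.N3
import Pool.Agent.H426.Noc.N4
import Pool.Agent.H426.Noc.N5
import Pool.Agent.H426.Noc.N6
import Pool.Agent.H426.Noc.N8

/-!
Interfaces.
-/

set_option autoImplicit false

namespace Pool.Agent.H426.Noc.Api

open MvPolynomial Finset Module Filter
open Pool.Agent.TH875 (VM)
open Pool.Agent.H426.Ru (HG)
open Pool.Agent.H426.Two (HasB)
open Pool.Agent.H426.Noc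
open scoped Topology

/-- N1. The exchange lemma. -/
theorem hasB_of_weights {K : Type} [Field K] {q : ℕ} {I : Ideal (MvPolynomial (Fin q) K)} {M : ℕ}
    (a : Fin q → ℝ) (ha : ∀ j, 0 ≤ a j) {κ : Type} [Fintype κ] (e : κ → MvPolynomial (Fin q) K)
    (lam : κ → ℝ) (hli : LinearIndependent K (fun s => Ideal.Quotient.mkₐ K I (e s)))
    (hw : ∀ s, Wt I a M (lam s) (e s)) :
    ∃ τ, HasB I M τ ∧ ∑ s, lam s ≤ ∑ j, (τ j : ℝ) * a j :=
  Pool.Agent.H806.Noc1.hasB_of_weights a ha e lam hli hw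

/-- N2. Rescaling a finite family: one sum becomes maximal, or only one member remains. -/
theorem balance2 {W : Type} [Fintype W] [Nonempty W] {q : ℕ} (J : Finset (Fin q))
    (a : W → Fin q → ℝ) (ha : ∀ w j, 0 ≤ a w j) (c th : W → ℝ) (hc : ∀ w, 0 ≤ c w)
    (hth : ∀ w, 0 ≤ th w) (hca : ∀ w, c w = 0 → (∀ j ∈ J, a w j = 0) ∧ th w = 0) (B : ℝ)
    (hB : ∑ w, c w ≤ B) (hu : ∀ j ∈ J, ∑ w, a w j ≤ 1) :
    ∃ μ : W → ℝ, (∀ w, 0 ≤ μ w) ∧ ∑ w, μ w * c w ≤ B ∧ (∀ j ∈ J, ∑ w, μ w * a w j ≤ 1) ∧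
      ∑ w, th w ≤ ∑ w, μ w * th w ∧
      ((∃ i ∈ J, ∑ w, μ w * a w i = 1) ∨ ∃ w0, ∀ w, w ≠ w0 → μ w = 0) :=
  Pool.Agent.H806.Noc2.balance2 J a ha c th hc hth hca B hB hu

/-- N3. A lemma of Stolz. -/
theorem stolz (f : ℕ → ℝ) (k : ℕ) (c : ℝ)
    (h : Tendsto (fun n : ℕ => (f (n + 1) - f n) / (n : ℝ) ^ k) atTop (𝓝 c)) :
    Tendsto (fun n : ℕ => f n / (n : ℝ) ^ (k + 1)) atTop (𝓝 (c / (k + 1))) :=
  Pool.Agent.H784.Noc.stolz f k c h

/-- N4. -/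
theorem kth_spec {ι : Type} {k : ℕ} (hk : 1 ≤ k) (J : Finset ι) (a : ι → ℝ) (ha : ∀ j, 0 ≤ a j) :
    0 ≤ kth k J a ∧ (kth k J a = 0 ∨ ∃ T ⊆ J, T.card = k ∧ ∀ j ∈ T, kth k J a ≤ a j) :=
  Pool.Agent.H806.Noc4.kth_spec hk J a ha

/-- N4. -/
theorem top_spec {ι : Type} (k : ℕ) (J : Finset ι) (a : ι → ℝ) :
    0 ≤ top k J a ∧ (∃ T ⊆ J, T.card ≤ k ∧ top k J a = ∑ j ∈ T, a j) ∧
      ∀ T ⊆ J, T.card ≤ k → ∑ j ∈ T, a j ≤ top k J a :=
  Pool.Agent.H806.Noc4.top_spec k J a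

/-- N4. -/
theorem top_mul {ι : Type} (k : ℕ) (J : Finset ι) (a : ι → ℝ) {c : ℝ} (hc : 0 ≤ c) :
    top k J (fun j => c * a j) = c * top k J a :=
  Pool.Agent.H806.Noc4.top_mul k J a hc

/-- N4. The combinatorial inequality. -/
theorem top_step {ι : Type} [DecidableEq ι] {k : ℕ} (J R : Finset ι) (hR : R ⊆ J) {i : ι}
    (hi : i ∈ R) (hk : R.card < k) (a : ι → ℝ) (ha : ∀ j, 0 ≤ a j) :
    top k J a ≤ ∑ j ∈ R, a j + top (k - R.card) (J \ R) a + (max (a i) (kth k J a) - a i) +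
      ((R.card : ℝ) - 1) * kth (k - R.card) (J \ R) a :=
  Pool.Agent.H806.Noc4.top_step J R hR hi hk a ha

/-- N5. Weights are multiplicative. -/
theorem Wt_mul {K : Type} [Field K] {q : ℕ} {I : Ideal (MvPolynomial (Fin q) K)}
    {a : Fin q → ℝ} {M M' : ℕ} {lam lam' : ℝ} {f f' : MvPolynomial (Fin q) K}
    (h : Wt I a M lam f) (h' : Wt I a M' lam' f') : Wt I a (M + M') (lam + lam') (f * f') :=
  Pool.Agent.H294.Noc5.Wt_mul h h'

/-- N5. If the variables in `T` have no common zero, all forms have a large weight. -/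
theorem formal {K : Type} [Field K] {q : ℕ} {I : Ideal (MvPolynomial (Fin q) K)} (hI : HG I)
    (T : Finset (Fin q)) (hT : ∀ Q : Ideal (MvPolynomial (Fin q) K), Q.IsPrime → HG Q → I ≤ Q →
      (∀ j ∈ T, X j ∈ Q) → ∀ k, X k ∈ Q) :
    ∃ m0 : ℕ, ∀ (a : Fin q → ℝ) (g : ℝ), (∀ j, 0 ≤ a j) → 0 ≤ g → (∀ j ∈ T, g ≤ a j) →
      ∀ (k : ℕ) (f : MvPolynomial (Fin q) K), f.IsHomogeneous k →
        Wt I a k (((k : ℝ) - m0) * g) f :=
  Pool.Agent.H294.Noc5.formal hI T hT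

/-- N6. The levels of the filtration by the powers of a variable. -/
theorem prime_levels {K : Type} [Field K] {q : ℕ} {Q : Ideal (MvPolynomial (Fin q) K)} (hQ : HG Q)
    (hp : Q.IsPrime) {i : Fin q} (hi : X i ∉ Q) :
    ∃ (L : ℕ) (P : Fin L → Ideal (MvPolynomial (Fin q) K)) (t : Fin L → ℕ)
      (m : Fin L → MvPolynomial (Fin q) K),
      (∀ l, (P l).IsPrime ∧ HG (P l) ∧ Q < P l ∧ X i ∈ P l ∧ (m l).IsHomogeneous (t l)) ∧
      (∀ M, 1 ≤ M → (∀ l, t l ≤ M) →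
        finrank K (VM Q M) = finrank K (VM Q (M - 1)) + ∑ l, finrank K (VM (P l) (M - t l))) ∧
      ∀ (r : ℕ) (κ0 : Type) [Fintype κ0] (u : κ0 → MvPolynomial (Fin q) K)
        (κ : Fin r → Fin L → Type) [∀ n l, Fintype (κ n l)]
        (h : ∀ n l, κ n l → MvPolynomial (Fin q) K),
        LinearIndependent K (fun s => Ideal.Quotient.mkₐ K Q (u s)) →
        (∀ n l, LinearIndependent K (fun s => Ideal.Quotient.mkₐ K (P l) (h n l s))) →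
        LinearIndependent K (fun s : κ0 ⊕ (Σ n : Fin r, Σ l : Fin L, κ n l) =>
          Ideal.Quotient.mkₐ K Q (Sum.elim (fun s => X i ^ r * u s)
            (fun s => X i ^ (r - 1 - (s.1 : ℕ)) * (m s.2.1 * h s.1 s.2.1 s.2.2)) s)) :=
  Pool.Agent.H345.Noc.prime_levels hQ hp hi

/-- N8. The Hilbert function and the transcendence degree. -/
theorem hilb_trdeg {K : Type} [Field K] {q ν : ℕ} {P : Ideal (MvPolynomial (Fin q) K)}
    (hP : P.IsPrime) (hν : (ν : Cardinal) + 1 ≤ Algebra.trdeg K (MvPolynomial (Fin q) K ⧸ P))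
    (M : ℕ) : (M : ℝ) ^ ν / (ν.factorial : ℝ) ≤ finrank K (VM P M) :=
  Pool.Agent.H30.Noc8.hilb_trdeg hP hν M

end Pool.Agent.H426.Noc.Api
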