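import Pool.Agent.H426.Two.PC

/-!
# Noc S1 (helper426): algebraicity of the coordinates by valuations
-/

set_option autoImplicit false

namespace Pool.Agent.H738.NocS1

open MvPolynomial Finset
open Pool.Agent.H264.TwoT4

/-- variant of `core` for points with large coordinates -/
lemma core2 {K : Type} [Field K] {n m q N δ e : ℕ} (hδ : 1 ≤ δ)
    (G : Fin m → MvPolynomial (Fin n) K) (g : Fin m → ℕ) (hG : ∀ k, (G k).IsHomogeneous (g k))
    (F : Fin q → MvPolynomial (Fin n) K) (hF : ∀ i, (F i).IsHomogeneous e)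
    (hgp : ∀ J : Fin (N + 1) ↪ Fin q, ∀ (E : Type) [Field E] [Algebra K E] (x : Fin n → E),
      (∀ k, aeval x (G k) = 0) → (∀ k, aeval x (F (J k)) = 0) → x = 0)
    {E : Type} [Field E] [Algebra K E] (x : Fin δ → Fin n → E) (hx0 : ∀ s, x s ≠ 0)
    (hxG : ∀ s k, aeval (x s) (G k) = 0) (O : ValuationSubring E)
    (hKO : ∀ a : K, algebraMap K E a ∈ O)
    (hk0 : ∀ s, ∃ i, 1 ≤ O.valuation (x s i))
    (J : Finset (Fin q)) (hJ : N * δ < J.card)
    (hJ2 : ∀ j ∈ J, O.valuation (∏ s, aeval (x s) (F j)) < 1) : False := by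
  classical
  have hmax : ∀ s, ∃ i, ∀ i', O.valuation (x s i') ≤ O.valuation (x s i) := by
    intro s
    obtain ⟨i1, hi1⟩ := Function.ne_iff.1 (hx0 s)
    have : Nonempty (Fin n) := ⟨i1⟩
    exact Finite.exists_max fun i => O.valuation (x s i)
  choose im him using hmax
  have hc0 : ∀ s, x s (im s) ≠ 0 := by
    intro s h
    obtain ⟨i1, hi1⟩ := Function.ne_iff.1 (hx0 s)
    have h1 := him s i1
    rw [h, map_zero, le_zero_iff, map_eq_zero] at h1
    exact hi1 h1
  obtain ⟨y, hy⟩ : ∃ y : Fin δ → Fin n → E, ∀ s i, y s i = x s i / x s (im s) :=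
    ⟨fun s i => x s i / x s (im s), fun _ _ => rfl⟩
  have hxy : ∀ s, x s = fun i => x s (im s) * y s i := by
    intro s
    funext i
    rw [hy, mul_div_cancel₀ _ (hc0 s)]
  have hyO : ∀ s i, y s i ∈ O := by
    intro s i
    rw [← ValuationSubring.valuation_le_one_iff, hy, map_div₀]
    exact div_le_one_of_le₀ (him s i) zero_le
  have hy1 : ∀ s, y s (im s) = 1 := fun s => by rw [hy, div_self (hc0 s)]
  have hsc : ∀ s (t : ℕ) (p : MvPolynomial (Fin n) K), p.IsHomogeneous t →
      aeval (x s) p = x s (im s) ^ t * aeval (y s) p := by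
    intro s t p hp
    have h1 := scale (x s (im s)) (y s) p hp
    rw [← hxy s] at h1
    exact h1
  -- the coefficients
  obtain ⟨κ, hκ⟩ : ∃ κ : K →+* O, ∀ a, ((κ a : O) : E) = algebraMap K E a :=
    ⟨(algebraMap K E).codRestrict O.toSubring hKO, fun _ => rfl⟩
  obtain ⟨yO, hyO'⟩ : ∃ yO : Fin δ → Fin n → O, ∀ s i, ((yO s i : O) : E) = y s i :=
    ⟨fun s i => ⟨y s i, hyO s i⟩, fun _ _ => rfl⟩
  have hev : ∀ s (p : MvPolynomial (Fin n) K),
      ((eval₂ κ (yO s) p : O) : E) = aeval (y s) p := by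
    intro s p
    have h1 := eval₂_comp_left (O.subtype : O →+* E) κ (yO s) p
    have h2 : (O.subtype : O →+* E).comp κ = algebraMap K E := RingHom.ext fun a => hκ a
    have h3 : (O.subtype : O →+* E) ∘ yO s = y s := funext fun i => hyO' s i
    rw [h2, h3] at h1
    rw [aeval_def]
    exact h1
  have hvle : ∀ s (p : MvPolynomial (Fin n) K), O.valuation (aeval (y s) p) ≤ 1 := by
    intro s p
    rw [ValuationSubring.valuation_le_one_iff, ← hev]
    exact (eval₂ κ (yO s) p : O).2
  have hprod : ∀ j, O.valuation (∏ s, aeval (x s) (F j)) =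
      (∏ s, O.valuation (x s (im s))) ^ e * ∏ s, O.valuation (aeval (y s) (F j)) := by
    intro j
    rw [map_prod, ← Finset.prod_pow, ← Finset.prod_mul_distrib]
    refine Finset.prod_congr rfl fun s _ => ?_
    rw [hsc s e (F j) (hF j), map_mul, map_pow]
  have hc1 : 1 ≤ (∏ s, O.valuation (x s (im s))) ^ e := by
    refine one_le_pow₀ (Finset.one_le_prod' fun s _ => ?_)
    obtain ⟨i, hi⟩ := hk0 s
    exact hi.trans (him s i)
  have hs : ∀ j ∈ J, ∃ s, O.valuation (aeval (y s) (F j)) < 1 := by
    intro j hj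
    by_contra hcon
    push Not at hcon
    have h1 := hJ2 j hj
    rw [hprod] at h1
    exact absurd (one_le_mul hc1 (Finset.one_le_prod' fun s _ => hcon s)) (not_le.2 h1)
  have hne : Nonempty (Fin δ) := ⟨⟨0, hδ⟩⟩
  choose! sj hsj using hs
  obtain ⟨s0, -, hs0⟩ := Finset.exists_lt_card_fiber_of_mul_lt_card_of_maps_to
    (s := J) (t := (Finset.univ : Finset (Fin δ))) (f := sj) (n := N)
    (fun a _ => Finset.mem_univ _) (by rw [Finset.card_univ, Fintype.card_fin, mul_comm]; exact hJ)
  obtain ⟨J', hJ'sub, hJ'card⟩ := Finset.exists_subset_card_eq (Nat.succ_le_of_lt hs0)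
  let emb : Fin (N + 1) ↪ Fin q := (J'.orderEmbOfFin hJ'card).toEmbedding
  have hemb : ∀ k, emb k ∈ J' := fun k => J'.orderEmbOfFin_mem hJ'card k
  let _ : Algebra K (IsLocalRing.ResidueField O) := ((IsLocalRing.residue O).comp κ).toAlgebra
  have hres : ∀ p : MvPolynomial (Fin n) K,
      IsLocalRing.residue O (eval₂ κ (yO s0) p) =
        aeval (fun i => IsLocalRing.residue O (yO s0 i)) p := by
    intro p
    have h1 := eval₂_comp_left (IsLocalRing.residue O) κ (yO s0) p
    rw [aeval_def]
    exact h1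
  have h0 := hgp emb (IsLocalRing.ResidueField O) (fun i => IsLocalRing.residue O (yO s0 i))
    (by
      intro k
      rw [← hres]
      have h1 : aeval (y s0) (G k) = 0 := by
        have h2 := hsc s0 (g k) (G k) (hG k)
        rw [hxG] at h2
        rcases mul_eq_zero.1 h2.symm with h3 | h3
        · exact absurd h3 (pow_ne_zero _ (hc0 s0))
        · exact h3
      have h2 : (eval₂ κ (yO s0) (G k) : O) = 0 := by
        apply Subtype.ext
        rw [hev, h1]
        rfl
      rw [h2, map_zero])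
    (by
      intro k
      rw [← hres]
      have h1 := Finset.mem_filter.1 (hJ'sub (hemb k))
      have h2 := hsj (emb k) h1.1
      rw [h1.2, ← hev] at h2
      exact (IsLocalRing.residue_eq_zero_iff _).2
        ((ValuationSubring.valuation_lt_one_iff O _).2 h2))
  have h1 := congrFun h0 (im s0)
  have h2 : yO s0 (im s0) = 1 := by
    apply Subtype.ext
    rw [hyO', hy1]
    rfl
  simp only [h2, map_one, Pi.zero_apply] at h1
  exact one_ne_zero h1

/-- S1. The coordinates of the first point are algebraic over the products of the values. -/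
theorem alg_val {K : Type} [Field K] {n m q N δ e : ℕ} (hδ : 1 ≤ δ) (he : 1 ≤ e)
    (hq : N * δ < q)
    (G : Fin m → MvPolynomial (Fin n) K) (g : Fin m → ℕ) (hG : ∀ k, (G k).IsHomogeneous (g k))
    (F : Fin q → MvPolynomial (Fin n) K) (hF : ∀ i, (F i).IsHomogeneous e)
    (hgp : ∀ J : Fin (N + 1) ↪ Fin q, ∀ (E : Type) [Field E] [Algebra K E] (x : Fin n → E),
      (∀ k, aeval x (G k) = 0) → (∀ k, aeval x (F (J k)) = 0) → x = 0)
    {E : Type} [Field E] [Algebra K E] (x : Fin δ → Fin n → E) (s0 : Fin δ)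
    (hx0 : ∀ s, x s ≠ 0) (hx1 : ∀ s, s ≠ s0 → ∃ i, x s i = 1)
    (hxG : ∀ s k, aeval (x s) (G k) = 0) (i : Fin n) :
    IsAlgebraic (Algebra.adjoin K (Set.range fun j : Fin q => ∏ s, aeval (x s) (F j)))
      (x s0 i) := by
  classical
  obtain ⟨B, hB⟩ : ∃ B : Subalgebra K E,
      B = Algebra.adjoin K (Set.range fun j : Fin q => ∏ s, aeval (x s) (F j)) := ⟨_, rfl⟩
  rw [← hB]
  have hyB : ∀ j, ∏ s, aeval (x s) (F j) ∈ B := by
    intro j
    rw [hB]
    exact Algebra.subset_adjoin ⟨j, rfl⟩
  -- all valuation rings which contain `B` contain the coordinate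
  have key : ∀ O : ValuationSubring E, (B : Set E) ⊆ O.toSubring → x s0 i ∈ O := by
    intro O hO
    by_contra hz
    have hKO : ∀ a : K, algebraMap K E a ∈ O := fun a => hO (B.algebraMap_mem a)
    have hz1 : 1 < O.valuation (x s0 i) := by
      rw [← not_le, ValuationSubring.valuation_le_one_iff]
      exact hz
    have : Nonempty (Fin n) := ⟨i⟩
    obtain ⟨im, him⟩ := Finite.exists_max fun i => O.valuation (x s0 i)
    have hl1 : 1 < O.valuation (x s0 im) := hz1.trans_le (him i)
    have hl0 : x s0 im ≠ 0 := by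
      intro h
      rw [h, map_zero] at hl1
      exact absurd hl1 (not_lt.2 zero_le_one)
    obtain ⟨x', hx's0, hx's⟩ : ∃ x' : Fin δ → Fin n → E,
        (x' s0 = fun i => (x s0 im)⁻¹ * x s0 i) ∧ ∀ s, s ≠ s0 → x' s = x s :=
      ⟨fun s => if s = s0 then (fun i => (x s0 im)⁻¹ * x s0 i) else x s, if_pos rfl,
        fun s hs => if_neg hs⟩
    have h1im : x' s0 im = 1 := by
      rw [hx's0]
      exact inv_mul_cancel₀ hl0
    refine core2 hδ G g hG F hF hgp x' ?_ ?_ O hKO ?_ Finset.univ
      (by rw [Finset.card_univ, Fintype.card_fin]; exact hq) ?_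
    · intro s
      by_cases hs : s = s0
      · intro h
        rw [hs] at h
        rw [h] at h1im
        exact zero_ne_one h1im
      · rw [hx's s hs]
        exact hx0 s
    · intro s k
      by_cases hs : s = s0
      · rw [hs, hx's0, scale _ _ (G k) (hG k), hxG, mul_zero]
      · rw [hx's s hs]
        exact hxG s k
    · intro s
      by_cases hs : s = s0
      · refine ⟨im, ?_⟩
        rw [hs, h1im, map_one]
      · obtain ⟨i', hi'⟩ := hx1 s hs
        refine ⟨i', ?_⟩
        rw [hx's s hs, hi', map_one]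
    · intro j _
      have h1 : ∀ s, aeval (x' s) (F j) =
          (if s = s0 then ((x s0 im)⁻¹) ^ e else 1) * aeval (x s) (F j) := by
        intro s
        by_cases hs : s = s0
        · rw [if_pos hs, hs, hx's0, scale _ _ (F j) (hF j)]
        · rw [if_neg hs, one_mul, hx's s hs]
      rw [Finset.prod_congr rfl fun s _ => h1 s, Finset.prod_mul_distrib, Finset.prod_ite_eq',
        if_pos (Finset.mem_univ s0), map_mul, map_pow, map_inv₀]
      have h2 : (O.valuation (x s0 im))⁻¹ < 1 := inv_lt_one_of_one_lt₀ hl1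
      have h3 : ((O.valuation (x s0 im))⁻¹) ^ e < 1 := pow_lt_one₀ zero_le h2 (by omega)
      have h4 : O.valuation (∏ s, aeval (x s) (F j)) ≤ 1 := by
        rw [ValuationSubring.valuation_le_one_iff]
        exact hO (hyB j)
      exact mul_lt_one_of_lt_of_le h3 h4
  -- the coordinate is integral
  have hmem : x s0 i ∈ (⨅ V : {V : ValuationSubring E // (B : Set E) ⊆ V.toSubring},
      V.1.toSubring) := by
    rw [Subring.mem_iInf]
    exact fun V => key V.1 V.2
  rw [iInf_valuationSubring_superset] at hmem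
  have hint : IsIntegral (Subring.closure (B : Set E)) (x s0 i) := hmem
  have hle : Subring.closure (B : Set E) ≤ B.toSubring := Subring.closure_le.2 fun _ h => h
  have hint2 : IsIntegral B (x s0 i) := by
    have h1 : ((algebraMap B E).comp (Subring.inclusion hle)).IsIntegralElem (x s0 i) := hint
    exact h1.of_comp
  exact hint2.isAlgebraic

end Pool.Agent.H738.NocS1
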