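import Mathlib

/-!
# Nochka project: a tuple of points with a generic member (`exists_gen`), for helper426
-/

set_option autoImplicit false

namespace Pool.Agent.H591.NocS2

open MvPolynomial Finset Module

section

variable {K : Type} [Field K] {n δ : ℕ}

/-- The polynomials in the coordinates of the member `s`. -/
noncomputable def blk (s : Fin δ) :
    MvPolynomial (Fin n) K →ₐ[K] MvPolynomial (Fin δ × Fin n) K := rename fun i => (s, i)

lemma ev_blk {E : Type} [Field E] [Algebra K E] (π : MvPolynomial (Fin δ × Fin n) K →ₐ[K] E)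
    (s : Fin δ) (p : MvPolynomial (Fin n) K) :
    π (blk s p) = aeval (fun i => π (X (s, i))) p := by
  have h : π.comp (blk s) = aeval (fun i => π (X (s, i))) := by
    apply MvPolynomial.algHom_ext
    intro i
    rw [AlgHom.comp_apply, blk, rename_X, aeval_X]
  exact DFunLike.congr_fun h p

/-- The values of the products. -/
noncomputable def phi {q : ℕ} (F : Fin q → MvPolynomial (Fin n) K) :
    MvPolynomial (Fin q) K →ₐ[K] MvPolynomial (Fin δ × Fin n) K :=
  aeval fun j => ∏ s, blk s (F j)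

lemma ev_phi {E : Type} [Field E] [Algebra K E] (π : MvPolynomial (Fin δ × Fin n) K →ₐ[K] E)
    {q : ℕ} (F : Fin q → MvPolynomial (Fin n) K) (p : MvPolynomial (Fin q) K) :
    π (phi F p) = aeval (fun j => ∏ s, aeval (fun i => π (X (s, i))) (F j)) p := by
  have h : π.comp (phi F) = aeval (fun j => ∏ s, aeval (fun i => π (X (s, i))) (F j)) := by
    apply MvPolynomial.algHom_ext
    intro j
    rw [AlgHom.comp_apply, phi, aeval_X, aeval_X, map_prod]
    exact Finset.prod_congr rfl fun s _ => ev_blk π s (F j)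
  exact DFunLike.congr_fun h p

/-- The ideal of the conditions. -/
noncomputable def ia {m q : ℕ} (δ : ℕ) (G : Fin m → MvPolynomial (Fin n) K)
    (F : Fin q → MvPolynomial (Fin n) K) (P : Ideal (MvPolynomial (Fin q) K)) :
    Ideal (MvPolynomial (Fin δ × Fin n) K) :=
  Ideal.span ({r | ∃ s k, r = blk s (G k)} ∪ {r | ∃ p ∈ P, r = phi F p})

lemma ev_ia {E : Type} [Field E] [Algebra K E] (π : MvPolynomial (Fin δ × Fin n) K →ₐ[K] E)
    {m q : ℕ} {G : Fin m → MvPolynomial (Fin n) K} {F : Fin q → MvPolynomial (Fin n) K}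
    {P : Ideal (MvPolynomial (Fin q) K)}
    (hG : ∀ s k, aeval (fun i => π (X (s, i))) (G k) = 0)
    (hP : ∀ p ∈ P, aeval (fun j => ∏ s, aeval (fun i => π (X (s, i))) (F j)) p = 0)
    {r : MvPolynomial (Fin δ × Fin n) K} (hr : r ∈ ia δ G F P) : π r = 0 := by
  have h : ia δ G F P ≤ RingHom.ker (π : MvPolynomial (Fin δ × Fin n) K →+* E) := by
    rw [ia, Ideal.span_le]
    rintro x (⟨s, k, rfl⟩ | ⟨p, hp, rfl⟩)
    · rw [SetLike.mem_coe, RingHom.mem_ker]
      exact (ev_blk π s (G k)).trans (hG s k)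
    · rw [SetLike.mem_coe, RingHom.mem_ker]
      exact (ev_phi π F p).trans (hP p hp)
  exact h hr

/-- The multiplicative set of a choice of coordinates. -/
noncomputable def ms {m : ℕ} (G : Fin m → MvPolynomial (Fin n) K)
    (hp : (Ideal.span (Set.range G)).IsPrime) (s0 : Fin δ) (i : Fin δ → Fin n) :
    Submonoid (MvPolynomial (Fin δ × Fin n) K) where
  carrier := {r | ∃ (Z : MvPolynomial (Fin n) K) (d t : ℕ), Z.IsHomogeneous d ∧
    Z ∉ Ideal.span (Set.range G) ∧ r = blk s0 Z * (∏ s, X (s, i s)) ^ t}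
  one_mem' := ⟨1, 0, 0, isHomogeneous_one _ _, fun h => hp.ne_top ((Ideal.eq_top_iff_one _).2 h),
    by rw [map_one, pow_zero, mul_one]⟩
  mul_mem' := by
    rintro a b ⟨Z, d, t, hZ, hZn, rfl⟩ ⟨Z', d', t', hZ', hZn', rfl⟩
    refine ⟨Z * Z', d + d', t + t', hZ.mul hZ', fun h => ?_, ?_⟩
    · rcases hp.mem_or_mem h with h | h
      · exact hZn h
      · exact hZn' h
    · rw [map_mul, pow_add]
      ring

end

/-- S2. A tuple of points whose member `s0` is generic. -/
theorem exists_gen {K : Type} [Field K] {n m q δ e : ℕ}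
    (G : Fin m → MvPolynomial (Fin n) K)
    (hp : (Ideal.span (Set.range G)).IsPrime)
    (F : Fin q → MvPolynomial (Fin n) K) (P : Ideal (MvPolynomial (Fin q) K)) (s0 : Fin δ)
    (h : ∀ (Z : MvPolynomial (Fin n) K) (t : ℕ), Z.IsHomogeneous t →
      Z ∉ Ideal.span (Set.range G) → ∃ (E : Type) (_ : Field E) (_ : Algebra K E)
        (x : Fin δ → Fin n → E), (∀ s, x s ≠ 0) ∧ (∀ s k, aeval (x s) (G k) = 0) ∧
        (∀ p ∈ P, aeval (fun j => ∏ s, aeval (x s) (F j)) p = 0) ∧ aeval (x s0) Z ≠ 0) :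
    ∃ (E : Type) (_ : Field E) (_ : Algebra K E) (x : Fin δ → Fin n → E),
      (∀ s, x s ≠ 0) ∧ (∀ s k, aeval (x s) (G k) = 0) ∧
      (∀ p ∈ P, aeval (fun j => ∏ s, aeval (x s) (F j)) p = 0) ∧
      ∀ (Z : MvPolynomial (Fin n) K) (t : ℕ), Z.IsHomogeneous t →
        Z ∉ Ideal.span (Set.range G) → aeval (x s0) Z ≠ 0 := by
  classical
  by_cases hc : ∃ i : Fin δ → Fin n, Disjoint (ia δ G F P : Set (MvPolynomial (Fin δ × Fin n) K))
      (ms G hp s0 i : Set (MvPolynomial (Fin δ × Fin n) K))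
  · obtain ⟨i, hi⟩ := hc
    obtain ⟨Q, hQ, hle, hdis⟩ := Ideal.exists_le_prime_disjoint (ia δ G F P) (ms G hp s0 i) hi
    have := hQ
    let E : Type := FractionRing (MvPolynomial (Fin δ × Fin n) K ⧸ Q)
    let fE : Field E := inferInstance
    let aE : Algebra K E := ((algebraMap (MvPolynomial (Fin δ × Fin n) K ⧸ Q) E).comp
      (algebraMap K (MvPolynomial (Fin δ × Fin n) K ⧸ Q))).toAlgebra
    let π : MvPolynomial (Fin δ × Fin n) K →ₐ[K] E :=
      { toRingHom := (algebraMap (MvPolynomial (Fin δ × Fin n) K ⧸ Q) E).comp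
          (Ideal.Quotient.mk Q)
        commutes' := fun _ => rfl }
    have hπ : ∀ r, π r = 0 ↔ r ∈ Q := by
      intro r
      have h1 : π r = algebraMap (MvPolynomial (Fin δ × Fin n) K ⧸ Q) E
        (Ideal.Quotient.mk Q r) := rfl
      rw [h1, map_eq_zero_iff _ (IsFractionRing.injective _ _), Ideal.Quotient.eq_zero_iff_mem]
    refine ⟨E, fE, aE, fun s j => π (X (s, j)), ?_, ?_, ?_, ?_⟩
    · intro s hs
      have h1 : π (X (s, i s)) = 0 := congrFun hs (i s)
      have h2 : (∏ s, X (s, i s) : MvPolynomial (Fin δ × Fin n) K) ∈ Q := by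
        rw [← hπ, map_prod]
        exact Finset.prod_eq_zero (Finset.mem_univ s) h1
      have h3 : (∏ s, X (s, i s) : MvPolynomial (Fin δ × Fin n) K) ∈ ms G hp s0 i :=
        ⟨1, 0, 1, isHomogeneous_one _ _, fun h => hp.ne_top ((Ideal.eq_top_iff_one _).2 h),
          by rw [map_one, one_mul, pow_one]⟩
      exact Set.disjoint_left.1 hdis h2 h3
    · intro s k
      rw [← ev_blk π s (G k), hπ]
      exact hle (Ideal.subset_span (Or.inl ⟨s, k, rfl⟩))
    · intro p hpP
      rw [← ev_phi π F p, hπ]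
      exact hle (Ideal.subset_span (Or.inr ⟨p, hpP, rfl⟩))
    · intro Z t hZ hZn hcon
      rw [← ev_blk π s0 Z, hπ] at hcon
      exact Set.disjoint_left.1 hdis hcon
        ⟨Z, t, 0, hZ, hZn, by rw [pow_zero, mul_one]⟩
  · push Not at hc
    have h1 : ∀ i : Fin δ → Fin n, ∃ (Z : MvPolynomial (Fin n) K) (d t : ℕ),
        Z.IsHomogeneous d ∧ Z ∉ Ideal.span (Set.range G) ∧
        blk s0 Z * (∏ s, X (s, i s)) ^ t ∈ ia δ G F P := by
      intro i
      obtain ⟨r, hr1, Z, d, t, hZ, hZn, hr2⟩ := Set.not_disjoint_iff.1 (hc i)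
      exact ⟨Z, d, t, hZ, hZn, hr2 ▸ hr1⟩
    choose Z d t hZ hZn hmem using h1
    have hprod : ∀ S : Finset (Fin δ → Fin n), ∏ i ∈ S, Z i ∉ Ideal.span (Set.range G) := by
      intro S
      induction S using Finset.induction_on with
      | empty =>
        rw [Finset.prod_empty]
        exact fun h => hp.ne_top ((Ideal.eq_top_iff_one _).2 h)
      | insert a S ha ih =>
        rw [Finset.prod_insert ha]
        intro h
        rcases hp.mem_or_mem h with h | h
        · exact hZn a h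
        · exact ih h
    obtain ⟨E, fE, aE, x, hx0, hxG, hxP, hxZ⟩ := h (∏ i, Z i) (∑ i, d i)
      (IsHomogeneous.prod _ _ _ fun i _ => hZ i) (hprod _)
    exfalso
    apply hxZ
    have h2 : ∀ s, ∃ j, x s j ≠ 0 := by
      intro s
      by_contra hcon
      push Not at hcon
      exact hx0 s (funext hcon)
    choose i hi using h2
    let π : MvPolynomial (Fin δ × Fin n) K →ₐ[K] E := aeval fun si => x si.1 si.2
    have hπ : ∀ s j, π (X (s, j)) = x s j := fun s j => aeval_X _ _
    have hπ' : ∀ s, (fun j => π (X (s, j))) = x s := fun s => funext fun j => hπ s j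
    have h3 : π (blk s0 (Z i) * (∏ s, X (s, i s)) ^ t i) = 0 := by
      apply ev_ia π (G := G) (F := F) (P := P)
      · intro s k
        rw [hπ']
        exact hxG s k
      · intro p hpP
        simp only [hπ']
        exact hxP p hpP
      · exact hmem i
    rw [map_mul, map_pow, map_prod, ev_blk, hπ'] at h3
    have h4 : (∏ s, π (X (s, i s))) ^ t i ≠ 0 := by
      apply pow_ne_zero
      rw [Finset.prod_ne_zero_iff]
      intro s _
      rw [hπ]
      exact hi s
    rw [map_prod]
    exact Finset.prod_eq_zero (Finset.mem_univ i) ((mul_eq_zero.1 h3).resolve_right h4)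

end Pool.Agent.H591.NocS2
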