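import Pool.Agent.H426.Ru.Noe

/-! Noc S3: comparison of transcendence degrees. -/

set_option autoImplicit false

namespace Pool.Agent.H539.NocS3

open MvPolynomial Finset Module
open Pool.Agent.H426.Ru (HG)

/-- S3. The comparison of the dimensions. -/
theorem trdeg_lt {K : Type} [Field K] {n q μ : ℕ} {I : Ideal (MvPolynomial (Fin n) K)}
    (hI : HG I) (hp : I.IsPrime)
    (hμ : (μ : Cardinal) < Algebra.trdeg K (MvPolynomial (Fin n) K ⧸ I))
    {P : Ideal (MvPolynomial (Fin q) K)}
    (hP : Algebra.trdeg K (MvPolynomial (Fin q) K ⧸ P) ≤ μ)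
    {E : Type} [Field E] [Algebra K E] (x : Fin n → E) (y : Fin q → E)
    (hxI : ∀ p, aeval x p = 0 ↔ p ∈ I) (hyP : ∀ p ∈ P, aeval y p = 0)
    (halg : ∀ i, IsAlgebraic (Algebra.adjoin K (Set.range y)) (x i)) : False := by
  set B := Algebra.adjoin K (Set.range y) with hB
  let C := Subalgebra.algebraicClosure B E
  -- `C` is algebraic over `B`
  have h1 : Algebra.trdeg K B = Algebra.trdeg K C := by
    have h2 := _root_.trdeg_add_eq K B (A := C)
    rw [trdeg_eq_zero (R := B) (A := C), add_zero] at h2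
    exact h2
  -- `A / I` embeds in `C`
  have hxC : ∀ p : MvPolynomial (Fin n) K, aeval x p ∈ C.restrictScalars K := by
    intro p
    have h3 : aeval x p ∈ (aeval (R := K) x).range := ⟨p, rfl⟩
    rw [← Algebra.adjoin_range_eq_range_aeval] at h3
    refine (Algebra.adjoin_le ?_ : Algebra.adjoin K (Set.range x) ≤ C.restrictScalars K) h3
    rintro _ ⟨i, rfl⟩
    exact halg i
  let f : MvPolynomial (Fin n) K →ₐ[K] C.restrictScalars K :=
    (aeval (R := K) x).codRestrict (C.restrictScalars K) hxC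
  have hf : ∀ p, f p = 0 ↔ p ∈ I := by
    intro p
    rw [← hxI p]
    exact Subtype.ext_iff
  let f' : (MvPolynomial (Fin n) K ⧸ I) →ₐ[K] C.restrictScalars K :=
    Ideal.Quotient.liftₐ I f fun p hp => (hf p).2 hp
  have hf' : Function.Injective f' := by
    rw [injective_iff_map_eq_zero]
    intro a
    obtain ⟨p, rfl⟩ := Ideal.Quotient.mk_surjective a
    intro h
    exact Ideal.Quotient.eq_zero_iff_mem.2 ((hf p).1 h)
  have h4 : Algebra.trdeg K (MvPolynomial (Fin n) K ⧸ I) ≤ Algebra.trdeg K (C.restrictScalars K) :=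
    _root_.trdeg_le_of_injective f' hf'
  -- `MvPolynomial (Fin q) K / P` maps onto `B`
  have hyB : ∀ p : MvPolynomial (Fin q) K, aeval y p ∈ B := by
    intro p
    rw [hB, Algebra.adjoin_range_eq_range_aeval]
    exact ⟨p, rfl⟩
  let g : MvPolynomial (Fin q) K →ₐ[K] B := (aeval (R := K) y).codRestrict B hyB
  let g' : (MvPolynomial (Fin q) K ⧸ P) →ₐ[K] B :=
    Ideal.Quotient.liftₐ P g fun p hp => Subtype.ext (hyP p hp)
  have hg' : Function.Surjective g' := by
    rintro ⟨b, hb⟩
    have hb' := hb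
    rw [hB, Algebra.adjoin_range_eq_range_aeval] at hb'
    obtain ⟨p, hp⟩ := hb'
    exact ⟨Ideal.Quotient.mk P p, Subtype.ext hp⟩
  have h5 : Algebra.trdeg K B ≤ Algebra.trdeg K (MvPolynomial (Fin q) K ⧸ P) :=
    _root_.trdeg_le_of_surjective g' hg'
  have h6 : Algebra.trdeg K (C.restrictScalars K) = Algebra.trdeg K C := rfl
  rw [h6, ← h1] at h4
  exact absurd (hμ.trans_le (h4.trans (h5.trans hP))) (lt_irrefl _)

end Pool.Agent.H539.NocS3
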