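import Pool.Agent.H426.Noc.Defs
import Pool.Agent.H426.Noc.S1
import Pool.Agent.H426.Noc.S2
import Pool.Agent.H426.Noc.S3

/-!
Interfaces, second part.
-/

set_option autoImplicit false

namespace Pool.Agent.H426.Noc.Api2

open MvPolynomial Finset Module
open Pool.Agent.TH875 (VM)
open Pool.Agent.H426.Ru (HG)
open Pool.Agent.H426.Two
open Pool.Agent.H426.Noc

/-- S1. The coordinates of the first point are algebraic over the products of the values. -/
theorem alg_val {K : Type} [Field K] {n m q N δ e : ℕ} (hδ : 1 ≤ δ) (he : 1 ≤ e)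
    (hq : N * δ < q)
    (G : Fin m → MvPolynomial (Fin n) K) (g : Fin m → ℕ) (hG : ∀ k, (G k).IsHomogeneous (g k))
    (F : Fin q → MvPolynomial (Fin n) K) (hF : ∀ i, (F i).IsHomogeneous e)
    (hgp : ∀ J : Fin (N + 1) ↪ Fin q, ∀ (E : Type) [Field E] [Algebra K E] (x : Fin n → E),
      (∀ k, aeval x (G k) = 0) → (∀ k, aeval x (F (J k)) = 0) → x = 0)
    {E : Type} [Field E] [Algebra K E] (x : Fin δ → Fin n → E) (s0 : Fin δ)
    (hx0 : ∀ s, x s ≠ 0) (hx1 : ∀ s, s ≠ s0 → ∃ i, x s i = 1)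
    (hxG : ∀ s k, aeval (x s) (G k) = 0) (i : Fin n) :
    IsAlgebraic (Algebra.adjoin K (Set.range fun j : Fin q => ∏ s, aeval (x s) (F j)))
      (x s0 i) :=
  Pool.Agent.H738.NocS1.alg_val hδ he hq G g hG F hF hgp x s0 hx0 hx1 hxG i

/-- S2. A tuple of points whose member `s0` is generic. -/
theorem exists_gen {K : Type} [Field K] {n m q δ e : ℕ}
    (G : Fin m → MvPolynomial (Fin n) K)
    (hp : (Ideal.span (Set.range G)).IsPrime)
    (F : Fin q → MvPolynomial (Fin n) K) (P : Ideal (MvPolynomial (Fin q) K)) (s0 : Fin δ)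
    (h : ∀ (Z : MvPolynomial (Fin n) K) (t : ℕ), Z.IsHomogeneous t →
      Z ∉ Ideal.span (Set.range G) → ∃ (E : Type) (_ : Field E) (_ : Algebra K E)
        (x : Fin δ → Fin n → E), (∀ s, x s ≠ 0) ∧ (∀ s k, aeval (x s) (G k) = 0) ∧
        (∀ p ∈ P, aeval (fun j => ∏ s, aeval (x s) (F j)) p = 0) ∧ aeval (x s0) Z ≠ 0) :
    ∃ (E : Type) (_ : Field E) (_ : Algebra K E) (x : Fin δ → Fin n → E),
      (∀ s, x s ≠ 0) ∧ (∀ s k, aeval (x s) (G k) = 0) ∧
      (∀ p ∈ P, aeval (fun j => ∏ s, aeval (x s) (F j)) p = 0) ∧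
      ∀ (Z : MvPolynomial (Fin n) K) (t : ℕ), Z.IsHomogeneous t →
        Z ∉ Ideal.span (Set.range G) → aeval (x s0) Z ≠ 0 :=
  Pool.Agent.H591.NocS2.exists_gen (e := e) G hp F P s0 h

/-- S3. The comparison of the dimensions. -/
theorem trdeg_lt {K : Type} [Field K] {n q μ : ℕ} {I : Ideal (MvPolynomial (Fin n) K)}
    (hI : HG I) (hp : I.IsPrime)
    (hμ : (μ : Cardinal) < Algebra.trdeg K (MvPolynomial (Fin n) K ⧸ I))
    {P : Ideal (MvPolynomial (Fin q) K)}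
    (hP : Algebra.trdeg K (MvPolynomial (Fin q) K ⧸ P) ≤ μ)
    {E : Type} [Field E] [Algebra K E] (x : Fin n → E) (y : Fin q → E)
    (hxI : ∀ p, aeval x p = 0 ↔ p ∈ I) (hyP : ∀ p ∈ P, aeval y p = 0)
    (halg : ∀ i, IsAlgebraic (Algebra.adjoin K (Set.range y)) (x i)) : False :=
  Pool.Agent.H539.NocS3.trdeg_lt hI hp hμ hP x y hxI hyP halg

end Pool.Agent.H426.Noc.Api2
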