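import Pool.Agent.H426.Two.Filt

/-!
Definitions: weights of forms modulo an ideal, the largest values of a vector.
-/

set_option autoImplicit false

namespace Pool.Agent.H426.Noc

open MvPolynomial Finset Module
open Pool.Agent.TH875 (VM)
open Pool.Agent.H426.Ru (HG)
open Pool.Agent.H426.Two (HasB)

/-- `Wt I a M lam f`: modulo the ideal `I`, `f` is a combination of forms
`(∏ j, X j ^ α j) * g` of degree `M` (with `g` a form) of weight `∑ j, α j * a j ≥ lam`. -/
def Wt {K : Type} [Field K] {q : ℕ} (I : Ideal (MvPolynomial (Fin q) K)) (a : Fin q → ℝ) (M : ℕ)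
    (lam : ℝ) (f : MvPolynomial (Fin q) K) : Prop :=
  f ∈ Submodule.span K {p : MvPolynomial (Fin q) K | ∃ (α : Fin q → ℕ) (e : ℕ)
    (g : MvPolynomial (Fin q) K), g.IsHomogeneous e ∧ ∑ j, α j + e = M ∧
      lam ≤ ∑ j, (α j : ℝ) * a j ∧ p = (∏ j, X j ^ α j) * g} ⊔ I.restrictScalars K

/-- the largest sum of at most `k` values on `J` -/
noncomputable def top {ι : Type} (k : ℕ) (J : Finset ι) (a : ι → ℝ) : ℝ :=
  sSup {t | ∃ T ⊆ J, T.card ≤ k ∧ t = ∑ j ∈ T, a j}

/-- the `k`-th largest value on `J` (or `0`) -/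
noncomputable def kth {ι : Type} (k : ℕ) (J : Finset ι) (a : ι → ℝ) : ℝ :=
  sSup (insert 0 {t | ∃ T ⊆ J, T.card = k ∧ ∀ j ∈ T, t ≤ a j})

end Pool.Agent.H426.Noc
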