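import Pool.Agent.H426.Noc.Api

/-!
The growth of the Hilbert functions.
-/

set_option autoImplicit false

namespace Pool.Agent.H426.Noc

open MvPolynomial Finset Module Filter
open Pool.Agent.TH875 (VM)
open Pool.Agent.H426.Ru (HG)
open Pool.Agent.H426.Two
open Api
open scoped Topology

lemma tendsto_ratio (s t : ℕ) :
    Tendsto (fun n : ℕ => ((n + s - t : ℕ) : ℝ) / (n : ℝ)) atTop (𝓝 1) := by
  have h1 : Tendsto (fun n : ℕ => 1 + ((s : ℝ) - t) / (n : ℝ)) atTop (𝓝 (1 + 0)) :=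
    tendsto_const_nhds.add (tendsto_const_div_atTop_nhds_zero_nat _)
  rw [add_zero] at h1
  refine h1.congr' ?_
  filter_upwards [eventually_ge_atTop (t + 1)] with n hn
  have h2 : (0 : ℝ) < n := by exact_mod_cast (by omega : 0 < n)
  rw [Nat.cast_sub (by omega), Nat.cast_add]
  field_simp
  ring

lemma tendsto_shift {g : ℕ → ℝ} {k : ℕ} {c : ℝ}
    (h : Tendsto (fun n : ℕ => g n / (n : ℝ) ^ k) atTop (𝓝 c)) (s t : ℕ) :
    Tendsto (fun n : ℕ => g (n + s - t) / (n : ℝ) ^ k) atTop (𝓝 c) := by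
  have h1 : Tendsto (fun n : ℕ => n + s - t) atTop atTop :=
    tendsto_atTop_atTop.2 fun b => ⟨b + t, fun n hn => by omega⟩
  have h2 := (h.comp h1).mul ((tendsto_ratio s t).pow k)
  rw [one_pow, mul_one] at h2
  refine h2.congr' ?_
  filter_upwards [eventually_ge_atTop (t + 1)] with n hn
  have h3 : (0 : ℝ) < ((n + s - t : ℕ) : ℝ) := by exact_mod_cast (by omega : 0 < n + s - t)
  have h4 : (0 : ℝ) < n := by exact_mod_cast (by omega : 0 < n)
  simp only [Function.comp]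
  rw [div_pow]
  field_simp

lemma tendsto_lower {g : ℕ → ℝ} {k k' : ℕ} {c : ℝ} (hk : k < k')
    (h : Tendsto (fun n : ℕ => g n / (n : ℝ) ^ k) atTop (𝓝 c)) :
    Tendsto (fun n : ℕ => g n / (n : ℝ) ^ k') atTop (𝓝 0) := by
  have h1 : Tendsto (fun M : ℕ => ((M : ℝ) ^ (k' - k))⁻¹) atTop (𝓝 0) :=
    ((tendsto_pow_atTop (by omega)).comp tendsto_natCast_atTop_atTop).inv_tendsto_atTop
  have h2 := h.mul h1
  rw [mul_zero] at h2
  refine h2.congr' ?_
  filter_upwards [eventually_ge_atTop 1] with M hM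
  have h4 : (0 : ℝ) < M := by exact_mod_cast hM
  have h5 : (M : ℝ) ^ k' = (M : ℝ) ^ k * (M : ℝ) ^ (k' - k) := by
    rw [← pow_add]
    congr 1
    omega
  rw [h5]
  field_simp

lemma tendsto_raise {g : ℕ → ℝ} {k : ℕ} {c : ℝ}
    (h : Tendsto (fun n : ℕ => g n / (n : ℝ) ^ k) atTop (𝓝 c)) :
    Tendsto (fun n : ℕ => ((n : ℝ) * g n) / (n : ℝ) ^ (k + 1)) atTop (𝓝 c) := by
  refine h.congr' ?_
  filter_upwards [eventually_ge_atTop 1] with M hM
  have h4 : (0 : ℝ) < M := by exact_mod_cast hM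
  rw [pow_succ]
  field_simp

variable {K : Type} [Field K] {q : ℕ}

/-- the Hilbert function of `P` is asymptotic to `c * M ^ ν` -/
def HD (P : Ideal (MvPolynomial (Fin q) K)) (ν : ℕ) (c : ℝ) : Prop :=
  0 < c ∧ Tendsto (fun M : ℕ => (finrank K (VM P M) : ℝ) / (M : ℝ) ^ ν) atTop (𝓝 c)

lemma HD.unique {P : Ideal (MvPolynomial (Fin q) K)} {ν ν' : ℕ} {c c' : ℝ} (h : HD P ν c)
    (h' : HD P ν' c') : ν = ν' ∧ c = c' := by
  have key : ∀ (ν ν' : ℕ) (c c' : ℝ), HD P ν c → HD P ν' c' → ¬ ν < ν' := by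
    intro ν ν' c c' h h' hlt
    exact h'.1.ne' (tendsto_nhds_unique h'.2 (tendsto_lower hlt h.2))
  have h1 : ν = ν' := le_antisymm (not_lt.1 (key _ _ _ _ h' h)) (not_lt.1 (key _ _ _ _ h h'))
  subst h1
  exact ⟨rfl, tendsto_nhds_unique h.2 h'.2⟩

/-- the asymptotics of the Hilbert function from the levels -/
lemma hd_step {Q : Ideal (MvPolynomial (Fin q) K)} (hp : Q.IsPrime) (hrel : ∃ k, X k ∉ Q)
    {L : ℕ} {P : Fin L → Ideal (MvPolynomial (Fin q) K)} {t : Fin L → ℕ}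
    (hst : ∀ M, 1 ≤ M → (∀ l, t l ≤ M) →
        finrank K (VM Q M) = finrank K (VM Q (M - 1)) + ∑ l, finrank K (VM (P l) (M - t l)))
    (ν : Fin L → ℕ) (c : Fin L → ℝ) (hl : ∀ l, (∃ k, X k ∉ P l) → HD (P l) (ν l) (c l)) :
    ∃ (ν' : ℕ) (c' : ℝ), HD Q ν' c' ∧
      ((ν' = 0 ∧ ∀ l k, X k ∈ P l) ∨
       ∃ k, ν' = k + 1 ∧ (∀ l, (∃ j, X j ∉ P l) → ν l ≤ k) ∧
        ∃ A : Finset (Fin L), A.Nonempty ∧ (∀ l ∈ A, (∃ j, X j ∉ P l) ∧ ν l = k) ∧
          ∑ l ∈ A, c l = (k + 1) * c') := by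
  classical
  obtain ⟨k0, hk0⟩ := hrel
  have htT : ∀ l, t l ≤ ∑ l, t l := fun l =>
    Finset.single_le_sum (f := t) (fun _ _ => Nat.zero_le _) (Finset.mem_univ l)
  by_cases hall : ∀ l k, X k ∈ P l
  · have h1 : ∀ M, ∑ l, t l ≤ M → finrank K (VM Q M) = finrank K (VM Q (∑ l, t l)) := by
      intro M hM
      induction M, hM using Nat.le_induction with
      | base => rfl
      | succ M hM ih =>
        rw [hst (M + 1) (by omega) fun l => (htT l).trans (by omega), ← ih]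
        have h2 : ∑ l, finrank K (VM (P l) (M + 1 - t l)) = 0 := by
          refine Finset.sum_eq_zero fun l _ => finrank_irrel (hall l) ?_
          have := htT l
          omega
        rw [h2, add_zero]
        rfl
    refine ⟨0, finrank K (VM Q (∑ l, t l)), ⟨?_, ?_⟩, Or.inl ⟨rfl, hall⟩⟩
    · exact_mod_cast one_le_finrank hp hk0 _
    · refine tendsto_const_nhds.congr' ?_
      filter_upwards [eventually_ge_atTop (∑ l, t l)] with M hM
      rw [pow_zero, div_one, h1 M hM]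
  · push Not at hall
    obtain ⟨l0, j0, hj0⟩ := hall
    obtain ⟨l1, hl1, hmax⟩ := Finset.exists_max_image
      (univ.filter (fun l => ∃ j, X j ∉ P l)) ν ⟨l0, by simpa using ⟨j0, hj0⟩⟩
    set k := ν l1 with hk
    have hle : ∀ l, (∃ j, X j ∉ P l) → ν l ≤ k := fun l hl' =>
      hmax l (Finset.mem_filter.2 ⟨Finset.mem_univ _, hl'⟩)
    set A : Finset (Fin L) := univ.filter (fun l => (∃ j, X j ∉ P l) ∧ ν l = k) with hA
    have hl1A : l1 ∈ A := by
      rw [hA, Finset.mem_filter]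
      exact ⟨Finset.mem_univ _, (Finset.mem_filter.1 hl1).2, rfl⟩
    have hApos : 0 < ∑ l ∈ A, c l :=
      Finset.sum_pos (fun l hlA => (hl l (Finset.mem_filter.1 hlA).2.1).1) ⟨l1, hl1A⟩
    have hlim : ∀ l, Tendsto (fun n : ℕ => (finrank K (VM (P l) (n + 1 - t l)) : ℝ) / (n : ℝ) ^ k)
        atTop (𝓝 (if l ∈ A then c l else 0)) := by
      intro l
      refine tendsto_shift (g := fun m => (finrank K (VM (P l) m) : ℝ)) ?_ 1 (t l)
      by_cases hlr : ∃ j, X j ∉ P l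
      · rcases (hle l hlr).lt_or_eq with h | h
        · rw [if_neg fun hlA => h.ne (Finset.mem_filter.1 hlA).2.2]
          exact tendsto_lower h (hl l hlr).2
        · rw [if_pos (Finset.mem_filter.2 ⟨Finset.mem_univ _, hlr, h⟩), ← h]
          exact (hl l hlr).2
      · rw [if_neg fun hlA => hlr (Finset.mem_filter.1 hlA).2.1]
        push Not at hlr
        refine tendsto_const_nhds.congr' ?_
        filter_upwards [eventually_ge_atTop 1] with M hM
        rw [finrank_irrel hlr hM, Nat.cast_zero, zero_div]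
    have hlim2 := tendsto_finsetSum (s := (univ : Finset (Fin L))) fun l _ => hlim l
    have hsum : ∑ l, (if l ∈ A then c l else 0) = ∑ l ∈ A, c l := by
      rw [← Finset.sum_filter]
      congr 1
      ext l
      simp
    rw [hsum] at hlim2
    have hlim3 := stolz (fun n => (finrank K (VM Q n) : ℝ)) k _ (hlim2.congr' (by
      filter_upwards [eventually_ge_atTop (∑ l, t l)] with M hM
      rw [hst (M + 1) (by omega) fun l => (htT l).trans (by omega), ← Finset.sum_div]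
      congr 1
      have e : finrank K (VM Q (M + 1 - 1)) = finrank K (VM Q M) := rfl
      rw [e]
      push_cast
      ring))
    have hk1 : (0 : ℝ) < (k : ℝ) + 1 := by positivity
    refine ⟨k + 1, (∑ l ∈ A, c l) / (k + 1), ⟨by positivity, hlim3⟩, Or.inr ⟨k, rfl, hle, A,
      ⟨l1, hl1A⟩, fun l hlA => (Finset.mem_filter.1 hlA).2, ?_⟩⟩
    field_simp

/-- the existence of the asymptotics -/
theorem exists_HD {Q : Ideal (MvPolynomial (Fin q) K)} (hQ : HG Q) (hp : Q.IsPrime)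
    (hrel : ∃ k, X k ∉ Q) : ∃ ν c, HD Q ν c := by
  classical
  induction Q using WellFoundedGT.induction with
  | ind Q ih =>
    obtain ⟨k0, hk0⟩ := hrel
    obtain ⟨L, P, t, hP, hst⟩ := prime_step hQ hp hk0
    have h1 : ∀ l, ∃ (ν : ℕ) (c : ℝ), (∃ k, X k ∉ P l) → HD (P l) ν c := by
      intro l
      by_cases hl : ∃ k, X k ∉ P l
      · obtain ⟨ν, c, h⟩ := ih (P l) (hP l).2.2 (hP l).2.1 (hP l).1 hl
        exact ⟨ν, c, fun _ => h⟩
      · exact ⟨0, 0, fun h => absurd h hl⟩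
    choose ν c h1 using h1
    obtain ⟨ν', c', h2, -⟩ := hd_step hp ⟨k0, hk0⟩ (fun M h h' => (hst M h h').1) ν c h1
    exact ⟨ν', c', h2⟩

/-- the sums over the levels -/
lemma sums_tendsto {Q : Ideal (MvPolynomial (Fin q) K)}
    {L : ℕ} {P : Fin L → Ideal (MvPolynomial (Fin q) K)} {t : Fin L → ℕ}
    (hst : ∀ M, 1 ≤ M → (∀ l, t l ≤ M) →
        finrank K (VM Q M) = finrank K (VM Q (M - 1)) + ∑ l, finrank K (VM (P l) (M - t l)))
    {k : ℕ} {c : ℝ} (hQ : HD Q (k + 1) c) (A : Finset (Fin L)) (cl : Fin L → ℝ)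
    (hA : ∀ l ∈ A, HD (P l) k (cl l)) (hsum : ∑ l ∈ A, cl l = (k + 1) * c) (T : ℕ)
    (hT : ∀ l, t l ≤ T + 1) (m0 : ℝ) {η : ℝ} (hη : 0 < η) :
    ∃ R : ℕ, 1 ≤ R ∧ ∀ r, R ≤ r →
      (1 / (k + 2) - η) * (((T + r : ℕ) : ℝ) * finrank K (VM Q (T + r))) ≤
        ∑ n ∈ range r, ∑ l, (((r : ℝ) - 1 - n) - m0) * finrank K (VM (P l) (T + 1 + n - t l)) ∧
      |∑ n ∈ range r, ∑ l ∈ A, ((T + 1 + n - t l : ℕ) : ℝ) *
          finrank K (VM (P l) (T + 1 + n - t l)) -
        (k + 1) / (k + 2) * (((T + r : ℕ) : ℝ) * finrank K (VM Q (T + r)))| ≤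
        η * (((T + r : ℕ) : ℝ) * finrank K (VM Q (T + r))) := by
  classical
  have hc := hQ.1
  -- the main term
  have hu : Tendsto (fun r : ℕ => (((T + r : ℕ) : ℝ) * finrank K (VM Q (T + r))) /
      (r : ℝ) ^ (k + 2)) atTop (𝓝 c) := by
    have h1 := tendsto_shift (tendsto_raise hQ.2) T 0
    refine h1.congr fun r => ?_
    rw [Nat.sub_zero, Nat.add_comm r T]
  -- the differences
  have hG : ∀ n : ℕ, ∑ l, (finrank K (VM (P l) (T + 1 + n - t l)) : ℝ) =
      finrank K (VM Q (T + (n + 1))) - finrank K (VM Q (T + n)) := by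
    intro n
    have h1 := hst (T + 1 + n) (by omega) fun l => (hT l).trans (by omega)
    have e1 : T + 1 + n - 1 = T + n := by omega
    have e2 : T + (n + 1) = T + 1 + n := by omega
    rw [e1] at h1
    rw [e2, h1]
    push_cast
    ring
  have hGs : ∀ r : ℕ, ∑ n ∈ range r, ∑ l, (finrank K (VM (P l) (T + 1 + n - t l)) : ℝ) =
      finrank K (VM Q (T + r)) - finrank K (VM Q T) := by
    intro r
    rw [Finset.sum_congr rfl fun n _ => hG n]
    exact Finset.sum_range_sub (fun n => (finrank K (VM Q (T + n)) : ℝ)) r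
  -- the asymptotics of the Hilbert function
  have hH : Tendsto (fun r : ℕ => (finrank K (VM Q (T + r)) : ℝ) / (r : ℝ) ^ (k + 1)) atTop
      (𝓝 c) := by
    have h1 := tendsto_shift hQ.2 T 0
    refine h1.congr fun r => ?_
    rw [Nat.sub_zero, Nat.add_comm r T]
  have hconst : ∀ (a : ℝ) (m : ℕ), Tendsto (fun r : ℕ => a / (r : ℝ) ^ (m + 1)) atTop (𝓝 0) := by
    intro a m
    refine tendsto_lower (g := fun _ => a) (k := 0) (c := a) (by omega) ?_
    simp
  have hdiff : Tendsto (fun r : ℕ => ((finrank K (VM Q (T + r)) : ℝ) - finrank K (VM Q T)) /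
      (r : ℝ) ^ (k + 1)) atTop (𝓝 c) := by
    have h1 := hH.sub (hconst (finrank K (VM Q T)) k)
    rw [sub_zero] at h1
    refine h1.congr fun r => ?_
    rw [sub_div]
  -- the first sum
  have hS1 : Tendsto (fun r : ℕ => (∑ n ∈ range r, ∑ l, (((r : ℝ) - 1 - n) - m0) *
      (finrank K (VM (P l) (T + 1 + n - t l)) : ℝ)) / (r : ℝ) ^ (k + 2)) atTop
      (𝓝 (c / (k + 2))) := by
    have h1 := stolz (fun r => ∑ n ∈ range r, ((r : ℝ) - 1 - n) *
      ∑ l, (finrank K (VM (P l) (T + 1 + n - t l)) : ℝ)) (k + 1) c (hdiff.congr fun r => by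
        congr 1
        rw [Finset.sum_range_succ]
        have e1 : (((r + 1 : ℕ) : ℝ) - 1 - r) = 0 := by push_cast; ring
        rw [e1, zero_mul, add_zero, ← Finset.sum_sub_distrib, ← hGs r]
        refine Finset.sum_congr rfl fun n _ => ?_
        push_cast
        ring)
    have h2 := h1.sub ((tendsto_lower (k' := k + 2) (by omega) hdiff).const_mul m0)
    rw [mul_zero, sub_zero] at h2
    have e2 : c / (((k + 1 : ℕ) : ℝ) + 1) = c / (k + 2) := by
      congr 1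
      push_cast
      ring
    rw [e2] at h2
    refine h2.congr fun r => ?_
    rw [← hGs r, mul_div_assoc', ← sub_div]
    congr 1
    rw [Finset.mul_sum, ← Finset.sum_sub_distrib]
    refine Finset.sum_congr rfl fun n _ => ?_
    rw [← Finset.mul_sum]
    ring
  -- the second sum
  have hS2 : Tendsto (fun r : ℕ => (∑ n ∈ range r, ∑ l ∈ A, ((T + 1 + n - t l : ℕ) : ℝ) *
      (finrank K (VM (P l) (T + 1 + n - t l)) : ℝ)) / (r : ℝ) ^ (k + 2)) atTop
      (𝓝 ((k + 1) / (k + 2) * c)) := by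
    have h0 : ∀ l ∈ A, Tendsto (fun r : ℕ => (((T + 1 + r - t l : ℕ) : ℝ) *
        (finrank K (VM (P l) (T + 1 + r - t l)) : ℝ)) / (r : ℝ) ^ (k + 1)) atTop
        (𝓝 (cl l)) := by
      intro l hl
      have h1 := tendsto_shift (tendsto_raise (hA l hl).2) (T + 1) (t l)
      refine h1.congr fun r => ?_
      rw [Nat.add_comm r (T + 1)]
    have h1 := tendsto_finsetSum A h0
    rw [hsum] at h1
    have h2 := stolz (fun r => ∑ n ∈ range r, ∑ l ∈ A, ((T + 1 + n - t l : ℕ) : ℝ) *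
      (finrank K (VM (P l) (T + 1 + n - t l)) : ℝ)) (k + 1) ((k + 1) * c)
      (h1.congr fun r => by
        rw [Finset.sum_range_succ, add_sub_cancel_left, Finset.sum_div])
    have e2 : (k + 1) * c / (((k + 1 : ℕ) : ℝ) + 1) = (k + 1) / (k + 2) * c := by
      have : (((k + 1 : ℕ) : ℝ) + 1) = k + 2 := by
        push_cast
        ring
      rw [this]
      ring
    rw [e2] at h2
    exact h2
  have hk2 : (0 : ℝ) < (k : ℝ) + 2 := by positivity
  have hE1 : ∀ᶠ r : ℕ in atTop, 0 < (∑ n ∈ range r, ∑ l, (((r : ℝ) - 1 - n) - m0) *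
      (finrank K (VM (P l) (T + 1 + n - t l)) : ℝ)) / (r : ℝ) ^ (k + 2) -
      (1 / (k + 2) - η) * ((((T + r : ℕ) : ℝ) * finrank K (VM Q (T + r))) /
      (r : ℝ) ^ (k + 2)) := by
    refine (hS1.sub (hu.const_mul (1 / (k + 2) - η))).eventually_const_lt ?_
    have : c / (k + 2) - (1 / (k + 2) - η) * c = η * c := by
      field_simp
      ring
    rw [this]
    positivity
  have hE2 : ∀ᶠ r : ℕ in atTop, |(∑ n ∈ range r, ∑ l ∈ A, ((T + 1 + n - t l : ℕ) : ℝ) *
      (finrank K (VM (P l) (T + 1 + n - t l)) : ℝ)) / (r : ℝ) ^ (k + 2) -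
      ((k + 1) / (k + 2)) * ((((T + r : ℕ) : ℝ) * finrank K (VM Q (T + r))) /
      (r : ℝ) ^ (k + 2))| < η * c / 2 := by
    have h1 := (hS2.sub (hu.const_mul (((k : ℝ) + 1) / (k + 2)))).abs
    rw [sub_self, abs_zero] at h1
    exact h1.eventually_lt_const (by positivity)
  have hE3 : ∀ᶠ r : ℕ in atTop, c / 2 < (((T + r : ℕ) : ℝ) * finrank K (VM Q (T + r))) /
      (r : ℝ) ^ (k + 2) := hu.eventually_const_lt (by linarith)
  obtain ⟨R, hR⟩ := eventually_atTop.1 (hE1.and (hE2.and hE3))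
  refine ⟨R + 1, by omega, fun r hr => ?_⟩
  obtain ⟨h1, h2, h3⟩ := hR r (by omega)
  have hr0 : (0 : ℝ) < (r : ℝ) ^ (k + 2) := by
    have : (0 : ℝ) < r := by exact_mod_cast (by omega : 0 < r)
    positivity
  constructor
  · rw [mul_div_assoc', ← sub_div] at h1
    have h4 := (div_pos_iff_of_pos_right hr0).1 h1
    linarith
  · rw [mul_div_assoc', ← sub_div, abs_div, abs_of_pos hr0] at h2
    have h4 : |∑ n ∈ range r, ∑ l ∈ A, ((T + 1 + n - t l : ℕ) : ℝ) *
        (finrank K (VM (P l) (T + 1 + n - t l)) : ℝ) -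
        (k + 1) / (k + 2) * (((T + r : ℕ) : ℝ) * finrank K (VM Q (T + r)))| /
        (r : ℝ) ^ (k + 2) ≤ (η * (((T + r : ℕ) : ℝ) * finrank K (VM Q (T + r)))) /
        (r : ℝ) ^ (k + 2) := by
      refine h2.le.trans ?_
      have h5 := mul_lt_mul_of_pos_left h3 hη
      have e5 : (η * (((T + r : ℕ) : ℝ) * finrank K (VM Q (T + r)))) / (r : ℝ) ^ (k + 2) =
          η * ((((T + r : ℕ) : ℝ) * finrank K (VM Q (T + r))) / (r : ℝ) ^ (k + 2)) := by ring
      rw [e5]
      linarith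
    exact (div_le_div_iff_of_pos_right hr0).1 h4

end Pool.Agent.H426.Noc
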