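import Pool.Agent.H426.Noc.Api
import Pool.Agent.H426.Two.Claim

/-!
The weight of the best basis and the filtration by the powers of a variable.
-/

set_option autoImplicit false

namespace Pool.Agent.H426.Noc

open MvPolynomial Finset Module
open Pool.Agent.TH875 (VM VM_finite exists_sec)
open Pool.Agent.H426.Ru (HG lt_add)
open Pool.Agent.H426.Two
open Api

variable {K : Type} [Field K] {q : ℕ}

/-- the weight of the best basis -/
noncomputable def bw (I : Ideal (MvPolynomial (Fin q) K)) (M : ℕ) (a : Fin q → ℝ) : ℝ :=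
  ∑ j, ((exists_best I M a).choose j : ℝ) * a j

lemma le_bw {I : Ideal (MvPolynomial (Fin q) K)} {M : ℕ} {a : Fin q → ℝ} {τ : Fin q → ℕ}
    (h : HasB I M τ) : ∑ j, (τ j : ℝ) * a j ≤ bw I M a :=
  (exists_best I M a).choose_spec.2 τ h

lemma exists_bw (I : Ideal (MvPolynomial (Fin q) K)) (M : ℕ) (a : Fin q → ℝ) :
    ∃ τ, HasB I M τ ∧ bw I M a = ∑ j, (τ j : ℝ) * a j :=
  ⟨_, (exists_best I M a).choose_spec.1, rfl⟩

lemma bw_nonneg (I : Ideal (MvPolynomial (Fin q) K)) (M : ℕ) {a : Fin q → ℝ}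
    (ha : ∀ j, 0 ≤ a j) : 0 ≤ bw I M a :=
  Finset.sum_nonneg fun j _ => mul_nonneg (Nat.cast_nonneg _) (ha j)

lemma bw_mul (I : Ideal (MvPolynomial (Fin q) K)) (M : ℕ) (a : Fin q → ℝ) {c : ℝ} (hc : 0 ≤ c) :
    bw I M (fun j => c * a j) = c * bw I M a := by
  have key : ∀ τ : Fin q → ℕ, ∑ j, (τ j : ℝ) * (c * a j) = c * ∑ j, (τ j : ℝ) * a j := by
    intro τ
    rw [Finset.mul_sum]
    exact Finset.sum_congr rfl fun j _ => by ring
  refine le_antisymm ?_ ?_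
  · obtain ⟨τ, hτ, h⟩ := exists_bw I M (fun j => c * a j)
    rw [h, key]
    exact mul_le_mul_of_nonneg_left (le_bw hτ) hc
  · obtain ⟨τ, hτ, h⟩ := exists_bw I M a
    rw [h, ← key]
    exact le_bw hτ

lemma HasB.eq_zero {I : Ideal (MvPolynomial (Fin q) K)} {M : ℕ} {τ : Fin q → ℕ} (h : HasB I M τ)
    {j : Fin q} (hj : X j ∈ I) : τ j = 0 := by
  obtain ⟨κ, hκ, α, e, g, h1, h2, h3, h4⟩ := h
  rw [← h4 j]
  refine Finset.sum_eq_zero fun s _ => ?_
  by_contra hne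
  refine h2.ne_zero s (Ideal.Quotient.eq_zero_iff_mem.2 ?_)
  refine Ideal.mul_mem_right _ _ ?_
  rw [← Finset.mul_prod_erase _ _ (Finset.mem_univ j)]
  exact Ideal.mul_mem_right _ _ (Ideal.pow_mem_of_mem I hj _ (Nat.pos_of_ne_zero hne))

lemma HasB.sum_le {I : Ideal (MvPolynomial (Fin q) K)} {M : ℕ} {τ : Fin q → ℕ} (h : HasB I M τ) :
    ∑ j, τ j ≤ M * finrank K (VM I M) := by
  obtain ⟨κ, hκ, α, e, g, h1, h2, h3, h4⟩ := h
  rw [← Finset.sum_congr rfl fun j _ => h4 j, Finset.sum_comm, ← h3]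
  refine (Finset.sum_le_card_nsmul _ _ M fun s _ => ?_).trans ?_
  · have := (h1 s).2
    omega
  · rw [smul_eq_mul, Finset.card_univ, mul_comm]

/-- an upper bound for the weights -/
lemma bw_le {I : Ideal (MvPolynomial (Fin q) K)} (M : ℕ) {a : Fin q → ℝ} {t : ℝ}
    (ht : 0 ≤ t) (ha : ∀ j, X j ∉ I → a j ≤ t) : bw I M a ≤ t * (M * finrank K (VM I M)) := by
  obtain ⟨τ, hτ, h⟩ := exists_bw I M a
  rw [h]
  have h1 : ∑ j, (τ j : ℝ) * a j ≤ ∑ j, (τ j : ℝ) * t := by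
    refine Finset.sum_le_sum fun j _ => ?_
    by_cases hj : X j ∈ I
    · rw [HasB.eq_zero hτ hj, Nat.cast_zero, zero_mul, zero_mul]
    · exact mul_le_mul_of_nonneg_left (ha j hj) (Nat.cast_nonneg _)
  refine h1.trans ?_
  rw [← Finset.sum_mul, mul_comm]
  refine mul_le_mul_of_nonneg_left ?_ ht
  exact_mod_cast HasB.sum_le hτ

/-- generators have their weight -/
lemma Wt_gen {I : Ideal (MvPolynomial (Fin q) K)} {a : Fin q → ℝ} {M e : ℕ} {lam : ℝ}
    (α : Fin q → ℕ) {g : MvPolynomial (Fin q) K} (hg : g.IsHomogeneous e) (hM : ∑ j, α j + e = M)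
    (hl : lam ≤ ∑ j, (α j : ℝ) * a j) : Wt I a M lam ((∏ j, X j ^ α j) * g) :=
  Submodule.mem_sup_left (Submodule.subset_span ⟨α, e, g, hg, hM, hl, rfl⟩)

lemma Wt_form {I : Ideal (MvPolynomial (Fin q) K)} {a : Fin q → ℝ} {M : ℕ} {lam : ℝ}
    (hl : lam ≤ 0) {g : MvPolynomial (Fin q) K} (hg : g.IsHomogeneous M) : Wt I a M lam g := by
  have h1 := Wt_gen (I := I) (a := a) (M := M) (lam := lam) (fun _ => 0) hg (by simp) (by simpa)
  simpa using h1

lemma Wt_X_pow {I : Ideal (MvPolynomial (Fin q) K)} {a : Fin q → ℝ} {lam : ℝ} (i : Fin q) (k : ℕ)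
    (hl : lam ≤ k * a i) : Wt I a k lam (X i ^ k : MvPolynomial (Fin q) K) := by
  classical
  have h1 := Wt_gen (I := I) (a := a) (M := k) (lam := lam) (fun j => if j = i then k else 0)
    (isHomogeneous_one (Fin q) K) (by simp) (by simpa using hl)
  have h2 : ∏ j, (X j : MvPolynomial (Fin q) K) ^ (if j = i then k else 0) = X i ^ k := by
    rw [Finset.prod_eq_single i]
    · simp
    · intro j _ hj
      simp [hj]
    · intro hi
      exact absurd (Finset.mem_univ i) hi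
  rw [h2, mul_one] at h1
  exact h1

lemma Wt.mono {I : Ideal (MvPolynomial (Fin q) K)} {a : Fin q → ℝ} {M : ℕ} {lam lam' : ℝ}
    {f : MvPolynomial (Fin q) K} (h : Wt I a M lam f) (hl : lam' ≤ lam) : Wt I a M lam' f := by
  have h1 : {p : MvPolynomial (Fin q) K | ∃ (α : Fin q → ℕ) (e : ℕ)
      (g : MvPolynomial (Fin q) K), g.IsHomogeneous e ∧ ∑ j, α j + e = M ∧
      lam ≤ ∑ j, (α j : ℝ) * a j ∧ p = (∏ j, X j ^ α j) * g} ⊆
      {p : MvPolynomial (Fin q) K | ∃ (α : Fin q → ℕ) (e : ℕ)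
      (g : MvPolynomial (Fin q) K), g.IsHomogeneous e ∧ ∑ j, α j + e = M ∧
      lam' ≤ ∑ j, (α j : ℝ) * a j ∧ p = (∏ j, X j ^ α j) * g} := by
    rintro p ⟨α, e, g, hg, hM, h1, hp⟩
    exact ⟨α, e, g, hg, hM, hl.trans h1, hp⟩
  exact (sup_le_sup_right (Submodule.span_mono (R := K) h1) _) h

/-- formal weights of the variables -/
lemma formal_all {N : ℕ} {Q : Ideal (MvPolynomial (Fin q) K)} (hQ : HG Q)
    (hsp : ∀ Q' : Ideal (MvPolynomial (Fin q) K), Q'.IsPrime → HG Q' → Q ≤ Q' →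
      (∃ J : Finset (Fin q), N < J.card ∧ ∀ j ∈ J, X j ∈ Q') → ∀ k, X k ∈ Q')
    (hN : (Ji Q).card ≤ N) :
    ∃ m0 : ℕ, ∀ (a : Fin q → ℝ), (∀ j, 0 ≤ a j) → ∀ (k : ℕ) (f : MvPolynomial (Fin q) K),
      f.IsHomogeneous k → Wt Q a k (((k : ℝ) - m0) * kth (N - (Ji Q).card + 1) (Jo Q) a) f := by
  classical
  have h1 : ∀ T : Finset (Fin q), ∃ m0 : ℕ, T ⊆ Jo Q → T.card = N - (Ji Q).card + 1 →
      ∀ (a : Fin q → ℝ) (g : ℝ), (∀ j, 0 ≤ a j) → 0 ≤ g → (∀ j ∈ T, g ≤ a j) →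
      ∀ (k : ℕ) (f : MvPolynomial (Fin q) K), f.IsHomogeneous k → Wt Q a k (((k : ℝ) - m0) * g) f := by
    intro T
    by_cases hT : T ⊆ Jo Q ∧ T.card = N - (Ji Q).card + 1
    · obtain ⟨m0, hm0⟩ := formal hQ T (by
        intro Q' hQ'p hQ'g hle hTQ
        refine hsp Q' hQ'p hQ'g hle ⟨T ∪ Ji Q, ?_, ?_⟩
        · rw [Finset.card_union_of_disjoint, hT.2]
          · omega
          · rw [Finset.disjoint_left]
            intro j hj hj'
            exact (mem_Jo.1 (hT.1 hj)) (mem_Ji.1 hj')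
        · intro j hj
          rcases Finset.mem_union.1 hj with hj | hj
          · exact hTQ j hj
          · exact hle (mem_Ji.1 hj))
      exact ⟨m0, fun _ _ => hm0⟩
    · exact ⟨0, fun h h' => absurd ⟨h, h'⟩ hT⟩
  choose m0 hm0 using h1
  refine ⟨∑ T, m0 T, fun a ha k f hf => ?_⟩
  obtain ⟨h2, h3⟩ := kth_spec (k := N - (Ji Q).card + 1) (by omega) (Jo Q) a ha
  rcases h3 with h3 | ⟨T, hT, hTc, hTa⟩
  · rw [h3, mul_zero]
    exact Wt_form le_rfl hf
  · have h4 := hm0 T hT hTc a _ ha h2 hTa k f hf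
    have h5 : m0 T ≤ ∑ T, m0 T :=
      Finset.single_le_sum (f := m0) (fun _ _ => Nat.zero_le _) (Finset.mem_univ T)
    have h6 : (m0 T : ℝ) ≤ ((∑ T, m0 T : ℕ) : ℝ) := by exact_mod_cast h5
    refine h4.mono ?_
    have h7 : ((k : ℝ) - ((∑ T, m0 T : ℕ) : ℝ)) ≤ (k : ℝ) - m0 T := by linarith
    exact mul_le_mul_of_nonneg_right h7 h2

/-- The levels of the filtration by the powers of a variable bound the weight of the best basis
from below. -/
theorem level_bound {N : ℕ} {Q : Ideal (MvPolynomial (Fin q) K)} (hQ : HG Q) (hp : Q.IsPrime)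
    (hsp : ∀ Q' : Ideal (MvPolynomial (Fin q) K), Q'.IsPrime → HG Q' → Q ≤ Q' →
      (∃ J : Finset (Fin q), N < J.card ∧ ∀ j ∈ J, X j ∈ Q') → ∀ k, X k ∈ Q')
    (hN : (Ji Q).card ≤ N) {i : Fin q} (hi : X i ∉ Q) :
    ∃ (L : ℕ) (P : Fin L → Ideal (MvPolynomial (Fin q) K)) (t : Fin L → ℕ) (m0 : ℕ),
      (∀ l, (P l).IsPrime ∧ HG (P l) ∧ Q < P l ∧ X i ∈ P l) ∧
      (∀ M, 1 ≤ M → (∀ l, t l ≤ M) →
        finrank K (VM Q M) = finrank K (VM Q (M - 1)) + ∑ l, finrank K (VM (P l) (M - t l))) ∧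
      ∀ (T r : ℕ), (∀ l, t l ≤ T + 1) → ∀ a : Fin q → ℝ, (∀ j, 0 ≤ a j) →
        ∑ n ∈ Finset.range r, ∑ l, (bw (P l) (T + 1 + n - t l) a +
          (((r : ℝ) - 1 - n) - m0) * max (a i) (kth (N - (Ji Q).card + 1) (Jo Q) a) *
            finrank K (VM (P l) (T + 1 + n - t l))) ≤ bw Q (T + r) a := by
  classical
  obtain ⟨L, P, t, m, hP, hdim, hind⟩ := prime_levels hQ hp hi
  obtain ⟨m0, hm0⟩ := formal_all hQ hsp hN
  refine ⟨L, P, t, m0, fun l => ⟨(hP l).1, (hP l).2.1, (hP l).2.2.1, (hP l).2.2.2.1⟩, hdim, ?_⟩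
  intro T r hT a ha
  set A : ℝ := max (a i) (kth (N - (Ji Q).card + 1) (Jo Q) a) with hA
  -- the weight of the powers
  have hpow : ∀ k : ℕ, Wt Q a k (((k : ℝ) - m0) * A) (X i ^ k : MvPolynomial (Fin q) K) := by
    intro k
    have hk0 : (0 : ℝ) ≤ m0 := Nat.cast_nonneg _
    rcases le_total (kth (N - (Ji Q).card + 1) (Jo Q) a) (a i) with h | h
    · rw [hA, max_eq_left h]
      refine Wt_X_pow i k ?_
      have := ha i
      nlinarith
    · rw [hA, max_eq_right h]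
      exact hm0 a ha k _ (isHomogeneous_X_pow i k)
  choose τ hτ hbw using fun (n : Fin r) (l : Fin L) => exists_bw (P l) (T + 1 + n - t l) a
  choose κ hκ α e g h1 h2 h3 h4 using fun (n : Fin r) (l : Fin L) => hτ n l
  have hli := hind r Empty (fun s => s.elim) κ (fun n l s => (∏ j, X j ^ α n l s j) * g n l s)
    (linearIndependent_empty_type) (fun n l => h2 n l)
  let lam : (Σ n : Fin r, Σ l : Fin L, κ n l) → ℝ := fun s =>
    (((r : ℝ) - 1 - ((s.1 : Fin r) : ℕ)) - m0) * A + ∑ j, (α s.1 s.2.1 s.2.2 j : ℝ) * a j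
  obtain ⟨τ', hτ', hs⟩ := hasB_of_weights (M := T + r) a ha _
    (fun s : Empty ⊕ (Σ n : Fin r, Σ l : Fin L, κ n l) => Sum.elim (fun _ => (0 : ℝ)) lam s)
    hli (by
      rintro (s | ⟨n, l, s⟩)
      · exact s.elim
      · simp only [Sum.elim_inr, lam]
        have hn : (n : ℕ) < r := n.2
        have h5 := hpow (r - 1 - (n : ℕ))
        have e1 : (((r - 1 - (n : ℕ) : ℕ) : ℝ)) = (r : ℝ) - 1 - n := by
          rw [Nat.cast_sub (by omega), Nat.cast_sub (by omega)]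
          simp
        rw [e1] at h5
        have h6 : Wt Q a (t l) 0 (m l) := Wt_form le_rfl (hP l).2.2.2.2
        have h7 : Wt Q a (T + 1 + n - t l) (∑ j, (α n l s j : ℝ) * a j)
            ((∏ j, X j ^ α n l s j) * g n l s) :=
          Wt_gen (α n l s) (h1 n l s).1 (h1 n l s).2 le_rfl
        have h8 := Wt_mul h5 (Wt_mul h6 h7)
        have e2 : r - 1 - (n : ℕ) + (t l + (T + 1 + n - t l)) = T + r := by
          have := hT l
          omega
        rw [e2, zero_add] at h8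
        exact h8)
  refine le_trans (le_of_eq ?_) (hs.trans (le_bw hτ'))
  rw [Fintype.sum_sum_type]
  simp only [Finset.univ_eq_empty, Finset.sum_empty, zero_add, Sum.elim_inr, lam]
  rw [Fintype.sum_sigma, ← Fin.sum_univ_eq_sum_range (fun n => ∑ l, (bw (P l) (T + 1 + n - t l) a +
          (((r : ℝ) - 1 - n) - m0) * A * finrank K (VM (P l) (T + 1 + n - t l)))) r]
  refine Finset.sum_congr rfl fun n _ => ?_
  rw [Fintype.sum_sigma]
  refine Finset.sum_congr rfl fun l _ => ?_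
  rw [Finset.sum_add_distrib]
  dsimp only
  rw [Finset.sum_const, Finset.card_univ, nsmul_eq_mul, h3 n l, hbw n l]
  have h9 : ∑ s, ∑ j, (α n l s j : ℝ) * a j = ∑ j, (τ n l j : ℝ) * a j := by
    rw [Finset.sum_comm]
    refine Finset.sum_congr rfl fun j _ => ?_
    rw [← Finset.sum_mul]
    congr 1
    exact_mod_cast h4 n l j
  rw [h9]
  ring

end Pool.Agent.H426.Noc
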