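import Pool.Agent.H426.Noc.Defs
set_option autoImplicit false

namespace Pool.Agent.H806.Noc1

open MvPolynomial Finset Module
open Pool.Agent.TH875 (VM VM_finite exists_sec)
open Pool.Agent.H426.Ru (HG)
open Pool.Agent.H426.Two (HasB)
open Pool.Agent.H426.Noc

/-- the exchange lemma for vectors -/
theorem exchange {K V : Type} [Field K] [AddCommGroup V] [Module K V] {G : Type} (cls : G → V)
    (wt : G → ℝ) {κ : Type} [Fintype κ] (v : κ → V) (lam : κ → ℝ) (hv : LinearIndependent K v)
    (hw : ∀ s, v s ∈ Submodule.span K (cls '' {x | lam s ≤ wt x})) :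
    ∃ γ : κ → G, LinearIndependent K (cls ∘ γ) ∧ ∀ s, lam s ≤ wt (γ s) := by
  classical
  by_cases hκ : IsEmpty κ
  · exact ⟨fun s => isEmptyElim s, linearIndependent_empty_type, fun s => isEmptyElim s⟩
  rw [not_isEmpty_iff] at hκ
  have hG : Nonempty G := by
    obtain ⟨s⟩ := hκ
    by_contra hG
    rw [not_nonempty_iff] at hG
    have h1 := hw s
    have h2 : cls '' {x | lam s ≤ wt x} = ∅ := by
      rw [Set.eq_empty_iff_forall_notMem]
      rintro _ ⟨x, -, -⟩
      exact hG.elim x
    rw [h2, Submodule.span_empty, Submodule.mem_bot] at h1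
    exact hv.ne_zero s h1
  have key : ∀ T : Finset κ, ∃ γ : κ → G, LinearIndepOn K (cls ∘ γ) (T : Set κ) ∧
      ∀ s ∈ T, lam s ≤ wt (γ s) := by
    intro T
    induction T using Finset.induction_on_min_value lam with
    | empty =>
      exact ⟨fun _ => hG.some, by simp [LinearIndepOn], by simp⟩
    | insert s0 T hs0 hmin ih =>
      obtain ⟨γ, hγ, hwt⟩ := ih
      obtain ⟨x, hx, hxU⟩ : ∃ x, lam s0 ≤ wt x ∧
          cls x ∉ Submodule.span K ((cls ∘ γ) '' (T : Set κ)) := by
        by_contra hcon
        push Not at hcon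
        set U := Submodule.span K ((cls ∘ γ) '' (T : Set κ)) with hU
        have hvU : ∀ s ∈ insert s0 T, v s ∈ U := by
          intro s hs
          have hle : lam s0 ≤ lam s := by
            rcases Finset.mem_insert.1 hs with rfl | hs
            · exact le_rfl
            · exact hmin s hs
          have h1 := hw s
          refine Submodule.span_le.2 ?_ h1
          rintro _ ⟨x, hx, rfl⟩
          exact hcon x (hle.trans hx)
        have hfinU : FiniteDimensional K U := by
          rw [hU]
          exact FiniteDimensional.span_of_finite K ((T.finite_toSet).image _)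
        have hli : LinearIndependent K (fun s : {s // s ∈ insert s0 T} => (⟨v s, hvU s s.2⟩ : U)) := by
          refine LinearIndependent.of_comp U.subtype ?_
          exact hv.comp (fun s : {s // s ∈ insert s0 T} => (s : κ)) Subtype.val_injective
        have h1 := hli.fintype_card_le_finrank
        rw [Fintype.card_coe, Finset.card_insert_of_notMem hs0] at h1
        have h2 : finrank K U ≤ T.card := by
          rw [hU, ← Finset.coe_image]
          exact (finrank_span_finset_le_card _).trans Finset.card_image_le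
        omega
      refine ⟨Function.update γ s0 x, ?_, ?_⟩
      · rw [Finset.coe_insert]
        have himg : (cls ∘ Function.update γ s0 x) '' (T : Set κ) = (cls ∘ γ) '' (T : Set κ) := by
          refine Set.image_congr fun s hs => ?_
          have : s ≠ s0 := fun h => hs0 (by rw [← h]; exact hs)
          simp [Function.update_of_ne this]
        refine LinearIndepOn.insert ?_ ?_
        · refine hγ.congr fun s hs => ?_
          have : s ≠ s0 := fun h => hs0 (by rw [← h]; exact hs)
          simp [Function.update_of_ne this]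
        · rw [himg]
          simpa using hxU
      · intro s hs
        by_cases h : s = s0
        · subst h
          simpa using hx
        · rw [Function.update_of_ne h]
          exact hwt s ((Finset.mem_insert.1 hs).resolve_left h)
  obtain ⟨γ, hγ, hwt⟩ := key Finset.univ
  refine ⟨γ, ?_, fun s => hwt s (Finset.mem_univ s)⟩
  rw [Finset.coe_univ] at hγ
  exact linearIndepOn_univ_iff.1 hγ

/-- generators -/
abbrev Gen (K : Type) [Field K] (q M : ℕ) : Type :=
  {x : (Fin q → ℕ) × ℕ × MvPolynomial (Fin q) K //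
    x.2.2.IsHomogeneous x.2.1 ∧ ∑ j, x.1 j + x.2.1 = M}

/-- the class of a generator -/
noncomputable def gcls {K : Type} [Field K] {q : ℕ} (I : Ideal (MvPolynomial (Fin q) K)) (M : ℕ)
    (x : Gen K q M) : MvPolynomial (Fin q) K ⧸ I :=
  Ideal.Quotient.mkₐ K I ((∏ j, X j ^ x.1.1 j) * x.1.2.2)

/-- the weight of a generator -/
noncomputable def gwt {K : Type} [Field K] {q : ℕ} (M : ℕ) (a : Fin q → ℝ)
    (x : Gen K q M) : ℝ := ∑ j, (x.1.1 j : ℝ) * a j

theorem gcls_mem {K : Type} [Field K] {q : ℕ} (I : Ideal (MvPolynomial (Fin q) K)) (M : ℕ)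
    (x : Gen K q M) : gcls I M x ∈ VM I M := by
  refine ⟨_, ?_, rfl⟩
  have h1 : (∏ j, (X j : MvPolynomial (Fin q) K) ^ x.1.1 j).IsHomogeneous (∑ j, x.1.1 j) := by
    refine IsHomogeneous.prod _ _ _ fun j _ => ?_
    exact isHomogeneous_X_pow j _
  have h2 := h1.mul x.2.1
  rw [x.2.2] at h2
  exact h2

theorem Wt_cls {K : Type} [Field K] {q : ℕ} {I : Ideal (MvPolynomial (Fin q) K)} {M : ℕ}
    {a : Fin q → ℝ} {lam : ℝ} {f : MvPolynomial (Fin q) K} (h : Wt I a M lam f) :
    Ideal.Quotient.mkₐ K I f ∈ Submodule.span K (gcls I M '' {x | lam ≤ gwt M a x}) := by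
  unfold Wt at h
  obtain ⟨y, hy, z, hz, rfl⟩ := Submodule.mem_sup.1 h
  have hz' : Ideal.Quotient.mkₐ K I z = 0 := Ideal.Quotient.eq_zero_iff_mem.2 hz
  rw [map_add, hz', add_zero]
  have h1 := Submodule.mem_map_of_mem (f := (Ideal.Quotient.mkₐ K I).toLinearMap) hy
  rw [Submodule.map_span] at h1
  refine Submodule.span_mono ?_ h1
  rintro _ ⟨_, ⟨α, e, g, hg, hM, hlam, rfl⟩, rfl⟩
  exact ⟨⟨(α, e, g), hg, hM⟩, hlam, rfl⟩

/-- N1. The exchange lemma. -/
theorem hasB_of_weights {K : Type} [Field K] {q : ℕ} {I : Ideal (MvPolynomial (Fin q) K)} {M : ℕ}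
    (a : Fin q → ℝ) (ha : ∀ j, 0 ≤ a j) {κ : Type} [Fintype κ] (e : κ → MvPolynomial (Fin q) K)
    (lam : κ → ℝ) (hli : LinearIndependent K (fun s => Ideal.Quotient.mkₐ K I (e s)))
    (hw : ∀ s, Wt I a M (lam s) (e s)) :
    ∃ τ, HasB I M τ ∧ ∑ s, lam s ≤ ∑ j, (τ j : ℝ) * a j := by
  classical
  obtain ⟨γ, hγ, hwt⟩ := exchange (gcls I M) (gwt M a) _ lam hli (fun s => Wt_cls (hw s))
  have hfin : FiniteDimensional K (VM I M) := VM_finite I M
  obtain ⟨sec, hsec⟩ := exists_sec I M
  obtain ⟨u, hu⟩ : ∃ u : κ → VM I M, u = fun s => ⟨gcls I M (γ s), gcls_mem I M (γ s)⟩ := ⟨_, rfl⟩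
  have huli : LinearIndependent K u := by
    refine LinearIndependent.of_comp (VM I M).subtype ?_
    rw [hu]
    exact hγ
  have hR := huli.linearIndepOn_id
  set E := hR.extend (Set.subset_univ _) with hE
  set b := Basis.extend hR with hb
  have hEfin : Fintype E := FiniteDimensional.fintypeBasisIndex b
  have hpick : ∀ x : E, ∃ y : Gen K q M, gcls I M y = (x : VM I M) ∧
      ∀ s, u s = (x : VM I M) → y = γ s := by
    intro x
    by_cases hx : ∃ s, u s = (x : VM I M)
    · obtain ⟨s, hs⟩ := hx
      refine ⟨γ s, ?_, fun s' hs' => ?_⟩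
      · rw [← hs, hu]
      · rw [huli.injective (hs'.trans hs.symm)]
    · refine ⟨⟨(fun _ => 0, M, sec x), (hsec _).1, by simp⟩, ?_, fun s hs => absurd ⟨s, hs⟩ hx⟩
      unfold gcls
      simp only [pow_zero, Finset.prod_const_one, one_mul]
      exact (hsec _).2
  choose y hy1 hy2 using hpick
  refine ⟨fun j => ∑ x, (y x).1.1 j, ⟨E, hEfin, fun x => (y x).1.1, fun x => (y x).1.2.1,
    fun x => (y x).1.2.2, fun x => (y x).2, ?_, ?_, fun j => rfl⟩, ?_⟩
  · have h1 : (fun x : E => Ideal.Quotient.mkₐ K I ((∏ j, X j ^ (y x).1.1 j) * (y x).1.2.2)) =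
        (VM I M).subtype ∘ b := by
      funext x
      rw [Function.comp_apply, hb, Basis.extend_apply_self]
      exact hy1 x
    rw [h1]
    exact b.linearIndependent.map' _ (Submodule.ker_subtype _)
  · exact (finrank_eq_card_basis b).symm
  · have h1 : ∑ j, (((∑ x, (y x).1.1 j : ℕ)) : ℝ) * a j = ∑ x, gwt M a (y x) := by
      unfold gwt
      rw [Finset.sum_comm]
      refine Finset.sum_congr rfl fun j _ => ?_
      rw [Nat.cast_sum, Finset.sum_mul]
    rw [h1]
    have hmem : ∀ s, u s ∈ E := fun s => hR.subset_extend _ ⟨s, rfl⟩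
    have hinj : Function.Injective (fun s => (⟨u s, hmem s⟩ : E)) := by
      intro s s' h
      exact huli.injective (congrArg Subtype.val h)
    calc ∑ s, lam s ≤ ∑ s, gwt M a (y ⟨u s, hmem s⟩) := by
          refine Finset.sum_le_sum fun s _ => ?_
          rw [hy2 ⟨u s, hmem s⟩ s rfl]
          exact hwt s
      _ = ∑ x ∈ Finset.univ.map ⟨_, hinj⟩, gwt M a (y x) := by
          rw [Finset.sum_map]
          rfl
      _ ≤ ∑ x, gwt M a (y x) := by
          refine Finset.sum_le_sum_of_subset_of_nonneg (Finset.subset_univ _) fun x _ _ => ?_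
          unfold gwt
          exact Finset.sum_nonneg fun j _ => mul_nonneg (Nat.cast_nonneg _) (ha j)

end Pool.Agent.H806.Noc1
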