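import Pool.Agent.H426.Noc.Hilb
import Pool.Agent.H426.Noc.Lev
import Pool.Agent.H426.Two.GT2

/-!
The main inequality for the weights of the best bases.
-/

set_option autoImplicit false

namespace Pool.Agent.H426.Noc

open MvPolynomial Finset Module Filter
open Pool.Agent.TH875 (VM)
open Pool.Agent.H426.Ru (HG)
open Pool.Agent.H426.Two
open Api
open scoped Topology

variable {K : Type} [Field K] {q : ℕ}

/-- the main inequality -/
def ClN (N : ℕ) (P : Ideal (MvPolynomial (Fin q) K)) (ν : ℕ) (ε : ℝ) (M : ℕ) : Prop :=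
  ∀ (W : Type) [Fintype W] (a : W → Fin q → ℝ) (x : ℝ), 0 ≤ x → x ≤ 1 → (∀ w j, 0 ≤ a w j) →
    (∀ j, X j ∉ P → ∑ w, a w j ≤ 1) → ∑ w, bw P M (a w) ≤ x * (M * finrank K (VM P M)) →
    ∑ w, top (N - (Ji P).card + 1) (Jo P) (a w) ≤
      (ν + 1) * x + 2 * ((N : ℝ) - (Ji P).card - ν) + ε

/-- the main inequality, when one sum is maximal -/
def ClT (N : ℕ) (P : Ideal (MvPolynomial (Fin q) K)) (i : Fin q) (ν : ℕ) (ε : ℝ) (M : ℕ) : Prop :=
  ∀ (W : Type) [Fintype W] (a : W → Fin q → ℝ) (x : ℝ), 0 ≤ x → x ≤ 1 → (∀ w j, 0 ≤ a w j) →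
    (∀ j, X j ∉ P → ∑ w, a w j ≤ 1) → ∑ w, bw P M (a w) ≤ x * (M * finrank K (VM P M)) →
    ∑ w, a w i = 1 →
    ∑ w, top (N - (Ji P).card + 1) (Jo P) (a w) ≤
      (ν + 1) * x + 2 * ((N : ℝ) - (Ji P).card - ν) + ε

lemma kth_le_sum {ι : Type} {k : ℕ} (hk : 1 ≤ k) (J : Finset ι) (a : ι → ℝ)
    (ha : ∀ j, 0 ≤ a j) : kth k J a ≤ ∑ j ∈ J, a j := by
  obtain ⟨h1, h2 | ⟨T, hT, hc, h2⟩⟩ := kth_spec hk J a ha
  · rw [h2]
    exact Finset.sum_nonneg fun j _ => ha j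
  · have hne : T.Nonempty := Finset.card_pos.1 (by omega)
    obtain ⟨j, hj⟩ := hne
    exact (h2 j hj).trans (Finset.single_le_sum (f := a) (fun j _ => ha j) (hT hj))

lemma top_le {ι : Type} {k : ℕ} (J : Finset ι) (a : ι → ℝ) {t : ℝ} (ht : 0 ≤ t)
    (ha : ∀ j ∈ J, a j ≤ t) : top k J a ≤ k * t := by
  obtain ⟨-, ⟨T, hT, hc, h⟩, -⟩ := top_spec k J a
  rw [h]
  refine (Finset.sum_le_card_nsmul _ _ t fun j hj => ha j (hT hj)).trans ?_
  rw [nsmul_eq_mul]
  refine mul_le_mul_of_nonneg_right ?_ ht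
  exact_mod_cast hc

/-- the basis of large powers of a variable -/
lemma const_bound {Q : Ideal (MvPolynomial (Fin q) K)} (hp : Q.IsPrime) {i : Fin q}
    (hi : X i ∉ Q) (T r : ℕ) {a : Fin q → ℝ} (ha : ∀ j, 0 ≤ a j) :
    (r : ℝ) * a i * finrank K (VM Q T) ≤ bw Q (T + r) a := by
  classical
  obtain ⟨κ, hκ, α, e, g, h1, h2, h3, h4⟩ := HasB.zero Q T
  have hinj : Function.Injective (LinearMap.mulLeft K (Ideal.Quotient.mkₐ K Q (X i ^ r))) := by
    intro x y hxy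
    have : IsDomain (MvPolynomial (Fin q) K ⧸ Q) := (Ideal.Quotient.isDomain_iff_prime Q).2 hp
    have h5 : Ideal.Quotient.mkₐ K Q (X i ^ r) ≠ 0 := fun h =>
      hi (hp.mem_of_pow_mem _ (Ideal.Quotient.eq_zero_iff_mem.1 h))
    exact mul_left_cancel₀ h5 hxy
  have hli := h2.map' (LinearMap.mulLeft K (Ideal.Quotient.mkₐ K Q (X i ^ r)))
    (LinearMap.ker_eq_bot.2 hinj)
  have hli2 : LinearIndependent K (fun s => Ideal.Quotient.mkₐ K Q
      (X i ^ r * ((∏ j, X j ^ α s j) * g s))) := by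
    have e1 : (fun s => Ideal.Quotient.mkₐ K Q (X i ^ r * ((∏ j, X j ^ α s j) * g s))) =
        (LinearMap.mulLeft K (Ideal.Quotient.mkₐ K Q (X i ^ r))) ∘
          fun s => Ideal.Quotient.mkₐ K Q ((∏ j, X j ^ α s j) * g s) := by
      funext s
      simp only [Function.comp, LinearMap.mulLeft_apply, map_mul]
    rw [e1]
    exact hli
  obtain ⟨τ, hτ, h5⟩ := hasB_of_weights (M := T + r) a ha _ (fun _ => (r : ℝ) * a i) hli2 (by
    intro s
    have h6 : Wt Q a r ((r : ℝ) * a i) (X i ^ r : MvPolynomial (Fin q) K) := Wt_X_pow i r le_rfl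
    have h7 : Wt Q a T 0 ((∏ j, X j ^ α s j) * g s) := Wt_gen (α s) (h1 s).1 (h1 s).2
      (Finset.sum_nonneg fun j _ => mul_nonneg (Nat.cast_nonneg _) (ha j))
    have h8 := Wt_mul h6 h7
    rwa [add_zero, Nat.add_comm] at h8)
  refine le_trans (le_of_eq ?_) (h5.trans (le_bw hτ))
  rw [Finset.sum_const, Finset.card_univ, h3, nsmul_eq_mul]
  ring

/-- the formal weights bound the best basis from below -/
lemma formal_bound {N : ℕ} {Q : Ideal (MvPolynomial (Fin q) K)} (hQ : HG Q)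
    (hsp : Sparse N Q) (hN : (Ji Q).card ≤ N) :
    ∃ m0 : ℕ, ∀ (m : ℕ) (a : Fin q → ℝ), (∀ j, 0 ≤ a j) →
      ((m : ℝ) - m0) * kth (N - (Ji Q).card + 1) (Jo Q) a * finrank K (VM Q m) ≤ bw Q m a := by
  classical
  obtain ⟨m0, hm0⟩ := formal_all hQ hsp hN
  refine ⟨m0, fun m a ha => ?_⟩
  obtain ⟨κ, hκ, α, e, g, h1, h2, h3, h4⟩ := HasB.zero Q m
  obtain ⟨τ, hτ, h5⟩ := hasB_of_weights (M := m) a ha _
    (fun _ => ((m : ℝ) - m0) * kth (N - (Ji Q).card + 1) (Jo Q) a) h2 (by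
    intro s
    refine hm0 a ha m _ ?_
    have h6 : (∏ j, (X j : MvPolynomial (Fin q) K) ^ α s j).IsHomogeneous (∑ j, α s j) :=
      IsHomogeneous.prod _ _ _ fun j _ => isHomogeneous_X_pow j (α s j)
    have h7 := h6.mul (h1 s).1
    rwa [(h1 s).2] at h7)
  refine le_trans (le_of_eq ?_) (h5.trans (le_bw hτ))
  rw [Finset.sum_const, Finset.card_univ, h3, nsmul_eq_mul]
  ring

/-- the case of dimension zero -/
lemma case_zero {N : ℕ} {Q : Ideal (MvPolynomial (Fin q) K)} (hp : Q.IsPrime)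
    (hrel : ∃ k, X k ∉ Q) (hN : (Ji Q).card ≤ N) {c : ℝ} (hD : HD Q 0 c) {ε : ℝ} (hε : 0 < ε) :
    ∃ M0 : ℕ, ∀ M, M0 ≤ M → ClN N Q 0 ε M := by
  classical
  obtain ⟨k0, hk0⟩ := hrel
  have hc := hD.1
  set κ : ℕ := N - (Ji Q).card + 1 with hκ
  have hκ1 : (1 : ℝ) ≤ κ := by exact_mod_cast (by omega : 1 ≤ κ)
  have hκN : (κ : ℝ) = (N : ℝ) - (Ji Q).card + 1 := by
    rw [hκ, Nat.cast_add, Nat.cast_sub hN, Nat.cast_one]
  set η : ℝ := ε / (κ + ε) with hη
  have hκε : (0 : ℝ) < κ + ε := by linarith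
  have hη0 : 0 < η := by positivity
  have hη1 : η < 1 := by
    rw [hη, div_lt_one hκε]
    linarith
  have hηε : κ = (κ + ε) * (1 - η) := by
    rw [hη]
    field_simp
    ring
  have hT : ∀ᶠ T : ℕ in atTop, (1 - η) * c < (finrank K (VM Q T) : ℝ) := by
    have h1 := hD.2
    simp only [pow_zero, div_one] at h1
    exact h1.eventually_const_lt (by nlinarith)
  obtain ⟨T, hT⟩ := hT.exists
  have hM : ∀ᶠ M : ℕ in atTop, (1 - η) * ((M : ℝ) * finrank K (VM Q M)) <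
      ((M : ℝ) - T) * finrank K (VM Q T) := by
    have h1 := hD.2
    simp only [pow_zero, div_one] at h1
    have h2 : Tendsto (fun M : ℕ => (1 - (T : ℝ) / M) * finrank K (VM Q T) -
        (1 - η) * (finrank K (VM Q M) : ℝ)) atTop (𝓝 ((1 - 0) * finrank K (VM Q T) -
        (1 - η) * c)) :=
      ((tendsto_const_nhds.sub (tendsto_const_div_atTop_nhds_zero_nat _)).mul_const _).sub
        (h1.const_mul _)
    have h3 := h2.eventually_const_lt (u := 0) (by linarith)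
    filter_upwards [h3, eventually_ge_atTop 1] with M h4 h5
    have h6 : (0 : ℝ) < M := by exact_mod_cast h5
    have h7 := mul_pos h6 h4
    have h8 : (M : ℝ) * ((1 - (T : ℝ) / M) * finrank K (VM Q T) -
        (1 - η) * (finrank K (VM Q M) : ℝ)) = ((M : ℝ) - T) * finrank K (VM Q T) -
        (1 - η) * ((M : ℝ) * finrank K (VM Q M)) := by
      field_simp
    rw [h8] at h7
    linarith
  obtain ⟨M1, hM1⟩ := eventually_atTop.1 hM
  refine ⟨M1 + T + 1, fun M hM => ?_⟩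
  intro W _ a x hx0 hx1 ha hu hb
  have h1 := hM1 M (by omega)
  have hH1 : (1 : ℝ) ≤ finrank K (VM Q M) := by exact_mod_cast one_le_finrank hp hk0 M
  have hMpos : (0 : ℝ) < M := by exact_mod_cast (by omega : 0 < M)
  have hMH : (0 : ℝ) < (M : ℝ) * finrank K (VM Q M) := by positivity
  have hJ : (Jo Q).Nonempty := ⟨k0, mem_Jo.2 hk0⟩
  choose jm hjm1 hjm2 using fun w => (Jo Q).exists_max_image (a w) hJ
  have h2 : ∀ w, (1 - η) * ((M : ℝ) * finrank K (VM Q M)) * a w (jm w) ≤ bw Q M (a w) := by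
    intro w
    have h3 := const_bound hp (mem_Jo.1 (hjm1 w)) T (M - T) (ha w)
    rw [Nat.add_sub_cancel' (by omega), Nat.cast_sub (by omega)] at h3
    refine le_trans ?_ h3
    have h4 := mul_le_mul_of_nonneg_right h1.le (ha w (jm w))
    linarith
  have h3 : (1 - η) * ∑ w, a w (jm w) ≤ x := by
    have h4 : ((1 - η) * ∑ w, a w (jm w)) * ((M : ℝ) * finrank K (VM Q M)) ≤
        x * ((M : ℝ) * finrank K (VM Q M)) := by
      refine le_trans (le_of_eq ?_) ((Finset.sum_le_sum fun w _ => h2 w).trans hb)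
      rw [Finset.mul_sum, Finset.sum_mul]
      exact Finset.sum_congr rfl fun w _ => by ring
    exact le_of_mul_le_mul_right h4 hMH
  have h4 : ∑ w, top κ (Jo Q) (a w) ≤ κ * ∑ w, a w (jm w) := by
    rw [Finset.mul_sum]
    exact Finset.sum_le_sum fun w _ => top_le (Jo Q) (a w) (ha w _) (hjm2 w)
  refine h4.trans ?_
  have h5 : κ * ∑ w, a w (jm w) = (κ + ε) * ((1 - η) * ∑ w, a w (jm w)) := by
    rw [← mul_assoc, ← hηε]
  rw [h5]
  have h6 : (κ + ε) * ((1 - η) * ∑ w, a w (jm w)) ≤ (κ + ε) * x :=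
    mul_le_mul_of_nonneg_left h3 hκε.le
  refine h6.trans ?_
  rw [hκN]
  have h7 : (0 : ℝ) ≤ (N : ℝ) - (Ji Q).card := by linarith
  push_cast
  nlinarith

end Pool.Agent.H426.Noc
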