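import Pool.Agent.H426.Noc.NTight

/-!
The main inequality for all primes.
-/

set_option autoImplicit false

namespace Pool.Agent.H426.Noc

open MvPolynomial Finset Module Filter
open Pool.Agent.TH875 (VM)
open Pool.Agent.H426.Ru (HG)
open Pool.Agent.H426.Two
open Api
open scoped Topology

variable {K : Type} [Field K] {q : ℕ}

lemma top_eq_zero {ι : Type} {k : ℕ} (J : Finset ι) (a : ι → ℝ) (h : ∀ j ∈ J, a j = 0) :
    top k J a = 0 := by
  obtain ⟨-, ⟨T, hT, -, h1⟩, -⟩ := top_spec k J a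
  rw [h1]
  exact Finset.sum_eq_zero fun j hj => h j (hT hj)

lemma finrank_zero {Q : Ideal (MvPolynomial (Fin q) K)} (hp : Q.IsPrime) {k0 : Fin q}
    (hk0 : X k0 ∉ Q) : (1 : ℝ) ≤ finrank K (VM Q 0) := by
  exact_mod_cast one_le_finrank hp hk0 0

lemma eq_zero_of_bw {Q : Ideal (MvPolynomial (Fin q) K)} (hp : Q.IsPrime) {M : ℕ} (hM : 1 ≤ M)
    {a : Fin q → ℝ} (ha : ∀ j, 0 ≤ a j) (h : bw Q M a = 0) : ∀ j ∈ Jo Q, a j = 0 := by
  intro j hj
  have h1 := const_bound hp (mem_Jo.1 hj) 0 M ha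
  rw [zero_add, h] at h1
  have h2 := finrank_zero hp (mem_Jo.1 hj)
  have h3 : (1 : ℝ) ≤ M := by exact_mod_cast hM
  have h4 : 0 ≤ a j := ha j
  by_contra h5
  have h6 : 0 < a j := lt_of_le_of_ne h4 (Ne.symm h5)
  have h7 : 0 < (M : ℝ) * a j * finrank K (VM Q 0) := by positivity
  linarith

/-- from the tight families to all families -/
lemma reduce {N : ℕ} {Q : Ideal (MvPolynomial (Fin q) K)} (hp : Q.IsPrime)
    (hrel : ∃ k, X k ∉ Q) {ν : ℕ} (hν : (Ji Q).card + ν ≤ N) {ε : ℝ} (hε : 0 < ε) {M : ℕ}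
    (hM : 1 ≤ M) (h : ∀ i, X i ∉ Q → ClT N Q i ν ε M) : ClN N Q ν ε M := by
  classical
  intro W _ a x hx0 hx1 ha hu hb
  obtain ⟨k0, hk0⟩ := hrel
  have hKν : (0 : ℝ) ≤ (N : ℝ) - (Ji Q).card - ν := by
    have : ((Ji Q).card : ℝ) + ν ≤ N := by exact_mod_cast hν
    linarith
  have hν0 : (0 : ℝ) ≤ ν := Nat.cast_nonneg _
  rcases isEmpty_or_nonempty W with hW | hW
  · rw [Finset.univ_eq_empty, Finset.sum_empty]
    positivity
  have hHM : (1 : ℝ) ≤ finrank K (VM Q M) := by exact_mod_cast one_le_finrank hp hk0 M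
  have hM1 : (1 : ℝ) ≤ M := by exact_mod_cast hM
  have hMH : (0 : ℝ) < (M : ℝ) * finrank K (VM Q M) := by positivity
  obtain ⟨μ, hμ0, hμB, hμu, hμth, hcase⟩ := balance2 (Jo Q) a ha (fun w => bw Q M (a w))
    (fun w => top (N - (Ji Q).card + 1) (Jo Q) (a w)) (fun w => bw_nonneg _ _ (ha w))
    (fun w => (top_spec _ _ _).1) (fun w hw => by
      have h1 := eq_zero_of_bw hp hM (ha w) hw
      exact ⟨h1, top_eq_zero _ _ h1⟩) _ hb (fun j hj => hu j (mem_Jo.1 hj))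
  refine hμth.trans ?_
  have hbw : ∀ w, bw Q M (fun j => μ w * a w j) = μ w * bw Q M (a w) := fun w =>
    bw_mul _ _ _ (hμ0 w)
  have htp : ∀ w, top (N - (Ji Q).card + 1) (Jo Q) (fun j => μ w * a w j) =
      μ w * top (N - (Ji Q).card + 1) (Jo Q) (a w) := fun w => top_mul _ _ _ (hμ0 w)
  rcases hcase with ⟨i, hi, hμi⟩ | ⟨w0, hw0⟩
  · have h1 := h i (mem_Jo.1 hi) W (fun w j => μ w * a w j) x hx0 hx1
      (fun w j => mul_nonneg (hμ0 w) (ha w j)) (fun j hj => hμu j (mem_Jo.2 hj)) (by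
        rw [Finset.sum_congr rfl fun w _ => hbw w]
        exact hμB) hμi
    rw [Finset.sum_congr rfl fun w _ => htp w] at h1
    exact h1
  · -- only one member
    have hs : ∀ f : W → ℝ, ∑ w, μ w * f w = μ w0 * f w0 := fun f =>
      Finset.sum_eq_single w0 (fun w _ hw => by rw [hw0 w hw, zero_mul])
        (fun h => absurd (Finset.mem_univ _) h)
    rw [hs]
    rw [hs] at hμB
    set b : Fin q → ℝ := fun j => μ w0 * a w0 j with hbd
    have hb0 : ∀ j, 0 ≤ b j := fun j => mul_nonneg (hμ0 w0) (ha w0 j)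
    have hb1 : ∀ j ∈ Jo Q, b j ≤ 1 := fun j hj => by
      have := hμu j hj
      rwa [hs (fun w => a w j)] at this
    rw [← htp w0]
    rw [← hbw w0] at hμB
    obtain ⟨i, hi, himax⟩ := (Jo Q).exists_max_image b ⟨k0, mem_Jo.2 hk0⟩
    have hrhs : 0 ≤ (ν + 1) * x + 2 * ((N : ℝ) - (Ji Q).card - ν) + ε := by positivity
    rcases (hb0 i).lt_or_eq with hpos | hzero
    swap
    · have h1 : ∀ j ∈ Jo Q, b j = 0 := fun j hj =>
        le_antisymm ((himax j hj).trans hzero.symm.le) (hb0 j)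
      rw [top_eq_zero _ _ h1]
      exact hrhs
    · have hinv : 0 ≤ (b i)⁻¹ := by positivity
      have hbb : ∀ j ∈ Jo Q, (b i)⁻¹ * b j ≤ 1 := fun j hj => by
        rw [inv_mul_le_one₀ hpos]
        exact himax j hj
      have hnn : ∀ j, 0 ≤ (b i)⁻¹ * b j := fun j => mul_nonneg hinv (hb0 j)
      set xb : ℝ := bw Q M (fun j => (b i)⁻¹ * b j) / ((M : ℝ) * finrank K (VM Q M)) with hxb
      have hxb0 : 0 ≤ xb := div_nonneg (bw_nonneg _ _ hnn) hMH.le
      have hxb1 : xb ≤ 1 := by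
        rw [hxb, div_le_one hMH]
        have h1 := bw_le (I := Q) M (t := 1) zero_le_one fun j hj => hbb j (mem_Jo.2 hj)
        rwa [one_mul] at h1
      have h1 := h i (mem_Jo.1 hi) Unit (fun _ j => (b i)⁻¹ * b j) xb hxb0 hxb1
        (fun _ j => hnn j) (fun j hj => by simpa using hbb j (mem_Jo.2 hj)) (by
          rw [Fintype.sum_unique, hxb, div_mul_cancel₀ _ hMH.ne']) (by
          rw [Fintype.sum_unique, inv_mul_cancel₀ hpos.ne'])
      rw [Fintype.sum_unique, top_mul _ _ _ hinv] at h1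
      have h2 := mul_le_mul_of_nonneg_left h1 hpos.le
      rw [← mul_assoc, mul_inv_cancel₀ hpos.ne', one_mul] at h2
      refine h2.trans ?_
      have h3 : b i * xb ≤ x := by
        rw [hxb, bw_mul _ _ _ hinv, mul_div_assoc', ← mul_assoc, mul_inv_cancel₀ hpos.ne',
          one_mul, div_le_iff₀ hMH]
        exact hμB
      have h4 := hb1 i hi
      have h5 : b i * (2 * ((N : ℝ) - (Ji Q).card - ν) + ε) ≤
          1 * (2 * ((N : ℝ) - (Ji Q).card - ν) + ε) :=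
        mul_le_mul_of_nonneg_right h4 (by positivity)
      have h6 : (ν + 1) * (b i * xb) ≤ (ν + 1) * x := mul_le_mul_of_nonneg_left h3 (by positivity)
      linarith

/-- the main inequality -/
theorem clN {N : ℕ} {I0 : Ideal (MvPolynomial (Fin q) K)} (hsp : Sparse N I0)
    (Q : Ideal (MvPolynomial (Fin q) K)) : Q.IsPrime → HG Q → I0 ≤ Q → (∃ k, X k ∉ Q) →
      ∀ ν c, HD Q ν c → (Ji Q).card + ν ≤ N ∧
        ∀ ε : ℝ, 0 < ε → ∃ M0 : ℕ, ∀ M, M0 ≤ M → ClN N Q ν ε M := by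
  classical
  induction Q using WellFoundedGT.induction with
  | ind Q ih =>
    intro hp hQ hle hrel ν c hD
    have hspQ : Sparse N Q := fun Q' a b c => hsp Q' a b (hle.trans c)
    have hN : (Ji Q).card ≤ N := by
      by_contra h
      push Not at h
      obtain ⟨k, hk⟩ := hrel
      exact hk (hspQ Q hp hQ le_rfl ⟨Ji Q, h, fun j hj => mem_Ji.1 hj⟩ k)
    rcases ν with _ | k
    · refine ⟨by simpa using hN, fun ε hε => ?_⟩
      exact case_zero hp hrel hN hD hε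
    · have h1 : ∀ i, X i ∉ Q → (Ji Q).card + (k + 1) ≤ N ∧
          ∀ ε : ℝ, 0 < ε → ∃ M0 : ℕ, ∀ M, M0 ≤ M → ClT N Q i (k + 1) ε M := fun i hi =>
        case_tight hspQ hQ hp hN hi hD fun P hPp hP hlt hr ν c hd =>
          ih P hlt hPp hP (hle.trans hlt.le) hr ν c hd
      obtain ⟨k0, hk0⟩ := hrel
      refine ⟨(h1 k0 hk0).1, fun ε hε => ?_⟩
      have h2 : ∀ i, ∃ M0 : ℕ, X i ∉ Q → ∀ M, M0 ≤ M → ClT N Q i (k + 1) ε M := by
        intro i
        by_cases hi : X i ∉ Q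
        · obtain ⟨M0, h3⟩ := (h1 i hi).2 ε hε
          exact ⟨M0, fun _ => h3⟩
        · exact ⟨0, fun h => absurd h hi⟩
      choose M0 hM0 using h2
      refine ⟨∑ i, M0 i + 1, fun M hM => ?_⟩
      refine reduce hp ⟨k0, hk0⟩ (h1 k0 hk0).1 hε (by omega) fun i hi => hM0 i hi M ?_
      have := Finset.single_le_sum (f := M0) (fun _ _ => Nat.zero_le _) (Finset.mem_univ i)
      omega

end Pool.Agent.H426.Noc
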