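import Pool.Agent.H426.Noc.NMain

/-!
The sharp inequality for the rational points of a projective variety, for the coordinate
hyperplanes.
-/

set_option autoImplicit false

namespace Pool.Agent.H426.Noc

open MvPolynomial Finset Module NumberField IsDedekindDomain Height
open Pool.Agent.W180.OP Pool.Agent.W180.TP Pool.Agent.NH28
open Pool.Agent.TH875 (VM VM_finite not_all form_ub)
open Pool.Agent.H426.Ru (HG noeth main_f cone)
open Pool.Agent.H426.Two
open Api

variable {K : Type} [Field K] [NumberField K] {q : ℕ}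

/-- the sharp bound for a prime ideal without variables -/
lemma prime_sharp {N : ℕ} {I0 : Ideal (MvPolynomial (Fin q) K)} (h0 : HG I0) (hI0 : Sparse N I0)
    {P : Ideal (MvPolynomial (Fin q) K)} (hP : HG P) (hp : P.IsPrime) (hle : I0 ≤ P)
    (hX : ∀ j, X j ∉ P) (k0 : Fin q) {ν : ℕ} {c : ℝ} (hD : HD P ν c) {ε : ℝ} (hε : 0 < ε) :
    ν ≤ N ∧ ∃ Z : MvPolynomial (Fin q) K, Z ∉ P ∧ (∃ t, Z.IsHomogeneous t) ∧
      ∀ S : Finset (Pl K), ∃ C : ℝ, 0 ≤ C ∧ ∀ y : Fin q → K, (∀ j, y j ≠ 0) →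
        (∀ p ∈ P, aeval y p = 0) → aeval y Z ≠ 0 →
        ∑ v ∈ S, ∑ j, lc v y j ≤ (2 * N - ν + 1 + ε) * logHeight y + C := by
  classical
  obtain ⟨C1, hC10, hb⟩ := basis_ineq hP hp hX k0
  have hJo : Jo P = Finset.univ := by
    ext j
    simp [mem_Jo, hX j]
  have hJi : Ji P = ∅ := by
    ext j
    simp [mem_Ji, hX j]
  obtain ⟨hν, hcl⟩ := clN hI0 P hp hP hle ⟨k0, hX k0⟩ ν c hD
  rw [hJi, Finset.card_empty, zero_add] at hν
  refine ⟨hν, ?_⟩
  have hνr : (ν : ℝ) ≤ N := by exact_mod_cast hν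
  have hν0 : (0 : ℝ) ≤ ν := Nat.cast_nonneg _
  have hN0 : (0 : ℝ) ≤ N := Nat.cast_nonneg _
  obtain ⟨M0, hM0⟩ := hcl (ε / 2) (by positivity)
  obtain ⟨Cs, hCs0, hCs⟩ := sparse h0 hI0
  choose Cl hCl0 hCl using fun j : Fin q => sum_lc_le (K := K) j
  have hCls : 0 ≤ ∑ j, Cl j := Finset.sum_nonneg fun t _ => hCl0 t
  set A : ℝ := 2 * N - ν + 1 + ε / 2 with hA
  have hA0 : 0 < A := by rw [hA]; linarith
  set M : ℕ := M0 + 1 + ⌈A * (C1 + 1) / (ε / 2)⌉₊ with hM
  have hM1 : (1 : ℝ) ≤ M := by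
    have : 1 ≤ M := by omega
    exact_mod_cast this
  have hM0' : (0 : ℝ) < M := by linarith
  set η : ℝ := (C1 + 1) / M with hη
  have hη0 : 0 ≤ η := by positivity
  have hAη : A * η ≤ ε / 2 := by
    have h5 : A * (C1 + 1) / (ε / 2) ≤ ⌈A * (C1 + 1) / (ε / 2)⌉₊ := Nat.le_ceil _
    have h6 : ((⌈A * (C1 + 1) / (ε / 2)⌉₊ : ℕ) : ℝ) ≤ M := by
      have : ⌈A * (C1 + 1) / (ε / 2)⌉₊ ≤ M := by omega
      exact_mod_cast this
    rw [div_le_iff₀ (by positivity)] at h5
    rw [hη, mul_div_assoc', div_le_iff₀ hM0']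
    nlinarith
  obtain ⟨Z, hZ, hZt, hb⟩ := hb M
  refine ⟨Z, hZ, hZt, fun S => ?_⟩
  obtain ⟨C, hC0, hC⟩ := hb S
  set C3 : ℝ := 1 + ∑ j, Cl j + C with hC3
  have hC30 : 0 < C3 := by positivity
  refine ⟨A * C3 + S.card * (q * Cs), by positivity, fun y hy hyP hyZ => ?_⟩
  have hh := logHeight_nonneg y
  set h : ℝ := logHeight y with hhd
  have hlc0 : ∀ v j, 0 ≤ lc v y j := fun v j => lc_nonneg v j (hy j)
  set h' : ℝ := (1 + η) * h + C3 with hh'
  have hh'0 : 0 < h' := by positivity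
  have hinv0 : 0 ≤ h'⁻¹ := by positivity
  have ha0 : ∀ v j, max (lc v y j - Cs) 0 ≤ lc v y j := fun v j =>
    max_le (by linarith) (hlc0 v j)
  have hηh : 0 ≤ η * h := by positivity
  have hmain := hM0 M (by omega) S (fun v j => h'⁻¹ * max (lc v.1 y j - Cs) 0) 1 zero_le_one
    le_rfl (fun v j => mul_nonneg hinv0 (le_max_right _ _)) (by
      intro j _
      rw [← Finset.mul_sum]
      have h1 : ∑ v : S, max (lc v.1 y j - Cs) 0 ≤ ∑ v : S, lc v.1 y j :=
        Finset.sum_le_sum fun v _ => ha0 v.1 j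
      rw [Finset.sum_coe_sort S (fun v => lc v y j)] at h1
      have h2 := hCl j S y (hy j)
      have h3 : Cl j ≤ ∑ j, Cl j :=
        Finset.single_le_sum (f := Cl) (fun t _ => hCl0 t) (Finset.mem_univ _)
      rw [inv_mul_le_one₀ hh'0]
      linarith) (by
      choose τ hτ hτb using fun v : S =>
        exists_bw P M (fun j => h'⁻¹ * max (lc v.1 y j - Cs) 0)
      have h1 := hC y hy hyP hyZ (fun v => if hv : v ∈ S then τ ⟨v, hv⟩ else fun _ => 0) (by
        intro v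
        by_cases hv : v ∈ S
        · rw [dif_pos hv]
          exact hτ _
        · rw [dif_neg hv]
          exact HasB.zero P M)
      rw [← Finset.sum_coe_sort S] at h1
      have h2 : ∑ v : S, bw P M (fun j => h'⁻¹ * max (lc v.1 y j - Cs) 0) ≤
          h'⁻¹ * ∑ v : S, ∑ j, (((if hv : v.1 ∈ S then τ ⟨v.1, hv⟩ else fun _ => 0 :
            Fin q → ℕ) j : ℕ) : ℝ) * lc v.1 y j := by
        rw [Finset.mul_sum]
        refine Finset.sum_le_sum fun v _ => ?_
        rw [hτb v, Finset.mul_sum]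
        refine Finset.sum_le_sum fun j _ => ?_
        rw [dif_pos v.2]
        have h3 : (τ v j : ℝ) * (h'⁻¹ * max (lc v.1 y j - Cs) 0) ≤
            (τ v j : ℝ) * (h'⁻¹ * lc v.1 y j) :=
          mul_le_mul_of_nonneg_left (mul_le_mul_of_nonneg_left (ha0 v.1 j) hinv0)
            (Nat.cast_nonneg _)
        linarith
      refine h2.trans ((mul_le_mul_of_nonneg_left h1 hinv0).trans ?_)
      rw [one_mul, inv_mul_le_iff₀ hh'0]
      have h4 : (M + C1 + 1) * h + C ≤ h' * M := by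
        have h5 : h' * M = M * h + (C1 + 1) * h + C3 * M := by
          rw [hh', hη]
          field_simp
        rw [h5]
        have h6 : C ≤ C3 * M := by
          have h7 : C ≤ C3 := by linarith
          exact h7.trans (le_mul_of_one_le_right hC30.le hM1)
        linarith
      have h8 := mul_le_mul_of_nonneg_left h4 (Nat.cast_nonneg (finrank K (VM P M)) : (0 : ℝ) ≤ _)
      linarith)
  rw [hJo, hJi, Finset.card_empty, Nat.sub_zero] at hmain
  have hsum : ∀ v : S, h'⁻¹ * ∑ j, max (lc v.1 y j - Cs) 0 ≤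
      top (N + 1) Finset.univ (fun j => h'⁻¹ * max (lc v.1 y j - Cs) 0) := by
    intro v
    rw [top_mul _ _ _ hinv0]
    refine mul_le_mul_of_nonneg_left ?_ hinv0
    have h1 := hCs v.1 y hy fun p hp => hyP p (hle hp)
    have h2 := (top_spec (N + 1) Finset.univ (fun j => max (lc v.1 y j - Cs) 0)).2.2
      (Finset.univ.filter fun j => max (lc v.1 y j - Cs) 0 ≠ 0) (Finset.subset_univ _)
      (h1.trans (Nat.le_succ N))
    rwa [Finset.sum_filter_ne_zero] at h2
  have h1 : h'⁻¹ * ∑ v : S, ∑ j, max (lc v.1 y j - Cs) 0 ≤ A := by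
    rw [Finset.mul_sum]
    refine ((Finset.sum_le_sum fun v _ => hsum v).trans hmain).trans (le_of_eq ?_)
    rw [hA]
    push_cast
    ring
  rw [inv_mul_le_iff₀ hh'0] at h1
  have h2 : ∑ v ∈ S, ∑ j, lc v y j ≤ ∑ v : S, ∑ j, (max (lc v.1 y j - Cs) 0 + Cs) := by
    rw [← Finset.sum_coe_sort S]
    refine Finset.sum_le_sum fun v _ => Finset.sum_le_sum fun j _ => ?_
    have := le_max_left (lc v.1 y j - Cs) 0
    linarith
  have h3 : ∑ v : S, ∑ j, (max (lc v.1 y j - Cs) 0 + Cs) =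
      ∑ v : S, ∑ j, max (lc v.1 y j - Cs) 0 + S.card * (q * Cs) := by
    simp only [Finset.sum_add_distrib, Finset.sum_const, Finset.card_univ, Fintype.card_fin,
      Fintype.card_coe, nsmul_eq_mul]
  rw [h3] at h2
  have h4 : h' * A ≤ (2 * N - ν + 1 + ε) * h + A * C3 := by
    have h5 : A * η * h ≤ ε / 2 * h := mul_le_mul_of_nonneg_right hAη hh
    have h6 : h' * A = A * h + A * η * h + A * C3 := by
      rw [hh']
      ring
    rw [h6, hA]
    rw [hA] at h5
    linarith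
  linarith

/-- **The sharp inequality for the rational points outside finitely many small varieties.** -/
theorem noeth_sharp {N : ℕ} {I0 : Ideal (MvPolynomial (Fin q) K)} (h0 : HG I0)
    (hI0 : Sparse N I0) (μ : ℕ) {ε : ℝ} (hε : 0 < ε) (hq : 0 < q) :
    ∃ (k : ℕ) (B : Fin k → Ideal (MvPolynomial (Fin q) K)),
      (∀ i, (B i).IsPrime ∧ HG (B i) ∧ I0 ≤ B i ∧ (∃ j, X j ∉ B i) ∧
        ∃ ν c, HD (B i) ν c ∧ ν < μ) ∧
      ∀ S : Finset (Pl K), ∃ C : ℝ, 0 ≤ C ∧ ∀ y : Fin q → K, (∀ j, y j ≠ 0) →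
        (∀ p ∈ I0, aeval y p = 0) → (∃ i, ∀ p ∈ B i, aeval y p = 0) ∨
          ∑ v ∈ S, ∑ j, lc v y j ≤ (2 * N - μ + 1 + ε) * logHeight y + C := by
  classical
  refine noeth (fun I => ∃ (k : ℕ) (B : Fin k → Ideal (MvPolynomial (Fin q) K)),
      (∀ i, (B i).IsPrime ∧ HG (B i) ∧ I0 ≤ B i ∧ (∃ j, X j ∉ B i) ∧
        ∃ ν c, HD (B i) ν c ∧ ν < μ) ∧
      ∀ S : Finset (Pl K), ∃ C : ℝ, 0 ≤ C ∧ ∀ y : Fin q → K, (∀ j, y j ≠ 0) →
        (∀ p ∈ I, aeval y p = 0) → (∃ i, ∀ p ∈ B i, aeval y p = 0) ∨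
          ∑ v ∈ S, ∑ j, lc v y j ≤ (2 * N - μ + 1 + ε) * logHeight y + C) I0 h0 ?_ ?_ ?_
  · refine ⟨0, Fin.elim0, fun i => i.elim0, fun S => ⟨0, le_rfl, fun y _ h => ?_⟩⟩
    exact absurd (h 1 Submodule.mem_top) (by rw [map_one]; exact one_ne_zero)
  · intro P hP hp hle
    by_cases hX : ∃ j, X j ∈ P
    · obtain ⟨j, hj⟩ := hX
      refine ⟨1, 0, isHomogeneous_one _ _, fun h => hp.ne_top ((Ideal.eq_top_iff_one P).2 h),
        fun _ => ⟨0, Fin.elim0, fun i => i.elim0, fun S => ⟨0, le_rfl, fun y hy h => ?_⟩⟩⟩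
      have := h _ hj
      rw [aeval_X] at this
      exact absurd this (hy j)
    · push Not at hX
      obtain ⟨ν, c, hD⟩ := exists_HD hP hp ⟨⟨0, hq⟩, hX _⟩
      rcases lt_or_ge ν μ with hνμ | hνμ
      · refine ⟨1, 0, isHomogeneous_one _ _, fun h => hp.ne_top ((Ideal.eq_top_iff_one P).2 h),
          fun _ => ⟨1, fun _ => P, fun _ => ⟨hp, hP, hle, ⟨⟨0, hq⟩, hX _⟩, ν, c, hD, hνμ⟩,
            fun S => ⟨0, le_rfl, fun y _ h => Or.inl ⟨0, h⟩⟩⟩⟩
      obtain ⟨hνN, Z, hZ, ⟨t, hZt⟩, hb⟩ := prime_sharp h0 hI0 hP hp hle hX ⟨0, hq⟩ hD hε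
      refine ⟨Z, t, hZt, hZ, ?_⟩
      rintro ⟨k, B, hB, h2⟩
      refine ⟨k, B, hB, fun S => ?_⟩
      obtain ⟨C2, hC2, h2⟩ := h2 S
      obtain ⟨C1, hC1, h1⟩ := hb S
      refine ⟨C1 + C2, by positivity, fun y hy hyP => ?_⟩
      by_cases hyZ : aeval y Z = 0
      · rcases h2 y hy (by
          intro p hp
          rw [sup_comm, Ideal.mem_span_singleton_sup] at hp
          obtain ⟨a, b, hb, rfl⟩ := hp
          rw [map_add, map_mul, hyZ, mul_zero, hyP b hb, add_zero]) with h3 | h3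
        · exact Or.inl h3
        · right
          linarith
      · right
        have h3 := h1 y hy hyP hyZ
        have hh := logHeight_nonneg y
        have h4 : (μ : ℝ) ≤ ν := by exact_mod_cast hνμ
        have h5 : (2 * N - ν + 1 + ε) * logHeight y ≤ (2 * N - μ + 1 + ε) * logHeight y :=
          mul_le_mul_of_nonneg_right (by linarith) hh
        linarith
  · intro I a b hI hle hab h1 h2
    obtain ⟨k1, B1, hB1, h1⟩ := h1
    obtain ⟨k2, B2, hB2, h2⟩ := h2
    refine ⟨k1 + k2, Fin.append B1 B2, ?_, fun S => ?_⟩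
    · intro i
      refine Fin.addCases (fun i => ?_) (fun i => ?_) i
      · rw [Fin.append_left]
        exact hB1 i
      · rw [Fin.append_right]
        exact hB2 i
    obtain ⟨C1, hC1, h1⟩ := h1 S
    obtain ⟨C2, hC2, h2⟩ := h2 S
    refine ⟨C1 + C2, by positivity, fun y hy hyI => ?_⟩
    have h3 := hyI _ hab
    rw [map_mul, mul_eq_zero] at h3
    rcases h3 with h3 | h3
    · rcases h1 y hy (by
        intro p hp
        rw [sup_comm, Ideal.mem_span_singleton_sup] at hp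
        obtain ⟨a, b, hb, rfl⟩ := hp
        rw [map_add, map_mul, h3, mul_zero, hyI b hb, add_zero]) with ⟨i, h4⟩ | h4
      · refine Or.inl ⟨Fin.castAdd k2 i, ?_⟩
        rw [Fin.append_left]
        exact h4
      · right
        linarith
    · rcases h2 y hy (by
        intro p hp
        rw [sup_comm, Ideal.mem_span_singleton_sup] at hp
        obtain ⟨a, b, hb, rfl⟩ := hp
        rw [map_add, map_mul, h3, mul_zero, hyI b hb, add_zero]) with ⟨i, h4⟩ | h4
      · refine Or.inl ⟨Fin.natAdd k1 i, ?_⟩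
        rw [Fin.append_right]
        exact h4
      · right
        linarith

end Pool.Agent.H426.Noc
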