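import Pool.Agent.H426.Noc.NMain
import Pool.Agent.H426.Noc.Api2

/-!
The points whose norms lie in a small variety are in a proper closed subset.
-/

set_option autoImplicit false

namespace Pool.Agent.H426.Noc

open MvPolynomial Finset Module Filter
open Pool.Agent.TH875 (VM)
open Pool.Agent.H426.Ru (HG)
open Pool.Agent.H426.Two
open Api
open Api2
open scoped Topology

/-- the transcendence degree and the growth of the Hilbert function -/
lemma trdeg_le_of_HD {K : Type} [Field K] {q : ℕ} {P : Ideal (MvPolynomial (Fin q) K)}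
    (hp : P.IsPrime) {ν : ℕ} {c : ℝ} (hD : HD P ν c) :
    Algebra.trdeg K (MvPolynomial (Fin q) K ⧸ P) ≤ ((ν + 1 : ℕ) : Cardinal) := by
  by_contra hcon
  push Not at hcon
  have h1 := Cardinal.natCast_add_one_le_iff.2 hcon
  have h2 := fun M => hilb_trdeg hp h1 M
  have hf : (0 : ℝ) < ((ν + 1).factorial : ℝ) := by exact_mod_cast Nat.factorial_pos _
  -- the Hilbert function is `o(M ^ (ν + 1))`
  have h3 := tendsto_lower (k' := ν + 1) (Nat.lt_succ_self ν) hD.2
  have h4 : ∀ᶠ M : ℕ in atTop, (finrank K (VM P M) : ℝ) / (M : ℝ) ^ (ν + 1) <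
      1 / ((ν + 1).factorial : ℝ) := h3.eventually_lt_const (by positivity)
  obtain ⟨M, h5, h6⟩ := (h4.and (eventually_ge_atTop 1)).exists
  have h7 : (0 : ℝ) < (M : ℝ) ^ (ν + 1) := by
    have : (0 : ℝ) < M := by exact_mod_cast h6
    positivity
  rw [div_lt_iff₀ h7] at h5
  have h8 := h2 M
  have h9 : (M : ℝ) ^ (ν + 1) / ((ν + 1).factorial : ℝ) =
      1 / ((ν + 1).factorial : ℝ) * (M : ℝ) ^ (ν + 1) := by ring
  rw [h9] at h8
  linarith

section

variable {K : Type} [Field K] {n : ℕ}

/-- the values at the generic point of a line -/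
lemma coeff_cone {L : Type} [Field L] [Algebra K L] (x : Fin n → L) (p : MvPolynomial (Fin n) K)
    (i : ℕ) : (aeval (fun j => Polynomial.C (x j) * Polynomial.X : Fin n → Polynomial L) p).coeff i =
      aeval x (homogeneousComponent i p) := by
  conv_lhs => rw [← sum_homogeneousComponent p]
  rw [map_sum, Polynomial.finsetSum_coeff]
  by_cases hi : i ∈ Finset.range (p.totalDegree + 1)
  · rw [Finset.sum_eq_single_of_mem i hi]
    · rw [aeval_CX x _ i (homogeneousComponent_isHomogeneous i p),
        Polynomial.coeff_C_mul_X_pow, if_pos rfl]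
    · intro j _ hj
      rw [aeval_CX x _ j (homogeneousComponent_isHomogeneous j p),
        Polynomial.coeff_C_mul_X_pow, if_neg (Ne.symm hj)]
  · rw [Finset.sum_eq_zero, homogeneousComponent_eq_zero, map_zero]
    · rw [Finset.mem_range, not_lt] at hi
      omega
    · intro j hj
      have hij : i ≠ j := fun h => hi (by rw [h]; exact hj)
      rw [aeval_CX x _ j (homogeneousComponent_isHomogeneous j p),
        Polynomial.coeff_C_mul_X_pow, if_neg hij]

/-- homogeneous ideals and scaling -/
lemma scale_mem {q : ℕ} {P : Ideal (MvPolynomial (Fin q) K)} (hP : HG P) {E : Type} [Field E]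
    [Algebra K E] (y : Fin q → E) (c : E) (h : ∀ p ∈ P, aeval y p = 0) :
    ∀ p ∈ P, aeval (fun j => c * y j) p = 0 := by
  obtain ⟨m, G, g, hG, rfl⟩ := hP
  intro p hp
  refine Submodule.span_induction (p := fun p _ => aeval (fun j => c * y j) p = 0) ?_ ?_ ?_ ?_ hp
  · rintro _ ⟨k, rfl⟩
    rw [Pool.Agent.H264.TwoT4.scale c y (G k) (hG k), h _ (Ideal.subset_span ⟨k, rfl⟩), mul_zero]
  · exact map_zero _
  · intro a b _ _ ha hb
    rw [map_add, ha, hb, add_zero]
  · intro a b _ hb
    rw [smul_eq_mul, map_mul, hb, mul_zero]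

lemma map_aeval {q : ℕ} {E E' : Type} [Field E] [Algebra K E] [Field E'] [Algebra K E']
    [Algebra E E'] [IsScalarTower K E E'] (y : Fin q → E) (p : MvPolynomial (Fin q) K) :
    aeval (fun j => algebraMap E E' (y j)) p = algebraMap E E' (aeval y p) := by
  have := comp_aeval_apply (IsScalarTower.toAlgHom K E E') (f := y) p
  exact this.symm

end

/-- The points whose norms lie in a small variety are in a proper closed subset. -/
theorem small {K : Type} [Field K] {n m q N δ e μ : ℕ} (hδ : 1 ≤ δ) (he : 1 ≤ e)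
    (hq : N * δ < q)
    (G : Fin m → MvPolynomial (Fin n) K) (g : Fin m → ℕ) (hG : ∀ k, (G k).IsHomogeneous (g k))
    (hp : (Ideal.span (Set.range G)).IsPrime)
    (F : Fin q → MvPolynomial (Fin n) K) (hF : ∀ i, (F i).IsHomogeneous e)
    (hgp : ∀ J : Fin (N + 1) ↪ Fin q, ∀ (E : Type) [Field E] [Algebra K E] (x : Fin n → E),
      (∀ k, aeval x (G k) = 0) → (∀ k, aeval x (F (J k)) = 0) → x = 0)
    (hμ : (μ : Cardinal) < Algebra.trdeg K (MvPolynomial (Fin n) K ⧸ Ideal.span (Set.range G)))
    {P : Ideal (MvPolynomial (Fin q) K)} (hPh : HG P)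
    (hP : Algebra.trdeg K (MvPolynomial (Fin q) K ⧸ P) ≤ μ) (s0 : Fin δ) :
    ∃ (Z : MvPolynomial (Fin n) K) (t : ℕ), Z.IsHomogeneous t ∧ Z ∉ Ideal.span (Set.range G) ∧
      ∀ (E : Type) [Field E] [Algebra K E] (x : Fin δ → Fin n → E), (∀ s, x s ≠ 0) →
        (∀ s k, aeval (x s) (G k) = 0) →
        (∀ p ∈ P, aeval (fun j => ∏ s, aeval (x s) (F j)) p = 0) → aeval (x s0) Z = 0 := by
  classical
  by_contra hcon
  push Not at hcon
  obtain ⟨E, _, _, x, hx0, hxG, hxP, hgen⟩ := exists_gen (e := e) G hp F P s0 (by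
    intro Z t hZ hZI
    obtain ⟨E, i1, i2, x, h1, h2, h3, h4⟩ := hcon Z t hZ hZI
    exact ⟨E, i1, i2, x, h1, h2, h3, h4⟩)
  have hHG : HG (Ideal.span (Set.range G)) := ⟨m, G, g, hG, rfl⟩
  -- the field of the generic line
  have hi : ∀ s, ∃ i, x s i ≠ 0 := fun s => Function.ne_iff.1 (hx0 s)
  choose i0 hi0 using hi
  let E' : Type := FractionRing (Polynomial E)
  have hinjE : Function.Injective (algebraMap E E') := (algebraMap E E').injective
  let T : E' := algebraMap (Polynomial E) E' Polynomial.X
  have hT : T ≠ 0 := by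
    have h1 := IsFractionRing.injective (Polynomial E) E'
    intro h
    exact Polynomial.X_ne_zero (h1 (h.trans (map_zero _).symm))
  let c : Fin δ → E' := fun s => if s = s0 then T else algebraMap E E' (x s (i0 s))⁻¹
  have hc : ∀ s, c s ≠ 0 := by
    intro s
    by_cases hs : s = s0
    · simp only [c, hs, if_true]
      exact hT
    · simp only [c, hs, if_false]
      exact (map_ne_zero_iff _ hinjE).2 (inv_ne_zero (hi0 s))
  let x' : Fin δ → Fin n → E' := fun s i => c s * algebraMap E E' (x s i)
  have hev : ∀ (s : Fin δ) (t : ℕ) (p : MvPolynomial (Fin n) K), p.IsHomogeneous t →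
      aeval (x' s) p = c s ^ t * algebraMap E E' (aeval (x s) p) := by
    intro s t p hp
    have h1 := Pool.Agent.H264.TwoT4.scale (c s) (fun i => algebraMap E E' (x s i)) p hp
    rw [map_aeval] at h1
    exact h1
  have hy : (fun j => ∏ s, aeval (x' s) (F j)) =
      fun j => (∏ s, c s) ^ e * algebraMap E E' (∏ s, aeval (x s) (F j)) := by
    funext j
    rw [map_prod, ← Finset.prod_pow, ← Finset.prod_mul_distrib]
    exact Finset.prod_congr rfl fun s _ => hev s e (F j) (hF j)
  refine trdeg_lt hHG hp hμ hP (x' s0) (fun j => ∏ s, aeval (x' s) (F j)) ?_ ?_ ?_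
  · -- the ideal of the point
    intro p
    have h1 : aeval (x' s0) p = algebraMap (Polynomial E) E'
        (aeval (fun j => Polynomial.C (x s0 j) * Polynomial.X : Fin n → Polynomial E) p) := by
      have h2 := comp_aeval_apply (IsScalarTower.toAlgHom K (Polynomial E) E')
        (f := (fun j => Polynomial.C (x s0 j) * Polynomial.X : Fin n → Polynomial E)) p
      have h3 : (fun i => (IsScalarTower.toAlgHom K (Polynomial E) E')
          ((Polynomial.C (x s0 i) * Polynomial.X : Polynomial E))) = x' s0 := by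
        funext i
        simp only [x', c, if_true]
        rw [map_mul, mul_comm]
        rfl
      rw [h3] at h2
      exact h2.symm
    rw [h1, map_eq_zero_iff _ (IsFractionRing.injective (Polynomial E) E')]
    constructor
    · intro h2
      rw [← sum_homogeneousComponent p]
      refine Ideal.sum_mem _ fun i _ => ?_
      by_contra h3
      refine hgen _ i (homogeneousComponent_isHomogeneous i p) h3 ?_
      rw [← coeff_cone, h2, Polynomial.coeff_zero]
    · intro h2
      have h3 := Pool.Agent.H426.Ru.cone hHG (x s0) (fun p hp => by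
        refine Submodule.span_induction (p := fun p _ => aeval (x s0) p = 0) ?_ ?_ ?_ ?_ hp
        · rintro _ ⟨k, rfl⟩
          exact hxG s0 k
        · exact map_zero _
        · intro a b _ _ ha hb
          rw [map_add, ha, hb, add_zero]
        · intro a b _ hb
          rw [smul_eq_mul, map_mul, hb, mul_zero]) p h2
      exact h3
  · rw [hy]
    refine scale_mem hPh (fun j => algebraMap E E' (∏ s, aeval (x s) (F j))) _ ?_
    intro p hp
    rw [map_aeval, hxP p hp, map_zero]
  · intro i
    refine alg_val hδ he hq G g hG F hF hgp x' s0 ?_ ?_ ?_ i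
    · intro s h
      have h1 := congrFun h (i0 s)
      exact mul_ne_zero (hc s) ((map_ne_zero_iff _ hinjE).2 (hi0 s)) h1
    · intro s hs
      refine ⟨i0 s, ?_⟩
      simp only [x', c, hs, if_false]
      rw [← map_mul, inv_mul_cancel₀ (hi0 s), map_one]
    · intro s k
      rw [hev s (g k) (G k) (hG k), hxG, map_zero, mul_zero]

end Pool.Agent.H426.Noc
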