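import Pool.Agent.H426.Noc.NPrime
import Pool.Agent.H426.Noc.NSmall
import Pool.Agent.H426.Two.Gen

/-!
The sharp inequality for all points of bounded degree outside a proper closed subset.
-/

set_option autoImplicit false

namespace Pool.Agent.H426.Noc

open MvPolynomial Finset Module NumberField IsDedekindDomain Height
open Pool.Agent.W180.OP Pool.Agent.W180.TP Pool.Agent.NH28
open Pool.Agent.TH875 (VM VM_finite not_all form_ub)
open Pool.Agent.H426.Ru (HG noeth main_f cone)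
open Pool.Agent.H426.Two

/-- the conjugates of a point -/
lemma conj_tuple {K L : Type} [Field K] [NumberField K] [Field L] [NumberField L] [Algebra K L]
    {n q δ : ℕ} (hδ : finrank K L = δ) (F : Fin q → MvPolynomial (Fin n) K) (x : Fin n → L) :
    ∃ σ : Fin δ → (L →ₐ[K] AlgebraicClosure K), ∀ p : MvPolynomial (Fin q) K,
      aeval (fun j => ∏ s, aeval (fun i => σ s (x i)) (F j)) p =
        algebraMap K (AlgebraicClosure K)
          (aeval (fun j => Algebra.norm K (aeval x (F j))) p) := by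
  classical
  have hfin : FiniteDimensional K L := Module.Finite.of_restrictScalars_finite ℚ K L
  have hcard : Fintype.card (L →ₐ[K] AlgebraicClosure K) = Fintype.card (Fin δ) := by
    rw [Fintype.card_fin, ← hδ]
    exact AlgHom.card K L (AlgebraicClosure K)
  obtain ⟨σ⟩ : Nonempty (Fin δ ≃ (L →ₐ[K] AlgebraicClosure K)) := by
    rw [← Fintype.card_eq]
    exact hcard.symm
  refine ⟨σ, fun p => ?_⟩
  have hcomp : ∀ (s : Fin δ) (f : MvPolynomial (Fin n) K),
      aeval (fun i => σ s (x i)) f = σ s (aeval x f) := by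
    intro s f
    have := comp_aeval_apply (σ s) (f := x) f
    exact this.symm
  have h2 : ∀ j, ∏ s, aeval (fun i => σ s (x i)) (F j) =
      algebraMap K (AlgebraicClosure K) (Algebra.norm K (aeval x (F j))) := by
    intro j
    rw [Algebra.norm_eq_prod_embeddings K (AlgebraicClosure K)]
    rw [← Equiv.prod_comp σ]
    exact Finset.prod_congr rfl fun s _ => hcomp s _
  have h3 : (fun j => ∏ s, aeval (fun i => σ s (x i)) (F j)) =
      fun j => algebraMap K (AlgebraicClosure K) (Algebra.norm K (aeval x (F j))) := funext h2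
  rw [h3]
  have := comp_aeval_apply (Algebra.ofId K (AlgebraicClosure K))
    (f := fun j => Algebra.norm K (aeval x (F j))) p
  exact this.symm

section

variable {K : Type} [Field K] [NumberField K]

/-- **The sharp inequality for the points of degree `δ`.** -/
theorem nred_delta {n m q N e δ μ : ℕ} (hδ : 1 ≤ δ) (he : 1 ≤ e)
    (G : Fin m → MvPolynomial (Fin n) K) (g : Fin m → ℕ) (hG : ∀ k, (G k).IsHomogeneous (g k))
    (hp : (Ideal.span (Set.range G)).IsPrime)
    (hμ : (μ : Cardinal) < Algebra.trdeg K (MvPolynomial (Fin n) K ⧸ Ideal.span (Set.range G)))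
    (hμN : μ ≤ N)
    (F : Fin q → MvPolynomial (Fin n) K) (hF : ∀ i, (F i).IsHomogeneous e)
    (hgp : ∀ J : Fin (N + 1) ↪ Fin q, ∀ (E : Type) [Field E] [Algebra K E] (x : Fin n → E),
      (∀ k, aeval x (G k) = 0) → (∀ k, aeval x (F (J k)) = 0) → x = 0) {ε : ℝ} (hε : 0 < ε) :
    ∃ (Z : MvPolynomial (Fin n) K) (t : ℕ), Z.IsHomogeneous t ∧ Z ∉ Ideal.span (Set.range G) ∧
      ∀ S : Finset (Pl K), ∃ C : ℝ, 0 ≤ C ∧ ∀ (L : Type) [Field L] [NumberField L] [Algebra K L],
      finrank K L = δ →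
      ∀ x : Fin n → L, x ≠ 0 → (∀ k, aeval x (G k) = 0) → (∀ j, aeval x (F j) ≠ 0) →
      aeval x Z ≠ 0 →
      ∑ v ∈ S, ∑ w ∈ ab L v, wt w * ∑ j, lam (av w) e (bc L (F j)) x ≤
        (2 * (N * δ) - μ + 1 + ε) * (e * logHeight x) + C := by
  classical
  have hμr : (μ : ℝ) ≤ N := by exact_mod_cast hμN
  have hδr : (1 : ℝ) ≤ δ := by exact_mod_cast hδ
  have hN0 : (0 : ℝ) ≤ N := Nat.cast_nonneg _
  have hμδ : (μ : ℝ) ≤ N * δ := hμr.trans (le_mul_of_one_le_right hN0 hδr)
  have hNδ0 : (0 : ℝ) ≤ N * δ := by positivity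
  by_cases hq : q ≤ N * δ
  · refine ⟨1, 0, isHomogeneous_one _ _, fun h => hp.ne_top ((Ideal.eq_top_iff_one _).2 h),
      fun S => ?_⟩
    obtain ⟨C, hC0, hC⟩ := few (δ := δ) F hF S
    refine ⟨C, hC0, fun L _ _ _ hL x hx _ hFx _ => (hC L hL x hx hFx).trans ?_⟩
    have hh := logHeight_nonneg x
    have h1 : (q : ℝ) ≤ N * δ := by exact_mod_cast hq
    have h3 : 0 ≤ e * logHeight x := by positivity
    have h4 : (q : ℝ) * (e * logHeight x) ≤ (2 * (N * δ) - μ + 1 + ε) * (e * logHeight x) :=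
      mul_le_mul_of_nonneg_right (by linarith) h3
    linarith
  push Not at hq
  have h5 : ∀ (K L : Type) [Field K] [NumberField K] [Field L] [NumberField L] [Algebra K L]
      (v : Pl K) (z : L), z ≠ 0 →
      ∑ w ∈ ab L v, wt w * Real.log (av w z) = wt v * Real.log (av v (Algebra.norm K z)) :=
    fun K L _ _ _ _ _ v z hz => Pool.Agent.H738.Two5.norm_places v z hz
  obtain ⟨I0, hI0, hI0m, hI0s⟩ := Pool.Agent.H264.TwoT4.prime_cond (N := N) hδ he G g hG F hF hgp
  obtain ⟨k, B, hB, hmain⟩ := noeth_sharp hI0 (N := N * δ) hI0s μ hε (by omega)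
  -- the exceptional set
  have hZ : ∀ i, ∃ (Z : MvPolynomial (Fin n) K) (t : ℕ), Z.IsHomogeneous t ∧
      Z ∉ Ideal.span (Set.range G) ∧
      ∀ (E : Type) [Field E] [Algebra K E] (x : Fin δ → Fin n → E), (∀ s, x s ≠ 0) →
        (∀ s k, aeval (x s) (G k) = 0) →
        (∀ p ∈ B i, aeval (fun j => ∏ s, aeval (x s) (F j)) p = 0) →
        aeval (x ⟨0, hδ⟩) Z = 0 := by
    intro i
    obtain ⟨hBp, hBh, -, -, ν, c, hD, hν⟩ := hB i
    refine small hδ he hq G g hG hp F hF hgp hμ hBh ((trdeg_le_of_HD hBp hD).trans ?_) ⟨0, hδ⟩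
    exact_mod_cast (by omega : ν + 1 ≤ μ)
  choose Z t hZt hZG hZ using hZ
  refine ⟨∏ i, Z i, ∑ i, t i, IsHomogeneous.prod _ _ _ fun i _ => hZt i, ?_, fun S => ?_⟩
  · intro h
    obtain ⟨i, -, hi⟩ := hp.prod_mem_iff.1 h
    exact hZG i hi
  obtain ⟨C, hC0, hC⟩ := hmain S
  obtain ⟨C', hC'0, hC'⟩ := Pool.Agent.H249.Two7a.height_norm_le h5 F hF δ
  choose Cv hCv0 hCv using fun v : Pl K =>
    Pool.Agent.H996.Two.nrm_norm_ge (δ := δ) h5 hq G g hG F hF hgp v
  have hCvs : 0 ≤ ∑ v ∈ S, Cv v := Finset.sum_nonneg fun v _ => hCv0 v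
  have hcoef : 0 ≤ 2 * ((N : ℝ) * δ) - μ + 1 + ε := by linarith
  refine ⟨C + (2 * (N * δ) - μ + 1 + ε) * C' + q * ∑ v ∈ S, Cv v, by positivity,
    fun L _ _ _ hL x hx hGx hFx hZx => ?_⟩
  have hfin : FiniteDimensional K L := Module.Finite.of_restrictScalars_finite ℚ K L
  set y : Fin q → K := fun j => Algebra.norm K (aeval x (F j)) with hy
  have hy0 : ∀ j, y j ≠ 0 := fun j => by
    rw [hy]
    exact (Algebra.norm_ne_zero_iff (R := K)).2 (hFx j)
  have h1 : ∑ v ∈ S, ∑ j, lc v y j ≤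
      (2 * ((N * δ : ℕ) : ℝ) - μ + 1 + ε) * logHeight y + C := by
    rcases hC y hy0 (fun p hp => norm_mem hL G F p (fun E _ _ x hx => hI0m E x hx p hp) x hGx)
      with ⟨i, hi⟩ | h1
    · exfalso
      obtain ⟨σ, hσ⟩ := conj_tuple hL F x
      have hcomp : ∀ (s : Fin δ) (f : MvPolynomial (Fin n) K),
          aeval (fun i => σ s (x i)) f = σ s (aeval x f) := by
        intro s f
        have := comp_aeval_apply (σ s) (f := x) f
        exact this.symm
      have h2 := hZ i (AlgebraicClosure K) (fun s i => σ s (x i)) (by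
        intro s h
        refine hx (funext fun i => ?_)
        have h3 := congrFun h i
        exact (map_eq_zero_iff _ (σ s).injective).1 h3) (by
        intro s k
        rw [hcomp, hGx k, map_zero]) (by
        intro p hp
        rw [hσ p]
        have := hi p hp
        rw [this, map_zero])
      rw [hcomp] at h2
      have h3 : aeval x (Z i) = 0 := (map_eq_zero_iff _ (σ _).injective).1 h2
      refine hZx ?_
      rw [map_prod]
      exact Finset.prod_eq_zero (Finset.mem_univ i) h3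
    · exact h1
  have h2 := hC' L hL.le x hx hFx
  have h3 : ∀ v ∈ S, ∑ w ∈ ab L v, wt w * ∑ j, lam (av w) e (bc L (F j)) x ≤
      ∑ j, lc v y j + q * Cv v := by
    intro v _
    have h4 := hCv v L hL.le x hx hGx hFx
    have h6 : ∑ w ∈ ab L v, wt w * ∑ j, lam (av w) e (bc L (F j)) x =
        ∑ j, (e * ∑ w ∈ ab L v, wt w * Real.log (nrm (av w) x) -
          wt v * Real.log (av v (y j))) := by
      have h7 : ∀ j, wt v * Real.log (av v (y j)) =
          ∑ w ∈ ab L v, wt w * Real.log (av w (aeval x (F j))) := fun j =>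
        (h5 K L v _ (hFx j)).symm
      simp_rw [Finset.mul_sum, h7]
      rw [Finset.sum_comm]
      refine Finset.sum_congr rfl fun j _ => ?_
      rw [← Finset.sum_sub_distrib]
      refine Finset.sum_congr rfl fun w _ => ?_
      have h8 : eval x (bc L (F j)) = aeval x (F j) := eval_bc _ _
      rw [lam_eq (av w) e _ hx (by rw [h8]; exact hFx j), h8]
      ring
    rw [h6]
    have h9 : (q : ℝ) * Cv v = ∑ _j : Fin q, Cv v := by
      rw [Finset.sum_const, Finset.card_univ, Fintype.card_fin, nsmul_eq_mul]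
    rw [h9, ← Finset.sum_add_distrib]
    refine Finset.sum_le_sum fun j _ => ?_
    unfold lc
    rw [mul_sub]
    linarith
  refine (Finset.sum_le_sum h3).trans ?_
  rw [Finset.sum_add_distrib, ← Finset.mul_sum]
  push_cast at h1
  have h10 : (2 * ((N : ℝ) * δ) - μ + 1 + ε) * logHeight y ≤
      (2 * ((N : ℝ) * δ) - μ + 1 + ε) * (e * logHeight x + C') :=
    mul_le_mul_of_nonneg_left h2 hcoef
  linarith

/-- **The sharp inequality for the points of degree at most `r`.** -/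
theorem nred_r {n m q N e r μ : ℕ} (he : 1 ≤ e)
    (G : Fin m → MvPolynomial (Fin n) K) (g : Fin m → ℕ) (hG : ∀ k, (G k).IsHomogeneous (g k))
    (hp : (Ideal.span (Set.range G)).IsPrime)
    (hμ : (μ : Cardinal) < Algebra.trdeg K (MvPolynomial (Fin n) K ⧸ Ideal.span (Set.range G)))
    (hμN : μ ≤ N)
    (F : Fin q → MvPolynomial (Fin n) K) (hF : ∀ i, (F i).IsHomogeneous e)
    (hgp : ∀ J : Fin (N + 1) ↪ Fin q, ∀ (E : Type) [Field E] [Algebra K E] (x : Fin n → E),
      (∀ k, aeval x (G k) = 0) → (∀ k, aeval x (F (J k)) = 0) → x = 0) {ε : ℝ} (hε : 0 < ε) :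
    ∃ (Z : MvPolynomial (Fin n) K) (t : ℕ), Z.IsHomogeneous t ∧ Z ∉ Ideal.span (Set.range G) ∧
      ∀ S : Finset (Pl K), ∃ C : ℝ, 0 ≤ C ∧ ∀ (L : Type) [Field L] [NumberField L] [Algebra K L],
      finrank K L ≤ r →
      ∀ x : Fin n → L, x ≠ 0 → (∀ k, aeval x (G k) = 0) → (∀ j, aeval x (F j) ≠ 0) →
      aeval x Z ≠ 0 →
      ∑ v ∈ S, ∑ w ∈ ab L v, wt w * ∑ j, lam (av w) e (bc L (F j)) x ≤
        (2 * (N * finrank K L) - μ + 1 + ε) * (e * logHeight x) + C := by
  classical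
  have h1 : ∀ δ : ℕ, ∃ (Z : MvPolynomial (Fin n) K) (t : ℕ), Z.IsHomogeneous t ∧
      Z ∉ Ideal.span (Set.range G) ∧
      ∀ S : Finset (Pl K), ∃ C : ℝ, 0 ≤ C ∧ (1 ≤ δ → ∀ (L : Type) [Field L] [NumberField L]
      [Algebra K L], finrank K L = δ →
      ∀ x : Fin n → L, x ≠ 0 → (∀ k, aeval x (G k) = 0) → (∀ j, aeval x (F j) ≠ 0) →
      aeval x Z ≠ 0 →
      ∑ v ∈ S, ∑ w ∈ ab L v, wt w * ∑ j, lam (av w) e (bc L (F j)) x ≤
        (2 * (N * δ) - μ + 1 + ε) * (e * logHeight x) + C) := by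
    intro δ
    by_cases hδ : 1 ≤ δ
    · obtain ⟨Z, t, hZt, hZG, hZ⟩ := nred_delta (δ := δ) hδ he G g hG hp hμ hμN F hF hgp hε
      refine ⟨Z, t, hZt, hZG, fun S => ?_⟩
      obtain ⟨C, hC0, hC⟩ := hZ S
      exact ⟨C, hC0, fun _ => hC⟩
    · exact ⟨1, 0, isHomogeneous_one _ _, fun h => hp.ne_top ((Ideal.eq_top_iff_one _).2 h),
        fun S => ⟨0, le_rfl, fun h => absurd h hδ⟩⟩
  choose Z t hZt hZG hZ using h1
  refine ⟨∏ δ ∈ Finset.range (r + 1), Z δ, ∑ δ ∈ Finset.range (r + 1), t δ,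
    IsHomogeneous.prod _ _ _ fun i _ => hZt i, ?_, fun S => ?_⟩
  · intro h
    obtain ⟨i, -, hi⟩ := hp.prod_mem_iff.1 h
    exact hZG i hi
  choose C hC0 hC using fun δ => hZ δ S
  refine ⟨∑ δ ∈ Finset.range (r + 1), C δ, Finset.sum_nonneg fun δ _ => hC0 δ,
    fun L _ _ _ hL x hx hGx hFx hZx => ?_⟩
  have hfin : FiniteDimensional K L := Module.Finite.of_restrictScalars_finite ℚ K L
  have hmem : finrank K L ∈ Finset.range (r + 1) := Finset.mem_range.2 (by omega)
  have h2 := hC (finrank K L) finrank_pos L rfl x hx hGx hFx (by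
    intro h
    refine hZx ?_
    rw [map_prod]
    exact Finset.prod_eq_zero hmem h)
  have h3 : C (finrank K L) ≤ ∑ δ ∈ Finset.range (r + 1), C δ :=
    Finset.single_le_sum (f := C) (fun δ _ => hC0 δ) hmem
  linarith

/-- **The sharp inequality for hypersurfaces of any degrees and the points of degree at most `r`
outside a proper closed subset.** -/
theorem ngen {n m q N r μ : ℕ}
    (G : Fin m → MvPolynomial (Fin n) K) (g : Fin m → ℕ) (hG : ∀ k, (G k).IsHomogeneous (g k))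
    (hp : (Ideal.span (Set.range G)).IsPrime)
    (hμ : (μ : Cardinal) < Algebra.trdeg K (MvPolynomial (Fin n) K ⧸ Ideal.span (Set.range G)))
    (hμN : μ ≤ N)
    (F : Fin q → MvPolynomial (Fin n) K) (d : Fin q → ℕ) (hd : ∀ i, 1 ≤ d i)
    (hF : ∀ i, (F i).IsHomogeneous (d i))
    (hgp : ∀ J : Fin (N + 1) ↪ Fin q, ∀ (E : Type) [Field E] [Algebra K E] (x : Fin n → E),
      (∀ k, aeval x (G k) = 0) → (∀ k, aeval x (F (J k)) = 0) → x = 0) {ε : ℝ} (hε : 0 < ε) :
    ∃ (Z : MvPolynomial (Fin n) K) (t : ℕ), Z.IsHomogeneous t ∧ Z ∉ Ideal.span (Set.range G) ∧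
      ∀ S : Finset (Pl K), ∃ C : ℝ, 0 ≤ C ∧ ∀ (L : Type) [Field L] [NumberField L] [Algebra K L],
      finrank K L ≤ r →
      ∀ x : Fin n → L, x ≠ 0 → (∀ k, aeval x (G k) = 0) → (∀ j, aeval x (F j) ≠ 0) →
      aeval x Z ≠ 0 →
      ∀ T : Finset (Pl L), (∀ w ∈ T, ∃ v ∈ S, Ov v w) →
      ∑ w ∈ T, wt w * ∑ j, lam (av w) (d j) (bc L (F j)) x / d j ≤
        (2 * (N * finrank K L) - μ + 1 + ε) * logHeight x + C := by
  classical
  set e : ℕ := ∏ i, d i with he
  have he1 : 1 ≤ e := Finset.one_le_prod' fun i _ => hd i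
  have hdvd : ∀ i, d i ∣ e := fun i => Finset.dvd_prod_of_mem d (Finset.mem_univ i)
  choose c hc using hdvd
  have hF' : ∀ i, (F i ^ c i).IsHomogeneous e := fun i => by
    have := (hF i).pow (c i)
    rwa [← hc i] at this
  have hc0 : ∀ i, c i ≠ 0 := by
    intro i h
    have := hc i
    rw [h, mul_zero] at this
    omega
  obtain ⟨Z, t, hZt, hZG, hmain⟩ := nred_r (r := r) (N := N) he1 G g hG hp hμ hμN
    (fun i => F i ^ c i) hF' (by
    intro J E _ _ x h1 h2
    refine hgp J E x h1 fun k => ?_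
    have := h2 k
    rw [map_pow] at this
    exact (pow_eq_zero_iff (hc0 _)).1 this) hε
  refine ⟨Z, t, hZt, hZG, fun S => ?_⟩
  obtain ⟨C, hC0, hC⟩ := hmain S
  choose Cf hCf0 hCf using fun i => form_ub (F i) (hF i)
  have hCfs : 0 ≤ ∑ i, Cf i := Finset.sum_nonneg fun i _ => hCf0 i
  refine ⟨C + S.card * r * ((∑ i, Cf i) * (finrank ℚ K * r)), by positivity,
    fun L _ _ _ hL x hx hGx hFx hZx T hT => ?_⟩
  have h1 := hC L hL x hx hGx (fun i => by rw [map_pow]; exact pow_ne_zero _ (hFx i)) hZx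
  have he0 : (0 : ℝ) < e := by exact_mod_cast he1
  have he1' : (1 : ℝ) ≤ e := by exact_mod_cast he1
  have hd0 : ∀ i, (1 : ℝ) ≤ d i := fun i => by exact_mod_cast hd i
  have hlam : ∀ (w : Pl L) (i : Fin q), lam (av w) e (bc L (F i ^ c i)) x =
      e * (lam (av w) (d i) (bc L (F i)) x / d i) := by
    intro w i
    have h2 : eval x (bc L (F i)) = aeval x (F i) := eval_bc _ _
    have h3 : eval x (bc L (F i ^ c i)) = aeval x (F i) ^ c i := by rw [eval_bc, map_pow]
    have h4 := hd0 i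
    have h5 : (e : ℝ) = d i * c i := by exact_mod_cast hc i
    rw [lam_eq (av w) e _ hx (by rw [h3]; exact pow_ne_zero _ (hFx i)), h3,
      lam_eq (av w) (d i) _ hx (by rw [h2]; exact hFx i), h2, map_pow, Real.log_pow, h5]
    field_simp
  set f : Pl L → ℝ := fun w => wt w * ∑ j, lam (av w) (d j) (bc L (F j)) x / d j with hf
  have h2 : ∑ v ∈ S, ∑ w ∈ ab L v, wt w * ∑ j, lam (av w) e (bc L (F j ^ c j)) x =
      e * ∑ v ∈ S, ∑ w ∈ ab L v, f w := by
    rw [Finset.mul_sum]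
    refine Finset.sum_congr rfl fun v _ => ?_
    rw [Finset.mul_sum]
    refine Finset.sum_congr rfl fun w _ => ?_
    rw [hf]
    simp only [hlam]
    rw [← Finset.mul_sum]
    ring
  rw [h2] at h1
  have h3 : ∑ v ∈ S, ∑ w ∈ ab L v, f w ≤
      (2 * (N * finrank K L) - μ + 1 + ε) * logHeight x + C := by
    have h4 : C ≤ e * C := le_mul_of_one_le_left hC0 he1'
    refine le_of_mul_le_mul_left ?_ he0
    linarith
  -- the places outside `T`
  have hfq : (finrank ℚ L : ℝ) ≤ finrank ℚ K * r := by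
    have h4 : finrank ℚ K * finrank K L = finrank ℚ L := finrank_mul_finrank ℚ K L
    rw [← h4]
    push_cast
    exact mul_le_mul_of_nonneg_left (by exact_mod_cast hL) (Nat.cast_nonneg _)
  set B : ℝ := (∑ i, Cf i) * (finrank ℚ K * r) with hB
  have hB0 : 0 ≤ B := by positivity
  have hfB : ∀ w, -B ≤ f w := by
    intro w
    rw [hf]
    simp only
    rw [Finset.mul_sum, neg_le, ← Finset.sum_neg_distrib, hB, Finset.sum_mul]
    refine Finset.sum_le_sum fun i _ => ?_
    have h4 := hCf i L w x hx (hFx i)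
    have h5 : Cf i * finrank ℚ L ≤ Cf i * (finrank ℚ K * r) :=
      mul_le_mul_of_nonneg_left hfq (hCf0 i)
    have h6 : 0 ≤ Cf i * (finrank ℚ K * r) := mul_nonneg (hCf0 i) (by positivity)
    have h7 : -(wt w * (lam (av w) (d i) (bc L (F i)) x / d i)) =
        -(wt w * lam (av w) (d i) (bc L (F i)) x) / d i := by ring
    rw [h7, div_le_iff₀ (by have := hd0 i; linarith)]
    have h8 : Cf i * (finrank ℚ K * r) ≤ Cf i * (finrank ℚ K * r) * d i :=
      le_mul_of_one_le_right h6 (hd0 i)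
    linarith
  set U : Finset (Pl L) := S.biUnion fun v => ab L v with hU
  have hsumU : ∑ v ∈ S, ∑ w ∈ ab L v, f w = ∑ w ∈ U, f w := by
    rw [hU, Finset.sum_biUnion]
    intro v _ v' _ hne
    rw [Function.onFun, Finset.disjoint_left]
    intro w hw hw'
    exact hne (ov_unique (mem_ab.1 hw) (mem_ab.1 hw'))
  have hTU : T ⊆ U := by
    intro w hw
    obtain ⟨v, hv, hvw⟩ := hT w hw
    exact Finset.mem_biUnion.2 ⟨v, hv, mem_ab.2 hvw⟩
  have hcardU : (U.card : ℝ) ≤ S.card * r := by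
    have h4 : U.card ≤ ∑ v ∈ S, (ab L v).card := Finset.card_biUnion_le
    have h5 : ∑ v ∈ S, (ab L v).card ≤ ∑ _v ∈ S, r :=
      Finset.sum_le_sum fun v _ => (card_ab_le L v).trans hL
    rw [Finset.sum_const, smul_eq_mul] at h5
    exact_mod_cast h4.trans h5
  have hTf : ∑ w ∈ T, f w ≤ ∑ w ∈ U, f w + U.card * B := by
    have h4 : ∑ w ∈ T, (f w + B) ≤ ∑ w ∈ U, (f w + B) :=
      Finset.sum_le_sum_of_subset_of_nonneg hTU fun w _ _ => by linarith [hfB w]
    rw [Finset.sum_add_distrib, Finset.sum_add_distrib, Finset.sum_const, Finset.sum_const,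
      nsmul_eq_mul, nsmul_eq_mul] at h4
    have h5 : 0 ≤ (T.card : ℝ) * B := by positivity
    linarith
  rw [hsumU] at h3
  have h4 : (U.card : ℝ) * B ≤ S.card * r * B := mul_le_mul_of_nonneg_right hcardU hB0
  linarith

end

end Pool.Agent.H426.Noc
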