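import Pool.Agent.H426.Noc.NClaim

/-!
The inductive step of the main inequality.
-/

set_option autoImplicit false

namespace Pool.Agent.H426.Noc

open MvPolynomial Finset Module Filter
open Pool.Agent.TH875 (VM)
open Pool.Agent.H426.Ru (HG)
open Pool.Agent.H426.Two
open Api
open scoped Topology

variable {K : Type} [Field K] {q : ℕ}

/-- the search for a good level -/
lemma find_level {Q : Ideal (MvPolynomial (Fin q) K)}
    {L : ℕ} {P : Fin L → Ideal (MvPolynomial (Fin q) K)} {t : Fin L → ℕ} {m0 : ℕ} {T r : ℕ}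
    {W : Type} [Fintype W] (a : W → Fin q → ℝ) (ha : ∀ w j, 0 ≤ a w j) (A : W → ℝ)
    (hbd : ∀ w, ∑ n ∈ Finset.range r, ∑ l, (bw (P l) (T + 1 + n - t l) (a w) +
          (((r : ℝ) - 1 - n) - m0) * A w *
            finrank K (VM (P l) (T + 1 + n - t l))) ≤ bw Q (T + r) (a w))
    {k : ℕ} {η ε1 x : ℝ} (hη0 : 0 ≤ η) (hr : 1 ≤ r) (B : Finset (Fin L)) (hB : B.Nonempty)
    (hMH : (0 : ℝ) < ((T + r : ℕ) : ℝ) * finrank K (VM Q (T + r)))
    (hS1 : (1 / (k + 2) - η) * (((T + r : ℕ) : ℝ) * finrank K (VM Q (T + r))) ≤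
        ∑ n ∈ range r, ∑ l, (((r : ℝ) - 1 - n) - m0) * finrank K (VM (P l) (T + 1 + n - t l)))
    (hS2 : |∑ n ∈ range r, ∑ l ∈ B, ((T + 1 + n - t l : ℕ) : ℝ) *
          finrank K (VM (P l) (T + 1 + n - t l)) -
        (k + 1) / (k + 2) * (((T + r : ℕ) : ℝ) * finrank K (VM Q (T + r)))| ≤
        η * (((T + r : ℕ) : ℝ) * finrank K (VM Q (T + r))))
    (hx : ∑ w, bw Q (T + r) (a w) ≤ x * (((T + r : ℕ) : ℝ) * finrank K (VM Q (T + r))))
    (hx0 : 0 ≤ x) (hx1 : x ≤ 1) (hu1 : 1 ≤ ∑ w, A w) (huq : ∑ w, A w ≤ q) (he0 : 0 ≤ ε1)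
    (he1 : ε1 ≤ 1) (hηε : η * ((k + 2) * (2 * q + 2)) ≤ (k + 1) * ε1) :
    ∃ n < r, ∃ l ∈ B, ∑ w, bw (P l) (T + 1 + n - t l) (a w) ≤
      (((k + 2) * x - ∑ w, A w) / (k + 1) + ε1) *
        (((T + 1 + n - t l : ℕ) : ℝ) * finrank K (VM (P l) (T + 1 + n - t l))) := by
  classical
  by_contra hcon
  push Not at hcon
  set y : ℝ := ((k + 2) * x - ∑ w, A w) / (k + 1) + ε1 with hy
  set u : ℝ := ∑ w, A w with hu
  set MH : ℝ := ((T + r : ℕ) : ℝ) * finrank K (VM Q (T + r)) with hMHd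
  have hk1 : (0 : ℝ) < (k : ℝ) + 1 := by positivity
  have hk2 : (0 : ℝ) < (k : ℝ) + 2 := by positivity
  have hq0 : (0 : ℝ) ≤ q := Nat.cast_nonneg _
  -- the sum of the levels
  have hsum : ∑ n ∈ range r, ∑ l, ∑ w, bw (P l) (T + 1 + n - t l) (a w) +
      u * ∑ n ∈ range r, ∑ l, (((r : ℝ) - 1 - n) - m0) *
        (finrank K (VM (P l) (T + 1 + n - t l)) : ℝ) ≤ x * MH := by
    refine le_trans (le_of_eq ?_) ((Finset.sum_le_sum fun w _ => hbd w).trans hx)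
    symm
    rw [Finset.sum_comm, Finset.mul_sum, ← Finset.sum_add_distrib]
    refine Finset.sum_congr rfl fun n _ => ?_
    rw [Finset.sum_comm, Finset.mul_sum, ← Finset.sum_add_distrib]
    refine Finset.sum_congr rfl fun l _ => ?_
    rw [Finset.sum_add_distrib, hu]
    congr 1
    rw [← Finset.sum_mul, ← Finset.mul_sum]
    ring
  have hlow : y * ∑ n ∈ range r, ∑ l ∈ B, ((T + 1 + n - t l : ℕ) : ℝ) *
      (finrank K (VM (P l) (T + 1 + n - t l)) : ℝ) <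
      ∑ n ∈ range r, ∑ l, ∑ w, bw (P l) (T + 1 + n - t l) (a w) := by
    rw [Finset.mul_sum]
    refine Finset.sum_lt_sum_of_nonempty ⟨0, Finset.mem_range.2 (by omega)⟩ fun n hn => ?_
    rw [Finset.mul_sum]
    refine lt_of_lt_of_le (Finset.sum_lt_sum_of_nonempty hB fun l hl =>
      hcon n (Finset.mem_range.1 hn) l hl) ?_
    exact Finset.sum_le_sum_of_subset_of_nonneg (Finset.subset_univ _) fun l _ _ =>
      Finset.sum_nonneg fun w _ => bw_nonneg _ _ (ha w)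
  have hS1' := mul_le_mul_of_nonneg_left hS1 (by linarith : (0 : ℝ) ≤ u)
  set S2 : ℝ := ∑ n ∈ range r, ∑ l ∈ B, ((T + 1 + n - t l : ℕ) : ℝ) *
      (finrank K (VM (P l) (T + 1 + n - t l)) : ℝ) with hS2d
  have habs : |y| ≤ q + 2 := by
    have h1 : ((k + 2) * x - u) / (k + 1) ≤ 1 := by
      rw [div_le_one hk1]
      nlinarith
    have h2 : -(q : ℝ) ≤ ((k + 2) * x - u) / (k + 1) := by
      rw [le_div_iff₀ hk1]
      have hkk : (0 : ℝ) ≤ k := Nat.cast_nonneg _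
      nlinarith [mul_nonneg hk2.le hx0, mul_nonneg hkk hq0]
    rw [abs_le]
    constructor <;> linarith
  have h3 : y * ((k + 1) / (k + 2) * MH) - (q + 2) * (η * MH) ≤ y * S2 := by
    have h4 : |y * (S2 - (k + 1) / (k + 2) * MH)| ≤ (q + 2) * (η * MH) := by
      rw [abs_mul]
      exact mul_le_mul habs hS2 (abs_nonneg _) (by linarith)
    have h5 := (abs_le.1 h4).1
    linarith
  have h4 : y * ((k + 1) / (k + 2) * MH) - (q + 2) * (η * MH) <
      x * MH - u * ((1 / (k + 2) - η) * MH) := by linarith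
  have h5 : y * ((k + 1) / (k + 2)) - (q + 2) * η < x - u * (1 / (k + 2) - η) := by
    by_contra h6
    push Not at h6
    have h7 := mul_le_mul_of_nonneg_right h6 hMH.le
    apply absurd h4
    rw [not_lt]
    linarith
  have h6 : (k + 2 : ℝ) * (y * ((k + 1) / (k + 2)) - (q + 2) * η) <
      (k + 2) * (x - u * (1 / (k + 2) - η)) := mul_lt_mul_of_pos_left h5 hk2
  have e1 : (k + 2 : ℝ) * (y * ((k + 1) / (k + 2)) - (q + 2) * η) =
      ((k + 2) * x - u) + (k + 1) * ε1 - (k + 2) * (q + 2) * η := by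
    rw [hy]
    field_simp
  have e2 : (k + 2 : ℝ) * (x - u * (1 / (k + 2) - η)) = (k + 2) * x - u + (k + 2) * u * η := by
    field_simp
    ring
  rw [e1, e2] at h6
  have h7 : (k + 2) * u * η ≤ (k + 2) * q * η := by
    refine mul_le_mul_of_nonneg_right (mul_le_mul_of_nonneg_left huq hk2.le) hη0
  nlinarith

/-- the inductive step -/
lemma case_tight {N : ℕ} {Q : Ideal (MvPolynomial (Fin q) K)} (hsp : Sparse N Q) (hQ : HG Q)
    (hp : Q.IsPrime) (hN : (Ji Q).card ≤ N) {i : Fin q} (hi : X i ∉ Q) {k : ℕ} {c : ℝ}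
    (hD : HD Q (k + 1) c)
    (ih : ∀ P : Ideal (MvPolynomial (Fin q) K), P.IsPrime → HG P → Q < P → (∃ k, X k ∉ P) →
      ∀ ν c, HD P ν c → (Ji P).card + ν ≤ N ∧
        ∀ ε : ℝ, 0 < ε → ∃ M0 : ℕ, ∀ M, M0 ≤ M → ClN N P ν ε M) :
    (Ji Q).card + (k + 1) ≤ N ∧
      ∀ ε : ℝ, 0 < ε → ∃ M0 : ℕ, ∀ M, M0 ≤ M → ClT N Q i (k + 1) ε M := by
  classical
  obtain ⟨L, P, t, m0, hP, hdim, hbd⟩ := level_bound hQ hp hsp hN hi
  have h1 : ∀ l, ∃ (ν : ℕ) (c : ℝ), (∃ k, X k ∉ P l) → HD (P l) ν c := by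
    intro l
    by_cases hl : ∃ k, X k ∉ P l
    · obtain ⟨ν, c, h⟩ := exists_HD (hP l).2.1 (hP l).1 hl
      exact ⟨ν, c, fun _ => h⟩
    · exact ⟨0, 0, fun h => absurd h hl⟩
  choose ν cl h1 using h1
  obtain ⟨ν', c', hD', hcase⟩ := hd_step hp ⟨i, hi⟩ hdim ν cl h1
  obtain ⟨e1, e2⟩ := hD.unique hD'
  subst e2
  rcases hcase with ⟨h2, -⟩ | ⟨k', h2, -, B, hB, hBk, hBc⟩
  · omega
  have hkk : k = k' := by omega
  subst hkk
  have hBD : ∀ l ∈ B, HD (P l) k (cl l) := fun l hl => by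
    have := h1 l (hBk l hl).1
    rwa [(hBk l hl).2] at this
  have hJi : ∀ l, Ji Q ⊆ Ji (P l) := fun l j hj => mem_Ji.2 ((hP l).2.2.1.le (mem_Ji.1 hj))
  have hJlt : ∀ l, (Ji Q).card < (Ji (P l)).card := fun l => Finset.card_lt_card
    (Finset.ssubset_iff_subset_ne.2 ⟨hJi l, fun h => hi (mem_Ji.1 (h ▸ mem_Ji.2 (hP l).2.2.2))⟩)
  have hJo : ∀ l, Jo (P l) ⊆ Jo Q := fun l j hj =>
    mem_Jo.2 fun h => mem_Jo.1 hj ((hP l).2.2.1.le h)
  have hb : (Ji Q).card + (k + 1) ≤ N := by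
    obtain ⟨l, hl⟩ := hB
    have h3 := (ih (P l) (hP l).1 (hP l).2.1 (hP l).2.2.1 (hBk l hl).1 k (cl l) (hBD l hl)).1
    have := hJlt l
    omega
  refine ⟨hb, fun ε hε => ?_⟩
  -- the small parameters
  have hN0 : (0 : ℝ) ≤ N := Nat.cast_nonneg _
  have hq0 : (0 : ℝ) ≤ q := Nat.cast_nonneg _
  set ε1 : ℝ := ε / (6 * N + 3 + ε) with hε1
  have hε10 : 0 < ε1 := by positivity
  have hε11 : ε1 ≤ 1 := by
    rw [hε1, div_le_one (by positivity)]
    linarith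
  have hε1ε : ε1 * (6 * N + 3) ≤ ε := by
    rw [hε1, div_mul_eq_mul_div, div_le_iff₀ (by positivity)]
    nlinarith
  set η : ℝ := (k + 1) * ε1 / ((k + 2) * (2 * q + 2)) with hη
  have hη0 : 0 < η := by positivity
  have hηε : η * ((k + 2) * (2 * q + 2)) ≤ (k + 1) * ε1 := by
    rw [hη, div_mul_cancel₀ _ (by positivity)]
  -- the thresholds
  have hth : ∀ l, ∃ (Ml ml : ℕ), l ∈ B → ((Ji (P l)).card + k ≤ N ∧
      (∀ M, Ml ≤ M → ClN N (P l) k ε1 M)) ∧ ∀ (m : ℕ) (a : Fin q → ℝ), (∀ j, 0 ≤ a j) →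
      ((m : ℝ) - ml) * kth (N - (Ji (P l)).card + 1) (Jo (P l)) a * finrank K (VM (P l) m) ≤
        bw (P l) m a := by
    intro l
    by_cases hl : l ∈ B
    · obtain ⟨h3, h4⟩ := ih (P l) (hP l).1 (hP l).2.1 (hP l).2.2.1 (hBk l hl).1 k (cl l) (hBD l hl)
      obtain ⟨Ml, hMl⟩ := h4 ε1 hε10
      obtain ⟨ml, hml⟩ := formal_bound (N := N) (hP l).2.1
        (fun Q' a b c => hsp Q' a b ((hP l).2.2.1.le.trans c)) (by omega)
      exact ⟨Ml, ml, fun _ => ⟨⟨h3, hMl⟩, hml⟩⟩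
    · exact ⟨0, 0, fun h => absurd h hl⟩
  choose Ml ml hth using hth
  set T : ℕ := ∑ l, (t l + Ml l + ⌈(1 + ε1) * ml l / ε1⌉₊ + 1) with hT
  have hTl : ∀ l, t l + Ml l + ⌈(1 + ε1) * ml l / ε1⌉₊ + 1 ≤ T := fun l =>
    Finset.single_le_sum (f := fun l => t l + Ml l + ⌈(1 + ε1) * ml l / ε1⌉₊ + 1)
      (fun _ _ => Nat.zero_le _) (Finset.mem_univ l)
  have hTt : ∀ l, t l ≤ T + 1 := fun l => by
    have := hTl l
    omega
  obtain ⟨R, hR1, hR⟩ := sums_tendsto hdim hD B cl hBD hBc T hTt (m0 : ℝ) hη0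
  refine ⟨T + R, fun M hM => ?_⟩
  obtain ⟨r, rfl⟩ := Nat.exists_eq_add_of_le (show T ≤ M by omega)
  have hr : R ≤ r := by omega
  obtain ⟨hS1, hS2⟩ := hR r hr
  intro W _ a x hx0 hx1 ha hu hbx hai
  have hHQ : (1 : ℝ) ≤ finrank K (VM Q (T + r)) := by
    exact_mod_cast one_le_finrank hp hi (T + r)
  have hMpos : (0 : ℝ) < ((T + r : ℕ) : ℝ) := by exact_mod_cast (by omega : 0 < T + r)
  have hMH : (0 : ℝ) < ((T + r : ℕ) : ℝ) * finrank K (VM Q (T + r)) := by positivity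
  set A : W → ℝ := fun w => max (a w i) (kth (N - (Ji Q).card + 1) (Jo Q) (a w)) with hA
  have hu1 : 1 ≤ ∑ w, A w := by
    rw [← hai]
    exact Finset.sum_le_sum fun w _ => le_max_left _ _
  have huq : ∑ w, A w ≤ q := by
    have h3 : ∀ w, A w ≤ ∑ j ∈ Jo Q, a w j := fun w => max_le
      (Finset.single_le_sum (f := a w) (fun j _ => ha w j) (mem_Jo.2 hi))
      (kth_le_sum (by omega) _ _ (ha w))
    refine (Finset.sum_le_sum fun w _ => h3 w).trans ?_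
    rw [Finset.sum_comm]
    refine (Finset.sum_le_card_nsmul _ _ 1 fun j hj => hu j (mem_Jo.1 hj)).trans ?_
    rw [nsmul_eq_mul, mul_one]
    have h4 := Finset.card_le_univ (Jo Q)
    rw [Fintype.card_fin] at h4
    exact_mod_cast h4
  obtain ⟨n, hn, l, hl, hy⟩ := find_level a ha A (fun w => hbd T r hTt (a w) (ha w)) hη0.le
    (by omega) B hB hMH hS1 hS2 hbx hx0 hx1 hu1 huq hε10.le hε11 hηε
  set y : ℝ := ((k + 2) * x - ∑ w, A w) / (k + 1) + ε1 with hyd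
  set m : ℕ := T + 1 + n - t l with hm
  have hk1 : (0 : ℝ) < (k : ℝ) + 1 := by positivity
  obtain ⟨⟨hbl, hcl⟩, hfb⟩ := hth l hl
  have hTl' := hTl l
  have hmM : Ml l ≤ m := by omega
  have hm1 : (1 : ℝ) ≤ m := by exact_mod_cast (by omega : 1 ≤ m)
  obtain ⟨j0, hj0⟩ := (hBk l hl).1
  have hHl : (1 : ℝ) ≤ finrank K (VM (P l) m) := by exact_mod_cast one_le_finrank (hP l).1 hj0 m
  have hmH : (0 : ℝ) < (m : ℝ) * finrank K (VM (P l) m) := by positivity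
  have hy0 : 0 ≤ y := by
    have h3 : 0 ≤ ∑ w, bw (P l) m (a w) := Finset.sum_nonneg fun w _ => bw_nonneg _ _ (ha w)
    by_contra h4
    push Not at h4
    nlinarith
  have hy1 : y ≤ 1 + ε1 := by
    have h3 : ((k + 2) * x - ∑ w, A w) / (k + 1) ≤ 1 := by
      rw [div_le_one hk1]
      have hkk : (0 : ℝ) ≤ k := Nat.cast_nonneg _
      nlinarith
    linarith
  have hyk : (k + 1) * y = (k + 2) * x - ∑ w, A w + (k + 1) * ε1 := by
    rw [hyd]
    field_simp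
  -- the inequality for the level
  have h1e : (0 : ℝ) < 1 + ε1 := by linarith
  have hinv1 : (1 + ε1)⁻¹ ≤ 1 := inv_le_one_of_one_le₀ (by linarith)
  have hinv0 : (0 : ℝ) ≤ (1 + ε1)⁻¹ := by positivity
  have hstep := hcl m hmM W (fun w j => (1 + ε1)⁻¹ * a w j) (y / (1 + ε1)) (by positivity)
    (by rw [div_le_one h1e]; exact hy1) (fun w j => mul_nonneg hinv0 (ha w j)) (by
      intro j hj
      rw [← Finset.mul_sum]
      have h3 := hu j (mem_Jo.1 (hJo l (mem_Jo.2 hj)))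
      have h4 : 0 ≤ ∑ w, a w j := Finset.sum_nonneg fun w _ => ha w j
      nlinarith) (by
      have h3 : ∀ w, bw (P l) m (fun j => (1 + ε1)⁻¹ * a w j) = (1 + ε1)⁻¹ * bw (P l) m (a w) :=
        fun w => bw_mul _ _ _ hinv0
      rw [Finset.sum_congr rfl fun w _ => h3 w, ← Finset.mul_sum]
      refine (mul_le_mul_of_nonneg_left hy hinv0).trans (le_of_eq ?_)
      rw [div_eq_mul_inv]
      ring)
  have hstep2 : ∑ w, top (N - (Ji (P l)).card + 1) (Jo (P l)) (a w) ≤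
      (k + 1) * y + (1 + ε1) * (2 * ((N : ℝ) - (Ji (P l)).card - k) + ε1) := by
    have h3 : ∀ w, top (N - (Ji (P l)).card + 1) (Jo (P l)) (fun j => (1 + ε1)⁻¹ * a w j) =
        (1 + ε1)⁻¹ * top (N - (Ji (P l)).card + 1) (Jo (P l)) (a w) := fun w =>
      top_mul _ _ _ hinv0
    rw [Finset.sum_congr rfl fun w _ => h3 w, ← Finset.mul_sum] at hstep
    have h4 := mul_le_mul_of_nonneg_left hstep h1e.le
    rw [← mul_assoc, mul_inv_cancel₀ h1e.ne', one_mul] at h4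
    refine h4.trans (le_of_eq ?_)
    field_simp
    ring
  -- the bound for the last values
  have hG : ∑ w, kth (N - (Ji (P l)).card + 1) (Jo (P l)) (a w) ≤ 1 + 3 * ε1 := by
    set G : ℝ := ∑ w, kth (N - (Ji (P l)).card + 1) (Jo (P l)) (a w) with hGd
    have hmm : (m : ℝ) ≤ (1 + ε1) * ((m : ℝ) - ml l) := by
      have h3 : ⌈(1 + ε1) * ml l / ε1⌉₊ ≤ m := by omega
      have h4 : (1 + ε1) * ml l / ε1 ≤ m := (Nat.le_ceil _).trans (by exact_mod_cast h3)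
      rw [div_le_iff₀ hε10] at h4
      linarith
    have hmm0 : (0 : ℝ) < (m : ℝ) - ml l := by
      by_contra h3
      push Not at h3
      nlinarith
    have h3 : ((m : ℝ) - ml l) * G * finrank K (VM (P l) m) ≤ ∑ w, bw (P l) m (a w) := by
      refine le_trans (le_of_eq ?_) (Finset.sum_le_sum fun w _ => hfb m (a w) (ha w))
      rw [hGd, Finset.mul_sum, Finset.sum_mul]
    have h4 : ((m : ℝ) - ml l) * G ≤ y * m := by
      have h5 : (((m : ℝ) - ml l) * G) * finrank K (VM (P l) m) ≤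
          (y * m) * finrank K (VM (P l) m) := by
        refine (h3.trans hy).trans (le_of_eq ?_)
        ring
      exact le_of_mul_le_mul_right h5 (by linarith)
    have h5 : ((m : ℝ) - ml l) * G ≤ ((m : ℝ) - ml l) * ((1 + ε1) * (1 + ε1)) := by
      refine h4.trans ?_
      calc y * m ≤ (1 + ε1) * m := mul_le_mul_of_nonneg_right hy1 (by linarith)
        _ ≤ (1 + ε1) * ((1 + ε1) * ((m : ℝ) - ml l)) := mul_le_mul_of_nonneg_left hmm h1e.le
        _ = ((m : ℝ) - ml l) * ((1 + ε1) * (1 + ε1)) := by ring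
    have h6 := le_of_mul_le_mul_left h5 hmm0
    nlinarith
  -- the combinatorial step
  set Rr : Finset (Fin q) := Ji (P l) \ Ji Q with hRr
  have hRJ : Rr ⊆ Jo Q := fun j hj => by
    rw [hRr, Finset.mem_sdiff] at hj
    exact mem_Jo.2 fun h => hj.2 (mem_Ji.2 h)
  have hiR : i ∈ Rr := by
    rw [hRr, Finset.mem_sdiff]
    exact ⟨mem_Ji.2 (hP l).2.2.2, fun h => hi (mem_Ji.1 h)⟩
  have hRc : Rr.card + (Ji Q).card = (Ji (P l)).card := by
    rw [hRr]
    exact Finset.card_sdiff_add_card_eq_card (hJi l)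
  have hJR : Jo Q \ Rr = Jo (P l) := by
    ext j
    rw [Finset.mem_sdiff, hRr, Finset.mem_sdiff, mem_Jo, mem_Jo, mem_Ji, mem_Ji]
    have := (hP l).2.2.1.le (x := (X j : MvPolynomial (Fin q) K))
    tauto
  have hRpos : 1 ≤ Rr.card := Finset.card_pos.2 ⟨i, hiR⟩
  have hkR : N - (Ji Q).card + 1 - Rr.card = N - (Ji (P l)).card + 1 := by omega
  have htop : ∀ w, top (N - (Ji Q).card + 1) (Jo Q) (a w) ≤ ∑ j ∈ Rr, a w j +
      top (N - (Ji (P l)).card + 1) (Jo (P l)) (a w) + (A w - a w i) +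
      ((Rr.card : ℝ) - 1) * kth (N - (Ji (P l)).card + 1) (Jo (P l)) (a w) := by
    intro w
    have h3 := top_step (k := N - (Ji Q).card + 1) (Jo Q) Rr hRJ hiR (by omega) (a w) (ha w)
    rw [hkR, hJR] at h3
    exact h3
  have hsum := Finset.sum_le_sum (s := (Finset.univ : Finset W)) fun w _ => htop w
  rw [Finset.sum_add_distrib, Finset.sum_add_distrib, Finset.sum_add_distrib,
    Finset.sum_sub_distrib, ← Finset.mul_sum, hai] at hsum
  refine hsum.trans ?_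
  have hRs : ∑ w, ∑ j ∈ Rr, a w j ≤ Rr.card := by
    rw [Finset.sum_comm]
    refine (Finset.sum_le_card_nsmul _ _ 1 fun j hj => hu j (mem_Jo.1 (hRJ hj))).trans ?_
    rw [nsmul_eq_mul, mul_one]
  have hR1r : (0 : ℝ) ≤ (Rr.card : ℝ) - 1 := by
    have : (1 : ℝ) ≤ Rr.card := by exact_mod_cast hRpos
    linarith
  have hGG := mul_le_mul_of_nonneg_left hG hR1r
  have hRcr : (Rr.card : ℝ) + (Ji Q).card = (Ji (P l)).card := by exact_mod_cast hRc
  have hblr : ((Ji (P l)).card : ℝ) + k ≤ N := by exact_mod_cast hbl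
  have hb0 : (0 : ℝ) ≤ (Ji Q).card := Nat.cast_nonneg _
  have hk0 : (0 : ℝ) ≤ k := Nat.cast_nonneg _
  have hkN : (k : ℝ) + 1 ≤ N := by
    have : k + 1 ≤ N := by omega
    exact_mod_cast this
  -- the total
  have htotal : ∑ w, ∑ j ∈ Rr, a w j + ∑ w, top (N - (Ji (P l)).card + 1) (Jo (P l)) (a w) +
      (∑ w, A w - 1) + ((Rr.card : ℝ) - 1) *
        ∑ w, kth (N - (Ji (P l)).card + 1) (Jo (P l)) (a w) ≤
      Rr.card + ((k + 2) * x - ∑ w, A w + (k + 1) * ε1 +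
        (1 + ε1) * (2 * ((N : ℝ) - (Ji (P l)).card - k) + ε1)) + (∑ w, A w - 1) +
        ((Rr.card : ℝ) - 1) * (1 + 3 * ε1) := by
    rw [← hyk]
    linarith
  refine htotal.trans ?_
  rw [← hRcr] at hblr ⊢
  have hfin : ε1 * ((k + 1) + 2 * ((N : ℝ) - (Rr.card + (Ji Q).card) - k) + (1 + ε1) +
      3 * (Rr.card - 1)) ≤ ε := by
    refine le_trans (mul_le_mul_of_nonneg_left ?_ hε10.le) hε1ε
    linarith
  push_cast
  linarith [hfin]

end Pool.Agent.H426.Noc
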